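import Pool.Agent.N46.FD.Stm

set_option autoImplicit false

namespace Pool.Agent.N46.FD

open MeasureTheory Set Filter Topology

namespace AVO

theorem ini_congr {m : ℕ} (w v : ℕ → Fin m) (j : ℕ) (h : ∀ i, i < j → w i = v i) :
    ini w j = ini v j := by
  funext l
  exact h l l.2

end AVO

open AVO

theorem t_AVO : S_AVO := by
  intro hTOP k ε hk hε0 hε1 m n n' x t hn' hn'n hn4 hX hT hsep hav a l hl
  by_contra hcon
  push Not at hcon
  -- choose the words
  have hW : ∀ i : ℕ, ∃ w : ℕ → Fin m, i < k → |pt n x t w - (a + i * l)| < ε * l := by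
    intro i
    by_cases hi : i < k
    · obtain ⟨y, ⟨w, rfl⟩, hy⟩ := hcon i hi
      exact ⟨w, fun _ => hy⟩
    · obtain ⟨y, ⟨w, rfl⟩, hy⟩ := hcon 0 (by omega)
      exact ⟨w, fun h => absurd h hi⟩
  choose W hW using hW
  have hne : ∃ j : ℕ, ∃ i : ℕ, i < k ∧ W i j ≠ W 0 j := by
    by_contra hall
    push Not at hall
    have h02 : W 2 = W 0 := by
      funext j
      exact hall j 2 (by omega)
    have h0 := hW 0 (by omega)
    have h2 := hW 2 (by omega)
    rw [h02] at h2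
    rw [abs_lt] at h0 h2
    push_cast at h0 h2
    nlinarith [h0.1, h0.2, h2.1, h2.2]
  classical
  set j := Nat.find hne with hj
  obtain ⟨i2, hi2, hne2⟩ := Nat.find_spec hne
  rw [← hj] at hne2
  have hsame : ∀ i, i < k → ini (W i) j = ini (W 0) j := by
    intro i hi
    apply ini_congr
    intro j' hj'
    by_contra hh
    exact Nat.find_min hne (hj ▸ hj') ⟨i, hi, hh⟩
  have hn0 : (0 : ℝ) < n := by
    have : (0 : ℕ) < n := by omega
    exact_mod_cast this
  have hn'0 : (0 : ℝ) < n' := by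
    have : (0 : ℕ) < n' := by omega
    exact_mod_cast this
  have hn'n' : (n' : ℝ) ≤ n := by exact_mod_cast hn'n
  obtain ⟨R, hR⟩ : ∃ R : ℝ, R = (1 / (n : ℝ)) ^ j := ⟨_, rfl⟩
  have hR0 : 0 < R := by rw [hR]; positivity
  obtain ⟨P, hP⟩ : ∃ P : ℝ, P = ps n x t j (ini (W 0) j) + R * t j (ini (W 0) j) := ⟨_, rfl⟩
  -- the description of the points
  have hpt : ∀ i, i < k → ∃ f : ℝ, 0 ≤ f ∧ f ≤ 1 / (n : ℝ) ∧
      pt n x t (W i) = P + R * (x (W i j) + f) := by
    intro i hi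
    have h1 := hTOP.near m n x t hn4 hX hT (W i) (j + 1)
    rw [hTOP.succ m n x t (W i) j, hsame i hi, ← hR, pow_succ, ← hR] at h1
    refine ⟨(pt n x t (W i) - P) / R - x (W i j), ?_, ?_, ?_⟩
    · have : x (W i j) ≤ (pt n x t (W i) - P) / R := by
        rw [le_div_iff₀ hR0, hP]
        nlinarith [h1.1]
      linarith
    · have : (pt n x t (W i) - P) / R ≤ x (W i j) + 1 / (n : ℝ) := by
        rw [div_le_iff₀ hR0, hP]
        nlinarith [h1.2]
      linarith
    · field_simp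
      ring
  obtain ⟨l', hl'⟩ : ∃ l' : ℝ, l' = l / R := ⟨_, rfl⟩
  have hl'0 : 0 < l' := by rw [hl']; positivity
  obtain ⟨a', ha'⟩ : ∃ a' : ℝ, a' = (a - P) / R := ⟨_, rfl⟩
  have hlR : l = R * l' := by rw [hl']; field_simp
  have haR : a = P + R * a' := by rw [ha']; field_simp; ring
  have key : ∀ i, i < k → ∃ f : ℝ, 0 ≤ f ∧ f ≤ 1 / (n : ℝ) ∧
      |x (W i j) + f - (a' + i * l')| < ε * l' := by
    intro i hi
    obtain ⟨f, hf0, hf1, hf⟩ := hpt i hi
    refine ⟨f, hf0, hf1, ?_⟩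
    have h1 := hW i hi
    rw [hf, haR, hlR] at h1
    have h2 : P + R * (x (W i j) + f) - (P + R * a' + i * (R * l')) =
        R * (x (W i j) + f - (a' + i * l')) := by ring
    rw [h2, abs_mul, abs_of_pos hR0] at h1
    have h3 : ε * (R * l') = R * (ε * l') := by ring
    rw [h3] at h1
    exact lt_of_mul_lt_mul_left h1 hR0.le
  rcases le_or_gt (1 / (8 * ε * n')) l' with hc | hc
  · obtain ⟨i, hi, hx⟩ := hav a' l' hc
    obtain ⟨f, hf0, hf1, hf⟩ := key i hi
    have h1 := hx (W i j)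
    rw [abs_lt] at hf
    rcases le_abs.1 h1 with h | h
    · linarith [hf.2]
    · linarith [hf.1]
  · obtain ⟨f, hf0, hf1, hf⟩ := key 0 (by omega)
    obtain ⟨g, hg0, hg1, hg⟩ := key i2 hi2
    have h1 := hsep (W i2 j) (W 0 j) hne2
    have h2 : (((k : ℝ) + 1) / (2 * ε) + 8) / (4 * n') = (k + 1) * (1 / (8 * ε * n')) + 2 * (1 / n') := by
      field_simp
      ring
    rw [h2] at h1
    have h3 : 1 / (n : ℝ) ≤ 1 / n' := one_div_le_one_div_of_le hn'0 hn'n'
    have h4 : (0 : ℝ) < 1 / n' := by positivity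
    have h5 : ((k : ℝ) + 1) * l' < (k + 1) * (1 / (8 * ε * n')) := by
      apply mul_lt_mul_of_pos_left hc
      positivity
    have h6 : (i2 : ℝ) * l' ≤ (k - 1) * l' := by
      apply mul_le_mul_of_nonneg_right _ hl'0.le
      have : (i2 : ℝ) + 1 ≤ k := by exact_mod_cast hi2
      linarith
    have h7 : 0 ≤ (i2 : ℝ) * l' := by positivity
    have h8 : ε * l' ≤ l' := by nlinarith
    rw [abs_lt] at hf hg
    push_cast at hf
    rcases le_abs.1 h1 with h | h
    · nlinarith [hf.1, hf.2, hg.1, hg.2]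
    · nlinarith [hf.1, hf.2, hg.1, hg.2]

end Pool.Agent.N46.FD
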