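import Mathlib

/-!
# Project FD (helper46): Fourier dimension of sets avoiding approximate arithmetic progressions

MP_295b98_an, Q1 (true). Definitions and exact statements of the independent parts.
-/

set_option autoImplicit false

namespace Pool.Agent.N46.FD

open MeasureTheory Set Filter Topology

noncomputable section

/-! ### Avoiding sets and their numbers of cells -/

/-- `E` `ε`-avoids the progressions with `k` terms -/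
def Av (k : ℕ) (ε : ℝ) (E : Set ℝ) : Prop :=
  ∀ a l : ℝ, 0 < l → ∃ i : ℕ, i < k ∧ ∀ x ∈ E, ε * l ≤ |x - (a + i * l)|

/-- the number of the intervals `[c/n, (c+1)/n)`, `0 ≤ c < n`, which meet `E` -/
def cnt (n : ℕ) (E : Set ℝ) : ℕ :=
  {c : ℕ | c < n ∧ ∃ x ∈ E, (c : ℝ) ≤ n * x ∧ n * x < c + 1}.ncard

/-- the maximal number of intervals which meet an avoiding set -/
def MM (k : ℕ) (ε : ℝ) (n : ℕ) : ℕ := sSup {m : ℕ | ∃ E : Set ℝ, Av k ε E ∧ cnt n E = m}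

/-- SUB: elementary properties, submultiplicativity -/
structure S_SUB : Prop where
  bd : ∀ (k : ℕ) (ε : ℝ), 3 ≤ k → 0 < ε → ε < 1 → ∀ n : ℕ, 1 ≤ n → 1 ≤ MM k ε n ∧ MM k ε n ≤ n
  le : ∀ (k : ℕ) (ε : ℝ) (n : ℕ) (E : Set ℝ), Av k ε E → cnt n E ≤ MM k ε n
  att : ∀ (k : ℕ) (ε : ℝ), 3 ≤ k → 0 < ε → ε < 1 → ∀ n : ℕ, ∃ E : Set ℝ, Av k ε E ∧ cnt n E = MM k ε n
  mul : ∀ (k : ℕ) (ε : ℝ), 3 ≤ k → 0 < ε → ε < 1 → ∀ n m : ℕ, 1 ≤ n → 1 ≤ m →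
    MM k ε (n * m) ≤ MM k ε n * MM k ε m

/-- COV: upper bound for the Hausdorff dimension -/
def S_COV : Prop := S_SUB → ∀ (k : ℕ) (ε : ℝ), 3 ≤ k → 0 < ε → ε < 1 → ∀ E : Set ℝ,
  Bornology.IsBounded E → Av k ε E → ∀ n : ℕ, 2 ≤ n →
    dimH E ≤ ENNReal.ofReal (Real.log (MM k ε n) / Real.log n)

/-- SEL: the selection of a finite set -/
def S_SEL : Prop := S_SUB → ∀ (k : ℕ) (ε : ℝ), 3 ≤ k → 0 < ε → ε < 1 → ∃ A : ℕ, 1 ≤ A ∧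
  ∀ n' q : ℕ, 1 ≤ n' → 1 ≤ q → A * MM k ε n' ≤ MM k ε (n' * q) →
  ∃ X : Finset ℝ, (∀ x ∈ X, 0 ≤ x ∧ x < 1) ∧ MM k ε (n' * q) ≤ A * q * X.card ∧
    (∀ x ∈ X, ∀ y ∈ X, x ≠ y → (((k : ℝ) + 1) / (2 * ε) + 8) / n' ≤ |x - y|) ∧
    ∀ a l : ℝ, 1 / (2 * ε * n') ≤ l → ∃ i : ℕ, i < k ∧ ∀ x ∈ X,
      ε * l + 4 / ((n' : ℝ) * q) ≤ |x - (a + i * l)|

/-- PAR: the choice of the scales -/
def S_PAR : Prop := ∀ (M : ℕ → ℕ) (A : ℕ) (σ δ : ℝ), (∀ n, 1 ≤ n → 1 ≤ M n ∧ M n ≤ n) →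
  (∀ n m, 1 ≤ n → 1 ≤ m → M (n * m) ≤ M n * M m) → 1 ≤ A → 0 < δ → δ < σ →
  (∀ n : ℕ, 2 ≤ n → σ * Real.log n ≤ Real.log (M n)) →
  (∀ τ : ℝ, σ < τ → ∃ n : ℕ, 2 ≤ n ∧ Real.log (M n) ≤ τ * Real.log n) →
  ∃ n' q : ℕ, 1 ≤ n' ∧ 1 ≤ q ∧ 4 ≤ n' * q ∧ A * M n' ≤ M (n' * q) ∧
    ∀ m : ℕ, M (n' * q) ≤ A * q * m → (σ - δ) * Real.log ((n' * q : ℕ) : ℝ) < Real.log m

/-! ### The Cantor sets -/

/-- the initial segment of length `j` of an infinite word -/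
def ini {m : ℕ} (w : ℕ → Fin m) (j : ℕ) : Fin j → Fin m := fun l => w l

/-- the initial segment of length `i` of a word of length `j` -/
def seg {m j : ℕ} (u : Fin j → Fin m) (i : Fin j) : Fin i → Fin m := fun l => u ⟨l, l.2.trans i.2⟩

/-- the position of the interval of the word `u` -/
def ps {m : ℕ} (n : ℕ) (x : Fin m → ℝ) (t : ∀ j : ℕ, (Fin j → Fin m) → ℝ) (j : ℕ)
    (u : Fin j → Fin m) : ℝ :=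
  ∑ i : Fin j, (1 / (n : ℝ)) ^ (i : ℕ) * (t i (seg u i) + x (u i))

/-- the point of the infinite word `w` -/
def pt {m : ℕ} (n : ℕ) (x : Fin m → ℝ) (t : ∀ j : ℕ, (Fin j → Fin m) → ℝ) (w : ℕ → Fin m) : ℝ :=
  ∑' i : ℕ, (1 / (n : ℝ)) ^ i * (t i (ini w i) + x (w i))

def Tb {m : ℕ} (t : ∀ j : ℕ, (Fin j → Fin m) → ℝ) : Prop := ∀ j u, 0 ≤ t j u ∧ t j u ≤ 1 / 2

def Xb {m : ℕ} (x : Fin m → ℝ) : Prop := ∀ c, 0 ≤ x c ∧ x c ≤ 1 / 4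

/-- TOP: the points -/
structure S_TOP : Prop where
  cont : ∀ (m n : ℕ) (x : Fin m → ℝ) (t : ∀ j : ℕ, (Fin j → Fin m) → ℝ), 4 ≤ n → Xb x → Tb t →
    Continuous (pt n x t)
  succ : ∀ (m n : ℕ) (x : Fin m → ℝ) (t : ∀ j : ℕ, (Fin j → Fin m) → ℝ) (w : ℕ → Fin m) (j : ℕ),
    ps n x t (j + 1) (ini w (j + 1)) =
      ps n x t j (ini w j) + (1 / (n : ℝ)) ^ j * (t j (ini w j) + x (w j))
  near : ∀ (m n : ℕ) (x : Fin m → ℝ) (t : ∀ j : ℕ, (Fin j → Fin m) → ℝ), 4 ≤ n → Xb x → Tb t →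
    ∀ (w : ℕ → Fin m) (j : ℕ), ps n x t j (ini w j) ≤ pt n x t w ∧
      pt n x t w ≤ ps n x t j (ini w j) + (1 / (n : ℝ)) ^ j
  bd : ∀ (m n : ℕ) (x : Fin m → ℝ) (t : ∀ j : ℕ, (Fin j → Fin m) → ℝ), 4 ≤ n → Xb x → Tb t →
    ∀ (j : ℕ) (u : Fin j → Fin m), 0 ≤ ps n x t j u ∧ ps n x t j u ≤ 1

/-- AVO: the Cantor set avoids progressions -/
def S_AVO : Prop := S_TOP → ∀ (k : ℕ) (ε : ℝ), 3 ≤ k → 0 < ε → ε < 1 → ∀ (m n n' : ℕ)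
  (x : Fin m → ℝ) (t : ∀ j : ℕ, (Fin j → Fin m) → ℝ), 1 ≤ n' → n' ≤ n → 4 ≤ n → Xb x → Tb t →
  (∀ c d, c ≠ d → (((k : ℝ) + 1) / (2 * ε) + 8) / (4 * n') ≤ |x c - x d|) →
  (∀ a l : ℝ, 1 / (8 * ε * n') ≤ l → ∃ i : ℕ, i < k ∧ ∀ c,
    ε * l + 1 / (n : ℝ) ≤ |x c - (a + i * l)|) →
  Av k ε (range (pt n x t))

/-! ### Fourier transforms -/

/-- `exp (-2 π i y)` -/
def ee (y : ℝ) : ℂ := Complex.exp (((-(2 * Real.pi * y) : ℝ) : ℂ) * Complex.I)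

/-- the Fourier transform of a measure -/
def ft (μ : Measure ℝ) (ξ : ℝ) : ℂ := ∫ x, ee (ξ * x) ∂μ

/-- the Fourier transform of the uniform distribution on `[0, 1/2]` -/
def uh (ξ : ℝ) : ℂ := 2 * ∫ t in (0 : ℝ)..(1 / 2), ee (ξ * t)

/-- UH: elementary bounds -/
structure S_UH : Prop where
  ee_norm : ∀ y, ‖ee y‖ = 1
  ee_add : ∀ y z, ee (y + z) = ee y * ee z
  ee_lip : ∀ y z, ‖ee y - ee z‖ ≤ 7 * |y - z|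
  one : ∀ ξ, ‖uh ξ‖ ≤ 1
  inv : ∀ ξ, ξ ≠ 0 → ‖uh ξ‖ ≤ 1 / |ξ|
  lip : ∀ ξ η, ‖uh ξ - uh η‖ ≤ 7 * |ξ - η|

/-- HOE: Hoeffding's inequality and a union bound -/
def S_HOE : Prop := ∀ (V ι : Type) [Fintype V] [Nonempty V] [Fintype ι] (c : ι → V → ℂ)
  (ξ : ι → ℝ) (y : ℝ), (∀ i v, ‖c i v‖ ≤ 1) → 0 ≤ y →
  4 * (Fintype.card ι : ℝ) * Real.exp (-(y ^ 2 / 32)) < 1 →
  ∃ t : V → ℝ, (∀ v, 0 ≤ t v ∧ t v ≤ 1 / 2) ∧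
    ∀ i, ‖∑ v, c i v * (ee (ξ i * t v) - uh (ξ i))‖ ≤ y * √(Fintype.card V : ℝ)

/-- the exponential sum of level `j` -/
def SS {m : ℕ} (n : ℕ) (x : Fin m → ℝ) (t : ∀ j : ℕ, (Fin j → Fin m) → ℝ) (j : ℕ) (ξ : ℝ) : ℂ :=
  (1 / (m : ℂ) ^ j) * ∑ u : Fin j → Fin m, ee (ξ * ps n x t j u)

/-- the defect of level `j` -/
def DD {m : ℕ} (n : ℕ) (x : Fin m → ℝ) (t : ∀ j : ℕ, (Fin j → Fin m) → ℝ) (j : ℕ) (ξ : ℝ) : ℂ :=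
  (1 / (m : ℂ) ^ j) * ∑ u : Fin j → Fin m, ee (ξ * ps n x t j u) *
    (ee (ξ * (1 / (n : ℝ)) ^ j * t j u) - uh (ξ * (1 / (n : ℝ)) ^ j))

/-- CON: the choice of the translations -/
def S_CON : Prop := S_UH → S_TOP → S_HOE → ∀ (m n : ℕ) (x : Fin m → ℝ), 1 ≤ m → 4 ≤ n → Xb x →
  ∃ t : ∀ j : ℕ, (Fin j → Fin m) → ℝ, Tb t ∧ ∃ C : ℝ, 0 ≤ C ∧ ∀ (j : ℕ) (ξ : ℝ),
    |ξ| ≤ (n : ℝ) ^ (4 * j) →
      ‖DD n x t j ξ‖ ≤ C * √((j : ℝ) + 1) * (1 / √(m : ℝ)) ^ j + C * (1 / (n : ℝ)) ^ (4 * j)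

/-- REC: the recursion -/
structure S_REC : Prop where
  zero : ∀ (m n : ℕ) (x : Fin m → ℝ) (t : ∀ j : ℕ, (Fin j → Fin m) → ℝ) (ξ : ℝ),
    ‖SS n x t 0 ξ‖ = 1
  two : ∀ (m n : ℕ) (x : Fin m → ℝ) (t : ∀ j : ℕ, (Fin j → Fin m) → ℝ), 1 ≤ m → ∀ (j : ℕ) (ξ : ℝ),
    ‖DD n x t j ξ‖ ≤ 2
  succ : ∀ (m n : ℕ) (x : Fin m → ℝ) (t : ∀ j : ℕ, (Fin j → Fin m) → ℝ), 1 ≤ m → ∀ (j : ℕ) (ξ : ℝ),
    ‖SS n x t (j + 1) ξ‖ ≤ ‖uh (ξ * (1 / (n : ℝ)) ^ j)‖ * ‖SS n x t j ξ‖ + ‖DD n x t j ξ‖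

/-- LIM: the measure on the Cantor set -/
def S_LIM : Prop := S_UH → S_TOP → ∀ (m n : ℕ) (x : Fin m → ℝ)
  (t : ∀ j : ℕ, (Fin j → Fin m) → ℝ), 1 ≤ m → 4 ≤ n → Xb x → Tb t →
  ∃ μ : Measure ℝ, IsProbabilityMeasure μ ∧ μ (range (pt n x t)) = 1 ∧
    ∀ ξ, Tendsto (fun j => SS n x t j ξ) atTop (𝓝 (ft μ ξ))

/-- DEC: the decay, real numbers only -/
def S_DEC : Prop := ∀ (m n : ℕ) (C s : ℝ), 1 ≤ m → 4 ≤ n → 0 ≤ C → 0 ≤ s → s ≤ 1 →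
  s * Real.log n < Real.log m →
  ∃ C' : ℝ, ∀ ξ : ℝ, 1 ≤ |ξ| → ∀ S D U : ℕ → ℝ, (∀ j, 0 ≤ S j) → (∀ j, 0 ≤ D j) →
    (∀ j, 0 ≤ U j) → S 0 ≤ 1 → (∀ j, U j ≤ 1) → (∀ j, U j ≤ (n : ℝ) ^ j / |ξ|) → (∀ j, D j ≤ 2) →
    (∀ j : ℕ, |ξ| ≤ (n : ℝ) ^ (4 * j) →
      D j ≤ C * √((j : ℝ) + 1) * (1 / √(m : ℝ)) ^ j + C * (1 / (n : ℝ)) ^ (4 * j)) →
    (∀ j, S (j + 1) ≤ U j * S j + D j) →
    ∀ L : ℝ, Tendsto S atTop (𝓝 L) → L ≤ C' * |ξ| ^ (-s / 2)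

/-! ### Fourier dimension and Hausdorff dimension -/

/-- ENE: the energy -/
def S_ENE : Prop := S_UH → ∀ (μ : Measure ℝ) [IsProbabilityMeasure μ] (s t C : ℝ), 0 < t → t < s →
  s ≤ 1 → (∀ ξ : ℝ, ξ ≠ 0 → ‖ft μ ξ‖ ≤ C * |ξ| ^ (-s / 2)) →
  ∃ C' : ℝ, ∀ r : ℝ, 0 < r → r ≤ 1 →
    (μ.prod μ).real {p : ℝ × ℝ | |p.1 - p.2| ≤ r} ≤ C' * r ^ t

/-- MAS: mass distribution -/
def S_MAS : Prop := ∀ (μ : Measure ℝ) [IsProbabilityMeasure μ] (t C' : ℝ), 0 < t →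
  (∀ r : ℝ, 0 < r → r ≤ 1 → (μ.prod μ).real {p : ℝ × ℝ | |p.1 - p.2| ≤ r} ≤ C' * r ^ t) →
  ∀ E : Set ℝ, MeasurableSet E → μ E = 1 → ENNReal.ofReal t ≤ dimH E

end

end Pool.Agent.N46.FD
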