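import Mathlib
import Pool.Agent.N46.FD.Stm

/-! # Project FD: assembly (helper46) -/

set_option autoImplicit false

namespace Pool.Agent.N46.FD

open MeasureTheory Set Filter Topology

noncomputable section

/-- the Fourier dimension, with the conventions of this project -/
def dF (E : Set ℝ) : ENNReal :=
  ⨆ (s : ℝ) (_ : 0 ≤ s ∧ s ≤ 1 ∧ ∃ μ : Measure ℝ, IsProbabilityMeasure μ ∧ μ E = 1 ∧
    ∃ C : ℝ, ∀ ξ : ℝ, ξ ≠ 0 → ‖ft μ ξ‖ ≤ C * |ξ| ^ (-s / 2)), ENNReal.ofReal s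

theorem Av.mono {k : ℕ} {ε : ℝ} {E F : Set ℝ} (h : Av k ε E) (hF : F ⊆ E) : Av k ε F := by
  intro a l hl
  obtain ⟨i, hi, h1⟩ := h a l hl
  exact ⟨i, hi, fun x hx => h1 x (hF hx)⟩

namespace Asm

/-- a Fourier transform has norm at most one -/
theorem ft_le (hU : S_UH) (μ : Measure ℝ) [IsProbabilityMeasure μ] (ξ : ℝ) : ‖ft μ ξ‖ ≤ 1 := by
  unfold ft
  refine (norm_integral_le_of_norm_le_const (C := 1) ?_).trans ?_
  · exact Eventually.of_forall fun x => (hU.ee_norm _).le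
  · simp

theorem le_of_ofReal (s : ℝ) (c : ENNReal) (h : ∀ t : ℝ, 0 < t → t < s → ENNReal.ofReal t ≤ c) :
    ENNReal.ofReal s ≤ c := by
  rcases le_or_gt s 0 with hs | hs
  · rw [ENNReal.ofReal_of_nonpos hs]
    exact zero_le
  · refine le_of_forall_lt fun b hb => ?_
    have hbt : b ≠ ⊤ := ne_top_of_lt hb
    have h1 : b.toReal < s := by
      rwa [← ENNReal.ofReal_toReal hbt, ENNReal.ofReal_lt_ofReal_iff hs] at hb
    have h0 : 0 ≤ b.toReal := ENNReal.toReal_nonneg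
    have h2 := h ((b.toReal + s) / 2) (by linarith) (by linarith)
    refine lt_of_lt_of_le ?_ h2
    rw [← ENNReal.ofReal_toReal hbt, ENNReal.ofReal_lt_ofReal_iff (by
      rw [ENNReal.toReal_ofReal h0]; linarith), ENNReal.toReal_ofReal h0]
    linarith

/-- the Fourier dimension is at most the Hausdorff dimension -/
theorem dF_le (hU : S_UH) (hE : S_ENE) (hM : S_MAS) (E : Set ℝ) (hEm : MeasurableSet E) :
    dF E ≤ dimH E := by
  refine iSup₂_le fun s hs => ?_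
  obtain ⟨hs0, hs1, μ, hμ, hμE, C, hC⟩ := hs
  refine le_of_ofReal s _ fun t ht0 hts => ?_
  obtain ⟨C', hC'⟩ := hE hU μ s t C ht0 hts hs1 hC
  exact hM μ t C' ht0 hC' E hEm hμE

/-- Hausdorff dimension of unbounded sets -/
theorem dimH_le (k : ℕ) (ε : ℝ) (E : Set ℝ) (hE : Av k ε E) :
    dimH E ≤ ⨆ (F : Set ℝ) (_ : Bornology.IsBounded F ∧ Av k ε F), dimH F := by
  have h1 : E = ⋃ N : ℕ, E ∩ Icc (-(N : ℝ)) N := by
    ext x
    simp only [mem_iUnion, mem_inter_iff, mem_Icc]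
    constructor
    · intro hx
      obtain ⟨N, hN⟩ := exists_nat_ge |x|
      exact ⟨N, hx, by linarith [neg_abs_le x], by linarith [le_abs_self x]⟩
    · rintro ⟨N, hx, -⟩
      exact hx
  rw [h1, dimH_iUnion]
  refine iSup_le fun N => ?_
  exact le_iSup₂_of_le (E ∩ Icc (-(N : ℝ)) N)
    ⟨(Metric.isBounded_Icc _ _).subset inter_subset_right, hE.mono inter_subset_left⟩ le_rfl

/-- the exponent -/
def sg (k : ℕ) (ε : ℝ) : ℝ :=
  sInf {r : ℝ | ∃ n : ℕ, 2 ≤ n ∧ r = Real.log (MM k ε n) / Real.log n}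

theorem sg_bdd (hS : S_SUB) (k : ℕ) (ε : ℝ) (hk : 3 ≤ k) (h0 : 0 < ε) (h1 : ε < 1) :
    ∀ r ∈ {r : ℝ | ∃ n : ℕ, 2 ≤ n ∧ r = Real.log (MM k ε n) / Real.log n}, 0 ≤ r ∧ r ≤ 1 := by
  rintro r ⟨n, hn, rfl⟩
  obtain ⟨h2, h3⟩ := hS.bd k ε hk h0 h1 n (by omega)
  have h4 : 0 < Real.log n := Real.log_pos (by exact_mod_cast hn)
  have h5 : 0 ≤ Real.log (MM k ε n) := Real.log_nonneg (by exact_mod_cast h2)
  refine ⟨by positivity, ?_⟩
  rw [div_le_one h4]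
  exact Real.log_le_log (by exact_mod_cast (by omega : 0 < MM k ε n)) (by exact_mod_cast h3)

theorem sg_le (hS : S_SUB) (k : ℕ) (ε : ℝ) (hk : 3 ≤ k) (h0 : 0 < ε) (h1 : ε < 1) (n : ℕ)
    (hn : 2 ≤ n) : sg k ε ≤ Real.log (MM k ε n) / Real.log n :=
  csInf_le ⟨0, fun r hr => (sg_bdd hS k ε hk h0 h1 r hr).1⟩ ⟨n, hn, rfl⟩

theorem sg_nonneg (hS : S_SUB) (k : ℕ) (ε : ℝ) (hk : 3 ≤ k) (h0 : 0 < ε) (h1 : ε < 1) :
    0 ≤ sg k ε :=
  le_csInf ⟨_, 2, le_rfl, rfl⟩ fun r hr => (sg_bdd hS k ε hk h0 h1 r hr).1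

theorem sg_le_one (hS : S_SUB) (k : ℕ) (ε : ℝ) (hk : 3 ≤ k) (h0 : 0 < ε) (h1 : ε < 1) :
    sg k ε ≤ 1 :=
  (sg_le hS k ε hk h0 h1 2 le_rfl).trans (sg_bdd hS k ε hk h0 h1 _ ⟨2, le_rfl, rfl⟩).2

theorem sg_lt (hS : S_SUB) (k : ℕ) (ε : ℝ) (hk : 3 ≤ k) (h0 : 0 < ε) (h1 : ε < 1) (τ : ℝ)
    (hτ : sg k ε < τ) : ∃ n : ℕ, 2 ≤ n ∧ Real.log (MM k ε n) ≤ τ * Real.log n := by
  have hne : {r : ℝ | ∃ n : ℕ, 2 ≤ n ∧ r = Real.log (MM k ε n) / Real.log n}.Nonempty :=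
    ⟨_, 2, le_rfl, rfl⟩
  obtain ⟨r, ⟨n, hn, rfl⟩, hr⟩ := exists_lt_of_csInf_lt hne hτ
  have h4 : 0 < Real.log n := Real.log_pos (by exact_mod_cast hn)
  exact ⟨n, hn, ((div_lt_iff₀ h4).1 hr).le⟩

/-- the Hausdorff dimensions are at most `sg` -/
theorem dimH_sg (hS : S_SUB) (hC : S_COV) (k : ℕ) (ε : ℝ) (hk : 3 ≤ k) (h0 : 0 < ε) (h1 : ε < 1)
    (E : Set ℝ) (hb : Bornology.IsBounded E) (hE : Av k ε E) :
    dimH E ≤ ENNReal.ofReal (sg k ε) := by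
  refine ENNReal.le_of_forall_pos_le_add fun δ hδ _ => ?_
  obtain ⟨n, hn, h2⟩ := sg_lt hS k ε hk h0 h1 (sg k ε + δ) (by
    have : (0 : ℝ) < δ := hδ
    linarith)
  refine (hC hS k ε hk h0 h1 E hb hE n hn).trans ?_
  have h4 : 0 < Real.log n := Real.log_pos (by exact_mod_cast hn)
  refine (ENNReal.ofReal_le_ofReal ((div_le_iff₀ h4).2 h2)).trans ?_
  refine ENNReal.ofReal_add_le.trans ?_
  rw [ENNReal.ofReal_coe_nnreal]

/-- the Cantor sets -/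
theorem cantor (hU : S_UH) (hT : S_TOP) (hH : S_HOE) (hCo : S_CON) (hR : S_REC) (hL : S_LIM)
    (hD : S_DEC) (m n : ℕ) (x : Fin m → ℝ) (s : ℝ) (hm : 1 ≤ m) (hn : 4 ≤ n) (hx : Xb x)
    (hs0 : 0 ≤ s) (hs1 : s ≤ 1) (hs : s * Real.log n < Real.log m) :
    ∃ t : ∀ j : ℕ, (Fin j → Fin m) → ℝ, Tb t ∧ ENNReal.ofReal s ≤ dF (range (pt n x t)) := by
  obtain ⟨t, ht, C, hC0, hC⟩ := hCo hU hT hH m n x hm hn hx
  obtain ⟨μ, hμ, hμE, hlim⟩ := hL hU hT m n x t hm hn hx ht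
  obtain ⟨C', hC'⟩ := hD m n C s hm hn hC0 hs0 hs1 hs
  refine ⟨t, ht, ?_⟩
  refine le_iSup₂_of_le s ⟨hs0, hs1, μ, hμ, hμE, max C' 1, ?_⟩ le_rfl
  intro ξ hξ
  have hξ' : 0 < |ξ| := abs_pos.2 hξ
  have hp : 0 < |ξ| ^ (-s / 2) := Real.rpow_pos_of_pos hξ' _
  rcases le_or_gt 1 |ξ| with h1 | h1
  · have h2 := hC' ξ h1 (fun j => ‖SS n x t j ξ‖) (fun j => ‖DD n x t j ξ‖)
      (fun j => ‖uh (ξ * (1 / (n : ℝ)) ^ j)‖) (fun j => norm_nonneg _) (fun j => norm_nonneg _)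
      (fun j => norm_nonneg _) (hR.zero m n x t ξ).le (fun j => hU.one _) (fun j => ?_)
      (fun j => hR.two m n x t hm j ξ) (fun j hj => hC j ξ hj) (fun j => hR.succ m n x t hm j ξ)
      ‖ft μ ξ‖ ((hlim ξ).norm)
    · refine h2.trans ?_
      exact mul_le_mul_of_nonneg_right (le_max_left _ _) hp.le
    · have hn0 : (0 : ℝ) < n := by exact_mod_cast (by omega : 0 < n)
      have h3 := hU.inv (ξ * (1 / (n : ℝ)) ^ j) (mul_ne_zero hξ (by positivity))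
      refine h3.trans (le_of_eq ?_)
      rw [abs_mul, abs_of_pos (by positivity : (0 : ℝ) < (1 / (n : ℝ)) ^ j), one_div, one_div,
        inv_pow, mul_inv, inv_inv, mul_comm]
      rfl
  · refine (ft_le hU μ ξ).trans ?_
    have h2 : (1 : ℝ) ≤ |ξ| ^ (-s / 2) :=
      Real.one_le_rpow_of_pos_of_le_one_of_nonpos hξ' h1.le (by linarith)
    calc (1 : ℝ) ≤ 1 * |ξ| ^ (-s / 2) := by linarith
      _ ≤ max C' 1 * |ξ| ^ (-s / 2) := mul_le_mul_of_nonneg_right (le_max_right _ _) hp.le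

/-- lower bound for the Fourier dimensions -/
theorem lower (hS : S_SUB) (hSel : S_SEL) (hP : S_PAR) (hA : S_AVO) (hU : S_UH) (hT : S_TOP)
    (hH : S_HOE) (hCo : S_CON) (hR : S_REC) (hL : S_LIM) (hD : S_DEC) (k : ℕ) (ε : ℝ) (hk : 3 ≤ k)
    (h0 : 0 < ε) (h1 : ε < 1) :
    ENNReal.ofReal (sg k ε) ≤ ⨆ (E : Set ℝ) (_ : IsCompact E ∧ Av k ε E), dF E := by
  refine le_of_ofReal _ _ fun s hs0 hs => ?_
  obtain ⟨A, hA1, hsel⟩ := hSel hS k ε hk h0 h1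
  obtain ⟨n', q, hn', hq, hn4, hAM, hpar⟩ := hP (MM k ε) A (sg k ε) (sg k ε - s)
    (fun n hn => hS.bd k ε hk h0 h1 n hn) (fun n m hn hm => hS.mul k ε hk h0 h1 n m hn hm) hA1
    (by linarith) (by linarith)
    (fun n hn => (le_div_iff₀ (Real.log_pos (by exact_mod_cast hn))).1 (sg_le hS k ε hk h0 h1 n hn))
    (fun τ hτ => sg_lt hS k ε hk h0 h1 τ hτ)
  obtain ⟨X, hX0, hXc, hXs, hXa⟩ := hsel n' q hn' hq hAM
  obtain ⟨m, hm⟩ : ∃ m, m = X.card := ⟨_, rfl⟩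
  have hlog := hpar m (by rw [hm]; exact hXc)
  rw [sub_sub_cancel] at hlog
  have hn1 : 1 ≤ n' * q := by omega
  have hm1 : 1 ≤ m := by
    by_contra hcon
    have hm0 : X.card = 0 := by omega
    rw [hm0, mul_zero] at hXc
    have := (hS.bd k ε hk h0 h1 (n' * q) hn1).1
    omega
  let eX : Fin m ≃ X := (Fintype.equivFinOfCardEq (by rw [Fintype.card_coe, hm])).symm
  let x : Fin m → ℝ := fun c => (eX c : ℝ) / 4
  have hx : Xb x := by
    intro c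
    obtain ⟨h2, h3⟩ := hX0 _ (eX c).2
    exact ⟨by show 0 ≤ (eX c : ℝ) / 4; linarith, by show (eX c : ℝ) / 4 ≤ 1 / 4; linarith⟩
  obtain ⟨t, ht, hdim⟩ := cantor hU hT hH hCo hR hL hD m (n' * q) x s hm1 hn4 hx hs0.le
    (hs.le.trans (sg_le_one hS k ε hk h0 h1)) hlog
  have hn'0 : (0 : ℝ) < n' := by exact_mod_cast (by omega : 0 < n')
  have hq0 : (0 : ℝ) < q := by exact_mod_cast (by omega : 0 < q)
  have hav : Av k ε (range (pt (n' * q) x t)) := by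
    refine hA hT k ε hk h0 h1 m (n' * q) n' x t hn' (Nat.le_mul_of_pos_right _ (by omega)) hn4 hx ht
      ?_ ?_
    · intro c d hcd
      have h2 := hXs _ (eX c).2 _ (eX d).2 (fun h => hcd (eX.injective (Subtype.ext h)))
      have h3 : |x c - x d| = |(eX c : ℝ) - (eX d : ℝ)| / 4 := by
        show |(eX c : ℝ) / 4 - (eX d : ℝ) / 4| = _
        rw [← sub_div, abs_div, abs_of_pos (by norm_num : (0 : ℝ) < 4)]
      rw [h3]
      have h4 : (((k : ℝ) + 1) / (2 * ε) + 8) / (4 * n') =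
          ((((k : ℝ) + 1) / (2 * ε) + 8) / n') / 4 := by
        field_simp
      rw [h4]
      linarith
    · intro a l hl
      obtain ⟨i, hi, h2⟩ := hXa (4 * a) (4 * l) (by
        have h3 : 1 / (2 * ε * (n' : ℝ)) = 4 * (1 / (8 * ε * n')) := by
          field_simp
          norm_num
        rw [h3]
        linarith)
      refine ⟨i, hi, fun c => ?_⟩
      have h3 := h2 _ (eX c).2
      have h4 : |x c - (a + i * l)| = |(eX c : ℝ) - (4 * a + i * (4 * l))| / 4 := by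
        have h5 : x c - (a + i * l) = ((eX c : ℝ) - (4 * a + i * (4 * l))) / 4 := by
          show (eX c : ℝ) / 4 - (a + i * l) = _
          ring
        rw [h5, abs_div, abs_of_pos (by norm_num : (0 : ℝ) < 4)]
      rw [h4]
      have h5 : 1 / (((n' * q : ℕ) : ℝ)) = (4 / ((n' : ℝ) * q)) / 4 := by
        push_cast
        field_simp
      rw [h5]
      linarith
  have hcomp : IsCompact (range (pt (n' * q) x t)) :=
    isCompact_range (hT.cont m (n' * q) x t hn4 hx ht)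
  exact hdim.trans (le_iSup₂_of_le (range (pt (n' * q) x t)) ⟨hcomp, hav⟩ le_rfl)

/-- the theorem, with the conventions of this project -/
theorem main (hS : S_SUB) (hC : S_COV) (hSel : S_SEL) (hP : S_PAR) (hA : S_AVO) (hU : S_UH)
    (hT : S_TOP) (hH : S_HOE) (hCo : S_CON) (hR : S_REC) (hL : S_LIM) (hD : S_DEC) (hE : S_ENE)
    (hM : S_MAS) (k : ℕ) (ε : ℝ) (hk : 3 ≤ k) (h0 : 0 < ε) (h1 : ε < 1) :
    (⨆ (E : Set ℝ) (_ : Bornology.IsBounded E ∧ Av k ε E), dimH E) =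
      (⨆ (E : Set ℝ) (_ : MeasurableSet E ∧ Av k ε E), dF E) ∧
    (⨆ (E : Set ℝ) (_ : Bornology.IsBounded E ∧ Av k ε E), dimH E) =
      (⨆ (E : Set ℝ) (_ : IsCompact E ∧ Av k ε E), dF E) ∧
    (⨆ (E : Set ℝ) (_ : Bornology.IsBounded E ∧ Av k ε E), dimH E) = ENNReal.ofReal (sg k ε) := by
  have h2 : (⨆ (E : Set ℝ) (_ : Bornology.IsBounded E ∧ Av k ε E), dimH E) ≤
      ENNReal.ofReal (sg k ε) :=
    iSup₂_le fun E hE => dimH_sg hS hC k ε hk h0 h1 E hE.1 hE.2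
  have h3 := lower hS hSel hP hA hU hT hH hCo hR hL hD k ε hk h0 h1
  have h4 : (⨆ (E : Set ℝ) (_ : IsCompact E ∧ Av k ε E), dF E) ≤
      ⨆ (E : Set ℝ) (_ : MeasurableSet E ∧ Av k ε E), dF E :=
    iSup₂_le fun E hE => le_iSup₂_of_le E ⟨hE.1.measurableSet, hE.2⟩ le_rfl
  have h5 : (⨆ (E : Set ℝ) (_ : MeasurableSet E ∧ Av k ε E), dF E) ≤
      ⨆ (E : Set ℝ) (_ : Bornology.IsBounded E ∧ Av k ε E), dimH E :=
    iSup₂_le fun E hE' => (dF_le hU hE hM E hE'.1).trans (dimH_le k ε E hE'.2)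
  exact ⟨le_antisymm (h2.trans (h3.trans h4)) h5, le_antisymm (h2.trans h3) (h4.trans h5),
    le_antisymm h2 (h3.trans (h4.trans h5))⟩

end Asm

end

end Pool.Agent.N46.FD
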