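import Pool.Agent.N46.FD.Stm

/-!
# Project FD (helper46), leaf COV: Hausdorff dimension of an avoiding set (by helper565)
-/

set_option autoImplicit false

namespace Pool.Agent.N46.FD

open MeasureTheory Set Filter Topology

noncomputable section

namespace COV

/-- the hit cells -/
def hits (n : ℕ) (F : Set ℝ) : Set ℕ := {c : ℕ | c < n ∧ ∃ x ∈ F, (c : ℝ) ≤ n * x ∧ n * x < c + 1}

theorem hits_finite (n : ℕ) (F : Set ℝ) : (hits n F).Finite :=
  (Set.finite_Iio n).subset fun _ hc => hc.1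

instance (n : ℕ) (F : Set ℝ) : Fintype (hits n F) := (hits_finite n F).fintype

theorem card_hits (n : ℕ) (F : Set ℝ) : Fintype.card (hits n F) = cnt n F := by
  rw [← Nat.card_eq_fintype_card, Nat.card_coe_set_eq]
  rfl

theorem MM_pow (hS : S_SUB) {k : ℕ} {ε : ℝ} (hk : 3 ≤ k) (h0 : 0 < ε) (h1 : ε < 1) {n : ℕ}
    (hn : 2 ≤ n) (i : ℕ) : MM k ε (n ^ i) ≤ MM k ε n ^ i := by
  induction i with
  | zero => simpa using (hS.bd k ε hk h0 h1 1 le_rfl).2
  | succ i ih =>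
    rw [pow_succ, pow_succ]
    exact (hS.mul k ε hk h0 h1 _ _ (Nat.one_le_pow _ _ (by omega)) (by omega)).trans
      (Nat.mul_le_mul_right _ ih)

/-- a set in `[0, 1)` -/
theorem unit (hS : S_SUB) {k : ℕ} {ε : ℝ} (hk : 3 ≤ k) (h0 : 0 < ε) (h1 : ε < 1) {F : Set ℝ}
    (hF : ∀ x ∈ F, 0 ≤ x ∧ x < 1) (hA : Av k ε F) {n : ℕ} (hn : 2 ≤ n) :
    dimH F ≤ ENNReal.ofReal (Real.log (MM k ε n) / Real.log n) := by
  by_contra hcon
  rw [not_le] at hcon
  obtain ⟨s, hs1, hs2⟩ := ENNReal.lt_iff_exists_nnreal_btwn.1 hcon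
  have hn1 : (1 : ℝ) < n := by exact_mod_cast (by omega : 1 < n)
  have hn0 : (0 : ℝ) < n := by linarith
  have hlog : 0 < Real.log n := Real.log_pos hn1
  have hM1 := (hS.bd k ε hk h0 h1 n (by omega)).1
  have hM0 : (0 : ℝ) < MM k ε n := by exact_mod_cast hM1
  have hs3 : Real.log (MM k ε n) / Real.log n < s := by
    rw [← ENNReal.ofReal_coe_nnreal] at hs1
    exact (ENNReal.ofReal_lt_ofReal_iff_of_nonneg
      (div_nonneg (Real.log_nonneg (by exact_mod_cast hM1)) hlog.le)).1 hs1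
  have hs4 : (MM k ε n : ℝ) < (n : ℝ) ^ (s : ℝ) := by
    rw [div_lt_iff₀ hlog] at hs3
    rw [← Real.log_lt_log_iff hM0 (Real.rpow_pos_of_pos hn0 _), Real.log_rpow hn0]
    exact hs3
  have hns : (0 : ℝ) < (n : ℝ) ^ (s : ℝ) := Real.rpow_pos_of_pos hn0 _
  set ρ : ℝ := MM k ε n / (n : ℝ) ^ (s : ℝ) with hρ
  have hρ0 : 0 ≤ ρ := by positivity
  have hρ1 : ρ < 1 := (div_lt_one hns).2 hs4
  have hmu : Measure.hausdorffMeasure (s : ℝ) F ≤ 0 := by
    have hr : Tendsto (fun i : ℕ => ENNReal.ofReal ((1 / (n : ℝ)) ^ i)) atTop (𝓝 0) := by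
      rw [← ENNReal.ofReal_zero]
      exact ENNReal.tendsto_ofReal (tendsto_pow_atTop_nhds_zero_of_lt_one (by positivity)
        ((div_lt_one hn0).2 hn1))
    have hdiam : ∀ (i : ℕ) (c : ℕ), Metric.ediam (Icc ((c : ℝ) / (n : ℝ) ^ i)
        (((c : ℝ) + 1) / (n : ℝ) ^ i)) = ENNReal.ofReal ((1 / (n : ℝ)) ^ i) := by
      intro i c
      rw [Real.ediam_Icc, div_sub_div_same, add_sub_cancel_left, one_div_pow]
    have h := Measure.hausdorffMeasure_le_liminf_sum (ι := fun i : ℕ => hits (n ^ i) F) (s : ℝ) F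
      (fun i : ℕ => ENNReal.ofReal ((1 / (n : ℝ)) ^ i)) hr
      (fun i c => Icc ((c : ℕ) / (n : ℝ) ^ i) (((c : ℕ) + 1) / (n : ℝ) ^ i))
      (Eventually.of_forall fun i c => (hdiam i c).le)
      (Eventually.of_forall fun i x hx => by
        have hni : (0 : ℝ) < (n : ℝ) ^ i := by positivity
        have hx1 := hF x hx
        have hfl : 0 ≤ (n : ℝ) ^ i * x := mul_nonneg hni.le hx1.1
        have hc1 := Nat.floor_le hfl
        have hc2 := Nat.lt_floor_add_one ((n : ℝ) ^ i * x)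
        have hc3 : ⌊(n : ℝ) ^ i * x⌋₊ < n ^ i := by
          have : (⌊(n : ℝ) ^ i * x⌋₊ : ℝ) < ((n ^ i : ℕ) : ℝ) := by
            push_cast
            calc (⌊(n : ℝ) ^ i * x⌋₊ : ℝ) ≤ (n : ℝ) ^ i * x := hc1
              _ < (n : ℝ) ^ i * 1 := mul_lt_mul_of_pos_left hx1.2 hni
              _ = (n : ℝ) ^ i := mul_one _
          exact_mod_cast this
        rw [mem_iUnion]
        refine ⟨⟨⌊(n : ℝ) ^ i * x⌋₊, hc3, x, hx, ?_, ?_⟩, ?_, ?_⟩
        · push_cast
          exact hc1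
        · push_cast
          exact hc2
        · rw [div_le_iff₀ hni, mul_comm x]
          exact hc1
        · rw [le_div_iff₀ hni, mul_comm x]
          exact hc2.le)
    refine h.trans ?_
    have hb : ∀ i : ℕ, ∑ c : hits (n ^ i) F, Metric.ediam (Icc (((c : ℕ) : ℝ) / (n : ℝ) ^ i)
        ((((c : ℕ) : ℝ) + 1) / (n : ℝ) ^ i)) ^ (s : ℝ) ≤ ENNReal.ofReal (ρ ^ i) := by
      intro i
      rw [Finset.sum_congr rfl fun c _ => by rw [hdiam i c], Finset.sum_const, Finset.card_univ,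
        card_hits, nsmul_eq_mul, ENNReal.ofReal_rpow_of_nonneg (by positivity) (NNReal.coe_nonneg s),
        ← ENNReal.ofReal_natCast, ← ENNReal.ofReal_mul (Nat.cast_nonneg _)]
      apply ENNReal.ofReal_le_ofReal
      have h2 : (cnt (n ^ i) F : ℝ) ≤ (MM k ε n : ℝ) ^ i := by
        exact_mod_cast (hS.le k ε (n ^ i) F hA).trans (MM_pow hS hk h0 h1 hn i)
      have h3 : ((1 / (n : ℝ)) ^ i) ^ (s : ℝ) = (1 / (n : ℝ) ^ (s : ℝ)) ^ i := by
        rw [← Real.rpow_natCast, ← Real.rpow_mul (by positivity), mul_comm, Real.rpow_mul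
          (by positivity), Real.rpow_natCast, Real.div_rpow zero_le_one hn0.le, Real.one_rpow]
      rw [h3]
      calc (cnt (n ^ i) F : ℝ) * (1 / (n : ℝ) ^ (s : ℝ)) ^ i ≤
            (MM k ε n : ℝ) ^ i * (1 / (n : ℝ) ^ (s : ℝ)) ^ i :=
            mul_le_mul_of_nonneg_right h2 (by positivity)
        _ = ρ ^ i := by rw [← mul_pow, hρ, mul_one_div]
    have hlim : Tendsto (fun i : ℕ => ENNReal.ofReal (ρ ^ i)) atTop (𝓝 0) := by
      rw [← ENNReal.ofReal_zero]
      exact ENNReal.tendsto_ofReal (tendsto_pow_atTop_nhds_zero_of_lt_one hρ0 hρ1)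
    rw [← hlim.liminf_eq]
    exact liminf_le_liminf (Eventually.of_forall hb)
  have h5 : dimH F ≤ s := dimH_le_of_hausdorffMeasure_ne_top (by
    rw [le_zero_iff.1 hmu]
    exact ENNReal.zero_ne_top)
  exact absurd h5 (not_le.2 hs2)

end COV

/-- **COV** -/
theorem t_COV : S_COV := by
  intro hS k ε hk h0 h1 E _ hA n hn
  have hE : E ⊆ ⋃ z : ℤ, (E ∩ Ico (z : ℝ) (z + 1)) := by
    intro x hx
    rw [mem_iUnion]
    exact ⟨⌊x⌋, hx, Int.floor_le x, Int.lt_floor_add_one x⟩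
  refine (dimH_mono hE).trans ?_
  rw [dimH_iUnion]
  refine iSup_le fun z => ?_
  have hiso : Isometry (fun x : ℝ => x - z) := by
    refine Isometry.of_dist_eq fun x y => ?_
    simp [Real.dist_eq]
  rw [← hiso.dimH_image]
  refine COV.unit hS hk h0 h1 ?_ ?_ hn
  · rintro _ ⟨x, ⟨_, hx1, hx2⟩, rfl⟩
    constructor
    · simpa using hx1
    · simp only
      linarith
  · intro a l hl
    obtain ⟨i, hi, h⟩ := hA (a + z) l hl
    refine ⟨i, hi, ?_⟩
    rintro _ ⟨x, ⟨hx, _⟩, rfl⟩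
    have h2 := h x hx
    have e : x - (z : ℝ) - (a + i * l) = x - (a + z + i * l) := by ring
    rw [e]
    exact h2

end

end Pool.Agent.N46.FD
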