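import Pool.Agent.N46.FD.Stm

set_option autoImplicit false

namespace Pool.Agent.N46.FD

open MeasureTheory Set Filter Topology

noncomputable section

namespace CON

/-- the bound for the exponential function -/
theorem expb (n j : ℕ) (hn : 4 ≤ n) :
    4 * ((2 * n ^ (8 * j) + 1 : ℕ) : ℝ) *
      Real.exp (-((8 * Real.log n + 3) * ((j : ℝ) + 1))) < 1 := by
  have hn0 : (0 : ℝ) < n := by exact_mod_cast (by omega : 0 < n)
  have hn1 : (1 : ℝ) ≤ n := by exact_mod_cast (by omega : 1 ≤ n)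
  have hl : 0 ≤ Real.log n := Real.log_nonneg hn1
  have h1 : ((n : ℝ)) ^ (8 * j) = Real.exp (8 * j * Real.log n) := by
    rw [← Real.exp_log (pow_pos hn0 (8 * j)), Real.log_pow]
    push_cast
    rfl
  have h2 : (1 : ℝ) ≤ (n : ℝ) ^ (8 * j) := one_le_pow₀ hn1
  have h3 : 4 * ((2 * n ^ (8 * j) + 1 : ℕ) : ℝ) ≤ 12 * (n : ℝ) ^ (8 * j) := by
    push_cast
    linarith
  have h4 : (n : ℝ) ^ (8 * j) * Real.exp (-((8 * Real.log n + 3) * ((j : ℝ) + 1))) ≤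
      Real.exp (-3) := by
    rw [h1, ← Real.exp_add]
    apply Real.exp_le_exp.2
    have h5 : (0 : ℝ) ≤ j := Nat.cast_nonneg j
    nlinarith
  have h5 : 12 * Real.exp (-3) < 1 := by
    have h6 : (2.7 : ℝ) < Real.exp 1 := by linarith [Real.exp_one_gt_d9]
    have h7 : Real.exp 3 = Real.exp 1 ^ 3 := by
      rw [← Real.exp_nat_mul]
      norm_num
    have h8 : (12 : ℝ) < Real.exp 3 := by
      rw [h7]
      calc (12 : ℝ) < 2.7 ^ 3 := by norm_num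
        _ < Real.exp 1 ^ 3 := by gcongr
    rw [Real.exp_neg, ← div_eq_mul_inv, div_lt_one (by positivity)]
    exact h8
  calc _ ≤ 12 * (n : ℝ) ^ (8 * j) * Real.exp (-((8 * Real.log n + 3) * ((j : ℝ) + 1))) := by
        gcongr
    _ = 12 * ((n : ℝ) ^ (8 * j) * Real.exp (-((8 * Real.log n + 3) * ((j : ℝ) + 1)))) := by ring
    _ ≤ 12 * Real.exp (-3) := by gcongr
    _ < 1 := h5

/-- the constant -/
def C0 (n : ℕ) : ℝ := √(32 * (8 * Real.log n + 3))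

/-- the frequencies of the net -/
def net (n j : ℕ) (a : Fin (2 * n ^ (8 * j) + 1)) : ℝ :=
  (((a : ℕ) : ℝ) - (n : ℝ) ^ (8 * j)) * (1 / (n : ℝ)) ^ (4 * j)

theorem step (hU : S_UH) (hH : S_HOE) (m n : ℕ) (hm : 1 ≤ m) (hn : 4 ≤ n) (j : ℕ)
    (P : (Fin j → Fin m) → ℝ) : ∃ g : (Fin j → Fin m) → ℝ, (∀ u, 0 ≤ g u ∧ g u ≤ 1 / 2) ∧
      ∀ a : Fin (2 * n ^ (8 * j) + 1), ‖∑ u, ee (net n j a * P u) *
        (ee (net n j a * (1 / (n : ℝ)) ^ j * g u) - uh (net n j a * (1 / (n : ℝ)) ^ j))‖ ≤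
        C0 n * √((j : ℝ) + 1) * √((m : ℝ) ^ j) := by
  have : Nonempty (Fin m) := ⟨⟨0, by omega⟩⟩
  have hl : 0 ≤ Real.log n := Real.log_nonneg (by exact_mod_cast (by omega : 1 ≤ n))
  obtain ⟨g, h1, h2⟩ := hH (Fin j → Fin m) (Fin (2 * n ^ (8 * j) + 1))
    (fun a u => ee (net n j a * P u)) (fun a => net n j a * (1 / (n : ℝ)) ^ j)
    (C0 n * √((j : ℝ) + 1)) (fun a u => (hU.ee_norm _).le) (by unfold C0; positivity) (by
      have h3 : (C0 n * √((j : ℝ) + 1)) ^ 2 / 32 = (8 * Real.log n + 3) * ((j : ℝ) + 1) := by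
        unfold C0
        rw [mul_pow, Real.sq_sqrt (by positivity), Real.sq_sqrt (by positivity)]
        ring
      rw [h3, Fintype.card_fin]
      exact expb n j hn)
  refine ⟨g, h1, fun a => ?_⟩
  have h4 := h2 a
  rw [Fintype.card_fun, Fintype.card_fin, Fintype.card_fin] at h4
  push_cast at h4
  exact h4

/-- the recursion for the positions -/
def Pos {m : ℕ} (n : ℕ) (x : Fin m → ℝ)
    (G : ∀ j : ℕ, ((Fin j → Fin m) → ℝ) → (Fin j → Fin m) → ℝ) :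
    ∀ j : ℕ, (Fin j → Fin m) → ℝ
  | 0 => fun _ => 0
  | j + 1 => fun u => Pos n x G j (fun l => u l.castSucc) + (1 / (n : ℝ)) ^ j *
      (G j (Pos n x G j) (fun l => u l.castSucc) + x (u (Fin.last j)))

theorem ps_eq {m : ℕ} (n : ℕ) (x : Fin m → ℝ)
    (G : ∀ j : ℕ, ((Fin j → Fin m) → ℝ) → (Fin j → Fin m) → ℝ) (j : ℕ) (u : Fin j → Fin m) :
    ps n x (fun j => G j (Pos n x G j)) j u = Pos n x G j u := by
  induction j with
  | zero => simp [ps, Pos]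
  | succ j ih =>
    have h1 := ih (fun l => u l.castSucc)
    have h2 : Pos n x G (j + 1) u = Pos n x G j (fun l => u l.castSucc) + (1 / (n : ℝ)) ^ j *
      (G j (Pos n x G j) (fun l => u l.castSucc) + x (u (Fin.last j))) := rfl
    rw [h2, ← h1]
    unfold ps
    rw [Fin.sum_univ_castSucc]
    rfl

theorem exists_net (n j : ℕ) (hn : 4 ≤ n) (ξ : ℝ) (hξ : |ξ| ≤ (n : ℝ) ^ (4 * j)) :
    ∃ a : Fin (2 * n ^ (8 * j) + 1), |ξ - net n j a| ≤ (1 / (n : ℝ)) ^ (4 * j) := by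
  have hn0 : (0 : ℝ) < n := by exact_mod_cast (by omega : 0 < n)
  set q : ℝ := (n : ℝ) ^ (4 * j) with hq
  have hq0 : 0 < q := by positivity
  have hqq : (n : ℝ) ^ (8 * j) = q * q := by
    rw [hq, ← pow_add]
    congr 1
    omega
  have hqi : (1 / (n : ℝ)) ^ (4 * j) = 1 / q := by rw [one_div_pow]
  have hN : ((n ^ (8 * j) : ℕ) : ℝ) = q * q := by rw [← hqq]; push_cast; rfl
  obtain ⟨h1, h2⟩ := abs_le.1 hξ
  set b : ℤ := ⌊ξ * q⌋ with hb
  have hb1 : (b : ℝ) ≤ ξ * q := Int.floor_le _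
  have hb2 : ξ * q < b + 1 := Int.lt_floor_add_one _
  have hb3 : -((n ^ (8 * j) : ℕ) : ℤ) ≤ b := by
    rw [hb, Int.le_floor]
    rw [Int.cast_neg, Int.cast_natCast, hN]
    nlinarith
  have hb4 : b ≤ ((n ^ (8 * j) : ℕ) : ℤ) := by
    have : (b : ℝ) ≤ ((n ^ (8 * j) : ℕ) : ℝ) := by
      rw [hN]
      nlinarith
    exact_mod_cast this
  refine ⟨⟨(b + ((n ^ (8 * j) : ℕ) : ℤ)).toNat, by omega⟩, ?_⟩
  have h5 : (((b + ((n ^ (8 * j) : ℕ) : ℤ)).toNat : ℕ) : ℝ) = b + (n : ℝ) ^ (8 * j) := by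
    have h6 : (((b + ((n ^ (8 * j) : ℕ) : ℤ)).toNat : ℕ) : ℤ) = b + ((n ^ (8 * j) : ℕ) : ℤ) :=
      Int.toNat_of_nonneg (by omega)
    rw [← Int.cast_natCast (R := ℝ), h6]
    push_cast
    ring
  unfold net
  simp only
  rw [h5, hqi, add_sub_cancel_right]
  have h6 : ξ - b * (1 / q) = (ξ * q - b) / q := by
    field_simp
  rw [h6, abs_div, abs_of_pos hq0, abs_of_nonneg (by linarith)]
  gcongr
  linarith

theorem dd_lip (hU : S_UH) {m : ℕ} (n : ℕ) (x : Fin m → ℝ)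
    (t : ∀ j : ℕ, (Fin j → Fin m) → ℝ) (hm : 1 ≤ m) (hn : 4 ≤ n) (ht : Tb t)
    (hp : ∀ (j : ℕ) (u : Fin j → Fin m), 0 ≤ ps n x t j u ∧ ps n x t j u ≤ 1) (j : ℕ) (ξ η : ℝ) :
    ‖DD n x t j ξ - DD n x t j η‖ ≤ 28 * |ξ - η| := by
  have hn0 : (0 : ℝ) < n := by exact_mod_cast (by omega : 0 < n)
  have hn1 : (1 : ℝ) ≤ n := by exact_mod_cast (by omega : 1 ≤ n)
  set r : ℝ := (1 / (n : ℝ)) ^ j with hr
  have hr0 : 0 ≤ r := by positivity
  have hr1 : r ≤ 1 := pow_le_one₀ (by positivity) (by rw [div_le_one hn0]; exact hn1)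
  have hm0 : (0 : ℝ) < (m : ℝ) ^ j := by
    have : (0 : ℝ) < m := by exact_mod_cast hm
    positivity
  have key : ∀ u : Fin j → Fin m, ‖ee (ξ * ps n x t j u) * (ee (ξ * r * t j u) - uh (ξ * r)) -
      ee (η * ps n x t j u) * (ee (η * r * t j u) - uh (η * r))‖ ≤ 28 * |ξ - η| := by
    intro u
    set p := ps n x t j u with hpdef
    obtain ⟨hp0, hp1⟩ := hp j u
    obtain ⟨ht0, ht1⟩ := ht j u
    have hd : 0 ≤ |ξ - η| := abs_nonneg _
    have e0 : ee (ξ * p) * (ee (ξ * r * t j u) - uh (ξ * r)) -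
        ee (η * p) * (ee (η * r * t j u) - uh (η * r)) =
        (ee (ξ * p) - ee (η * p)) * (ee (ξ * r * t j u) - uh (ξ * r)) +
        ee (η * p) * ((ee (ξ * r * t j u) - ee (η * r * t j u)) - (uh (ξ * r) - uh (η * r))) := by
      ring
    have e1 : ‖ee (ξ * p) - ee (η * p)‖ ≤ 7 * |ξ - η| := by
      refine (hU.ee_lip _ _).trans ?_
      rw [← sub_mul, abs_mul, abs_of_nonneg hp0]
      nlinarith
    have e2 : ‖ee (ξ * r * t j u) - uh (ξ * r)‖ ≤ 2 := by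
      refine (norm_sub_le _ _).trans ?_
      rw [hU.ee_norm]
      linarith [hU.one (ξ * r)]
    have e3 : ‖ee (ξ * r * t j u) - ee (η * r * t j u)‖ ≤ 7 * |ξ - η| := by
      refine (hU.ee_lip _ _).trans ?_
      rw [← sub_mul, ← sub_mul, abs_mul, abs_mul, abs_of_nonneg hr0, abs_of_nonneg ht0]
      have h6 : |ξ - η| * r * t j u ≤ |ξ - η| * 1 * 1 := by
        gcongr
        linarith
      linarith
    have e4 : ‖uh (ξ * r) - uh (η * r)‖ ≤ 7 * |ξ - η| := by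
      refine (hU.lip _ _).trans ?_
      rw [← sub_mul, abs_mul, abs_of_nonneg hr0]
      nlinarith
    rw [e0]
    refine (norm_add_le _ _).trans ?_
    rw [norm_mul, norm_mul, hU.ee_norm, one_mul]
    have e5 : ‖ee (ξ * p) - ee (η * p)‖ * ‖ee (ξ * r * t j u) - uh (ξ * r)‖ ≤
        7 * |ξ - η| * 2 := by gcongr
    have e6 := norm_sub_le (ee (ξ * r * t j u) - ee (η * r * t j u)) (uh (ξ * r) - uh (η * r))
    linarith
  unfold DD
  rw [← mul_sub, ← Finset.sum_sub_distrib, norm_mul]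
  have h1 : ‖(1 / (m : ℂ) ^ j)‖ = 1 / (m : ℝ) ^ j := by
    rw [norm_div, norm_pow, norm_one, Complex.norm_natCast]
  rw [h1]
  have h2 : ‖∑ u : Fin j → Fin m, (ee (ξ * ps n x t j u) *
      (ee (ξ * (1 / (n : ℝ)) ^ j * t j u) - uh (ξ * (1 / (n : ℝ)) ^ j)) -
      ee (η * ps n x t j u) *
      (ee (η * (1 / (n : ℝ)) ^ j * t j u) - uh (η * (1 / (n : ℝ)) ^ j)))‖ ≤
      (m : ℝ) ^ j * (28 * |ξ - η|) := by
    refine (norm_sum_le_of_le _ (fun u _ => key u)).trans ?_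
    rw [Finset.sum_const, Finset.card_univ, Fintype.card_fun, Fintype.card_fin, Fintype.card_fin,
      nsmul_eq_mul]
    push_cast
    exact le_rfl
  calc 1 / (m : ℝ) ^ j * _ ≤ 1 / (m : ℝ) ^ j * ((m : ℝ) ^ j * (28 * |ξ - η|)) := by gcongr
    _ = 28 * |ξ - η| := by field_simp

end CON

open CON in
theorem t_CON : S_CON := by
  intro hU hT hH m n x hm hn hx
  have hst := step hU hH m n hm hn
  choose G hG1 hG2 using hst
  set t : ∀ j : ℕ, (Fin j → Fin m) → ℝ := fun j => G j (Pos n x G j) with ht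
  have hTb : Tb t := fun j u => hG1 j _ u
  have hps : ∀ (j : ℕ) (u : Fin j → Fin m), ps n x t j u = Pos n x G j u := ps_eq n x G
  have hm0 : (0 : ℝ) < m := by exact_mod_cast hm
  have hn0 : (0 : ℝ) < n := by exact_mod_cast (by omega : 0 < n)
  have hC0 : 0 ≤ C0 n := Real.sqrt_nonneg _
  refine ⟨t, hTb, max (C0 n) 28, le_max_of_le_left hC0, ?_⟩
  intro j ξ hξ
  obtain ⟨a, ha⟩ := exists_net n j hn ξ hξ
  have h1 := dd_lip hU n x t hm hn hTb (hT.bd m n x t hn hx hTb) j ξ (net n j a)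
  have h2 : ‖DD n x t j (net n j a)‖ ≤ C0 n * √((j : ℝ) + 1) * (1 / √(m : ℝ)) ^ j := by
    unfold DD
    rw [norm_mul]
    have h3 : ‖(1 / (m : ℂ) ^ j)‖ = 1 / (m : ℝ) ^ j := by
      rw [norm_div, norm_pow, norm_one, Complex.norm_natCast]
    rw [h3]
    have h4 := hG2 j (Pos n x G j) a
    have h5 : (∑ u : Fin j → Fin m, ee (net n j a * ps n x t j u) *
        (ee (net n j a * (1 / (n : ℝ)) ^ j * t j u) - uh (net n j a * (1 / (n : ℝ)) ^ j))) =
        ∑ u : Fin j → Fin m, ee (net n j a * Pos n x G j u) *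
        (ee (net n j a * (1 / (n : ℝ)) ^ j * G j (Pos n x G j) u) -
          uh (net n j a * (1 / (n : ℝ)) ^ j)) := by
      refine Finset.sum_congr rfl fun u _ => ?_
      rw [hps]
    rw [h5]
    have h6 : √((m : ℝ) ^ j) = (√(m : ℝ)) ^ j := by
      rw [Real.sqrt_eq_iff_mul_self_eq (by positivity) (by positivity), ← mul_pow,
        Real.mul_self_sqrt hm0.le]
    have h7 : 1 / (m : ℝ) ^ j * (√(m : ℝ)) ^ j = (1 / √(m : ℝ)) ^ j := by
      have h8 : (m : ℝ) ^ j = (√(m : ℝ)) ^ j * (√(m : ℝ)) ^ j := by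
        rw [← mul_pow, Real.mul_self_sqrt hm0.le]
      have h9 : 0 < (√(m : ℝ)) ^ j := by positivity
      rw [h8, one_div_pow]
      field_simp
    calc 1 / (m : ℝ) ^ j * _ ≤ 1 / (m : ℝ) ^ j * (C0 n * √((j : ℝ) + 1) * √((m : ℝ) ^ j)) := by
          gcongr
      _ = C0 n * √((j : ℝ) + 1) * (1 / (m : ℝ) ^ j * (√(m : ℝ)) ^ j) := by rw [h6]; ring
      _ = C0 n * √((j : ℝ) + 1) * (1 / √(m : ℝ)) ^ j := by rw [h7]
  have h3 : ‖DD n x t j ξ‖ ≤ ‖DD n x t j (net n j a)‖ + ‖DD n x t j ξ - DD n x t j (net n j a)‖ := by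
    have := norm_add_le (DD n x t j (net n j a)) (DD n x t j ξ - DD n x t j (net n j a))
    rwa [add_sub_cancel] at this
  have h4 : C0 n * √((j : ℝ) + 1) * (1 / √(m : ℝ)) ^ j ≤
      max (C0 n) 28 * √((j : ℝ) + 1) * (1 / √(m : ℝ)) ^ j := by
    gcongr
    exact le_max_left _ _
  have h5 : 28 * |ξ - net n j a| ≤ max (C0 n) 28 * (1 / (n : ℝ)) ^ (4 * j) := by
    gcongr
    exact le_max_right _ _
  linarith

end

end Pool.Agent.N46.FD
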