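import Pool.Agent.N46.FD.Stm

/-! Project FD, part DEC: the decay, real numbers only (helper588). -/

set_option autoImplicit false

namespace Pool.Agent.N46.FD

open Filter Topology

namespace DEC

/-- the summable bounds -/
noncomputable def b (m n : ℕ) (C s : ℝ) (i : ℕ) : ℝ :=
  C * √((i : ℝ) + 1) * (1 / √(m : ℝ)) ^ i * ((n : ℝ) ^ (i + 1)) ^ (s / 2) +
    C * (1 / (n : ℝ)) ^ (2 * i)

theorem b_nonneg {m n : ℕ} {C s : ℝ} (hC : 0 ≤ C) (i : ℕ) : 0 ≤ b m n C s i := by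
  unfold b
  positivity

theorem b_summable {m n : ℕ} {C s : ℝ} (hm : 1 ≤ m) (hn : 4 ≤ n) (hC : 0 ≤ C)
    (hs : s * Real.log n < Real.log m) : Summable (b m n C s) := by
  have hm0 : (0 : ℝ) < m := by exact_mod_cast hm
  have hn4 : (4 : ℝ) ≤ n := by exact_mod_cast hn
  have hn0 : (0 : ℝ) < n := by linarith
  set u := (n : ℝ) ^ (s / 2) with hu
  have hu0 : 0 < u := Real.rpow_pos_of_pos hn0 _
  set r := u / √(m : ℝ) with hr
  have hsm : 0 < √(m : ℝ) := Real.sqrt_pos.2 hm0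
  have hr0 : 0 ≤ r := by positivity
  have hr1 : r < 1 := by
    rw [hr, div_lt_one hsm, hu, Real.sqrt_eq_rpow, Real.rpow_def_of_pos hn0,
      Real.rpow_def_of_pos hm0]
    apply Real.exp_lt_exp.2
    linarith
  have hpow : ∀ i : ℕ, ((n : ℝ) ^ (i + 1)) ^ (s / 2) = u * u ^ i := by
    intro i
    rw [← Real.rpow_natCast, ← Real.rpow_mul hn0.le, mul_comm, Real.rpow_mul hn0.le,
      Real.rpow_natCast, pow_succ, mul_comm]
  have h1 : Summable fun i : ℕ => C * u * (((i : ℝ) ^ 1 * r ^ i) + r ^ i) := by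
    refine Summable.mul_left _ (Summable.add ?_ (summable_geometric_of_lt_one hr0 hr1))
    exact summable_pow_mul_geometric_of_norm_lt_one 1 (by rwa [Real.norm_of_nonneg hr0])
  have h2 : Summable fun i : ℕ => C * √((i : ℝ) + 1) * (1 / √(m : ℝ)) ^ i *
      ((n : ℝ) ^ (i + 1)) ^ (s / 2) := by
    refine Summable.of_nonneg_of_le (fun i => by positivity) (fun i => ?_) h1
    rw [hpow]
    have h3 : √((i : ℝ) + 1) ≤ (i : ℝ) + 1 := by
      rw [Real.sqrt_le_left (by positivity)]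
      have : (0 : ℝ) ≤ i := Nat.cast_nonneg i
      nlinarith
    have h4 : (1 / √(m : ℝ)) ^ i * u ^ i = r ^ i := by
      rw [← mul_pow, hr]
      congr 1
      field_simp
    calc C * √((i : ℝ) + 1) * (1 / √(m : ℝ)) ^ i * (u * u ^ i)
        = C * u * (√((i : ℝ) + 1) * ((1 / √(m : ℝ)) ^ i * u ^ i)) := by ring
      _ = C * u * (√((i : ℝ) + 1) * r ^ i) := by rw [h4]
      _ ≤ C * u * (((i : ℝ) + 1) * r ^ i) := by gcongr
      _ = C * u * (((i : ℝ) ^ 1 * r ^ i) + r ^ i) := by ring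
  have h5 : Summable fun i : ℕ => C * (1 / (n : ℝ)) ^ (2 * i) := by
    apply Summable.mul_left
    have h6 : ∀ i : ℕ, (1 / (n : ℝ)) ^ (2 * i) = ((1 / (n : ℝ)) ^ 2) ^ i := fun i => pow_mul _ _ _
    simp_rw [h6]
    refine summable_geometric_of_lt_one (by positivity) ?_
    rw [one_div, inv_pow]
    exact inv_lt_one_of_one_lt₀ (by nlinarith)
  exact h2.add h5

theorem two_pow {n : ℕ} (hn : 4 ≤ n) (J : ℕ) : 1 + 2 * (J : ℝ) ≤ 2 * (n : ℝ) ^ J := by
  have hn4 : (4 : ℝ) ≤ n := by exact_mod_cast hn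
  induction J with
  | zero => norm_num
  | succ J ih =>
    have h1 : (1 : ℝ) ≤ (n : ℝ) ^ J := one_le_pow₀ (by linarith)
    rw [pow_succ]
    push_cast
    nlinarith

/-- the first part of the recursion -/
theorem first {n : ℕ} (hn : 4 ≤ n) {X : ℝ} (hX : 1 ≤ X) {S D U : ℕ → ℝ} (hS : ∀ j, 0 ≤ S j)
    (hU0 : ∀ j, 0 ≤ U j) (hS0 : S 0 ≤ 1) (hU1 : ∀ j, U j ≤ 1)
    (hU : ∀ j, U j ≤ (n : ℝ) ^ j / X) (hD : ∀ j, D j ≤ 2) (hrec : ∀ j, S (j + 1) ≤ U j * S j + D j)
    {J : ℕ} (hJ : ∀ j < J, (n : ℝ) ^ (4 * j) < X) : U J * S J ≤ 2 * n ^ 2 / √X := by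
  have hX0 : 0 < X := by linarith
  have hn4 : (4 : ℝ) ≤ n := by exact_mod_cast hn
  have hSj : ∀ j, S j ≤ 1 + 2 * (j : ℝ) := by
    intro j
    induction j with
    | zero => simpa using hS0
    | succ j ih =>
      have h1 := hrec j
      have h2 := hD j
      have h3 : U j * S j ≤ S j := mul_le_of_le_one_left (hS j) (hU1 j)
      push_cast
      linarith
  have h1 : U J * S J ≤ 2 * ((n : ℝ) ^ J) ^ 2 / X := by
    calc U J * S J ≤ ((n : ℝ) ^ J / X) * (2 * (n : ℝ) ^ J) :=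
          mul_le_mul (hU J) ((hSj J).trans (two_pow hn J)) (hS J) (by positivity)
      _ = 2 * ((n : ℝ) ^ J) ^ 2 / X := by ring
  refine h1.trans ?_
  -- `n ^ (4 J) ≤ n ^ 4 X`
  have h2 : (((n : ℝ) ^ J) ^ 2) ^ 2 ≤ ((n : ℝ) ^ 2) ^ 2 * X := by
    cases J with
    | zero =>
      simp only [pow_zero, one_pow]
      have : (1 : ℝ) ≤ ((n : ℝ) ^ 2) ^ 2 := one_le_pow₀ (one_le_pow₀ (by linarith))
      nlinarith
    | succ J =>
      have h3 := hJ J (Nat.lt_succ_self J)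
      have h4 : (((n : ℝ) ^ (J + 1)) ^ 2) ^ 2 = ((n : ℝ) ^ 2) ^ 2 * (n : ℝ) ^ (4 * J) := by ring
      rw [h4]
      gcongr
  have h5 : ((n : ℝ) ^ J) ^ 2 ≤ (n : ℝ) ^ 2 * √X := by
    apply le_of_sq_le_sq _ (by positivity)
    rw [mul_pow, Real.sq_sqrt hX0.le]
    exact h2
  rw [div_le_div_iff₀ hX0 (Real.sqrt_pos.2 hX0)]
  calc 2 * ((n : ℝ) ^ J) ^ 2 * √X ≤ 2 * ((n : ℝ) ^ 2 * √X) * √X := by gcongr
    _ = 2 * (n : ℝ) ^ 2 * (√X * √X) := by ring
    _ = 2 * (n : ℝ) ^ 2 * X := by rw [Real.mul_self_sqrt hX0.le]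

end DEC

theorem t_DEC : S_DEC := by
  classical
  intro m n C s hm hn hC hs0 hs1 hsl
  have hsum := DEC.b_summable hm hn hC hsl
  have hm0 : (0 : ℝ) < m := by exact_mod_cast hm
  have hn4 : (4 : ℝ) ≤ n := by exact_mod_cast hn
  have hn0 : (0 : ℝ) < n := by linarith
  refine ⟨2 * n ^ 2 + ∑' i, DEC.b m n C s i, ?_⟩
  intro ξ hξ S D U hS hD0 hU0 hS0 hU1 hU hD2 hD hrec L hL
  set X := |ξ| with hX
  have hX0 : 0 < X := by linarith
  set a := X ^ (-s / 2) with ha
  have ha0 : 0 < a := Real.rpow_pos_of_pos hX0 _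
  have hXa : 1 / √X ≤ a := by
    rw [Real.sqrt_eq_rpow, one_div, ← Real.rpow_neg hX0.le, ha]
    exact Real.rpow_le_rpow_of_exponent_le hξ (by linarith)
  have hex : ∃ J : ℕ, X ≤ (n : ℝ) ^ (4 * J) := by
    obtain ⟨k, hk⟩ := pow_unbounded_of_one_lt X (by linarith : (1 : ℝ) < n)
    exact ⟨k, hk.le.trans (pow_le_pow_right₀ (by linarith) (by omega))⟩
  obtain ⟨J, hJ1, hJ2⟩ : ∃ J : ℕ, X ≤ (n : ℝ) ^ (4 * J) ∧ ∀ j < J, (n : ℝ) ^ (4 * j) < X :=
    ⟨Nat.find hex, Nat.find_spec hex, fun j hj => not_le.1 (Nat.find_min hex hj)⟩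
  have hXj : ∀ i, J ≤ i → X ≤ (n : ℝ) ^ (4 * i) := fun i hi =>
    hJ1.trans (pow_le_pow_right₀ (by linarith) (by omega))
  have hfirst := DEC.first hn hξ hS hU0 hS0 hU1 hU hD2 hrec hJ2
  have hfirst' : U J * S J ≤ 2 * n ^ 2 * a := by
    refine hfirst.trans ?_
    rw [div_eq_mul_one_div]
    gcongr
  -- the terms
  have hterm : ∀ i, J ≤ i → U (i + 1) * D i ≤ a * DEC.b m n C s i := by
    intro i hi
    have h1 := hD i (hXj i hi)
    have h2 : U (i + 1) ≤ a * ((n : ℝ) ^ (i + 1)) ^ (s / 2) := by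
      have h3 : a * ((n : ℝ) ^ (i + 1)) ^ (s / 2) = ((n : ℝ) ^ (i + 1) / X) ^ (s / 2) := by
        rw [Real.div_rpow (by positivity) hX0.le, ha, neg_div, Real.rpow_neg hX0.le, mul_comm]
        exact (div_eq_mul_inv _ _).symm
      rw [h3]
      set y := (n : ℝ) ^ (i + 1) / X with hy
      have hy0 : 0 < y := by positivity
      rcases le_total 1 y with h4 | h4
      · exact (hU1 _).trans (Real.one_le_rpow h4 (by linarith))
      · refine (hU _).trans ?_
        have h5 := Real.rpow_le_rpow_of_exponent_ge hy0 h4 (by linarith : s / 2 ≤ 1)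
        rwa [Real.rpow_one] at h5
    have h6 : (1 / (n : ℝ)) ^ (4 * i) ≤ a * (1 / (n : ℝ)) ^ (2 * i) := by
      have h7 : (1 / (n : ℝ)) ^ (4 * i) = (1 / (n : ℝ)) ^ (2 * i) * (1 / (n : ℝ)) ^ (2 * i) := by
        rw [← pow_add]; congr 1; ring
      rw [h7]
      refine mul_le_mul_of_nonneg_right ?_ (by positivity)
      refine le_trans ?_ hXa
      rw [one_div_pow]
      apply one_div_le_one_div_of_le (Real.sqrt_pos.2 hX0)
      rw [Real.sqrt_le_left (by positivity)]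
      have h8 : ((n : ℝ) ^ (2 * i)) ^ 2 = (n : ℝ) ^ (4 * i) := by
        rw [← pow_mul]; congr 1; ring
      rw [h8]
      exact hXj i hi
    calc U (i + 1) * D i ≤ U (i + 1) * (C * √((i : ℝ) + 1) * (1 / √(m : ℝ)) ^ i +
          C * (1 / (n : ℝ)) ^ (4 * i)) := mul_le_mul_of_nonneg_left h1 (hU0 _)
      _ = U (i + 1) * (C * √((i : ℝ) + 1) * (1 / √(m : ℝ)) ^ i) +
          U (i + 1) * (C * (1 / (n : ℝ)) ^ (4 * i)) := by ring
      _ ≤ (a * ((n : ℝ) ^ (i + 1)) ^ (s / 2)) * (C * √((i : ℝ) + 1) * (1 / √(m : ℝ)) ^ i) +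
          1 * (C * (a * (1 / (n : ℝ)) ^ (2 * i))) := by
          refine add_le_add (mul_le_mul_of_nonneg_right h2 (by positivity)) ?_
          exact mul_le_mul (hU1 _) (mul_le_mul_of_nonneg_left h6 hC) (by positivity) zero_le_one
      _ = a * DEC.b m n C s i := by
          unfold DEC.b
          ring
  have hDb : ∀ i, J ≤ i → D i ≤ DEC.b m n C s i := by
    intro i hi
    refine (hD i (hXj i hi)).trans ?_
    unfold DEC.b
    refine add_le_add ?_ ?_
    · refine le_mul_of_one_le_right (by positivity) ?_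
      exact Real.one_le_rpow (one_le_pow₀ (by linarith)) (by linarith)
    · refine mul_le_mul_of_nonneg_left ?_ hC
      apply pow_le_pow_of_le_one (by positivity) _ (by omega)
      rw [div_le_one hn0]
      linarith
  -- the recursion
  have hT : ∀ k, U (J + k) * S (J + k) ≤
      2 * n ^ 2 * a + a * ∑ i ∈ Finset.range k, DEC.b m n C s (J + i) := by
    intro k
    induction k with
    | zero => simpa using hfirst'
    | succ k ih =>
      have h1 := hrec (J + k)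
      have h2 := hterm (J + k) (Nat.le_add_right J k)
      have h3 : U (J + k + 1) * S (J + k + 1) ≤ U (J + k) * S (J + k) + U (J + k + 1) * D (J + k) := by
        calc U (J + k + 1) * S (J + k + 1)
            ≤ U (J + k + 1) * (U (J + k) * S (J + k) + D (J + k)) :=
              mul_le_mul_of_nonneg_left h1 (hU0 _)
          _ = U (J + k + 1) * (U (J + k) * S (J + k)) + U (J + k + 1) * D (J + k) := by ring
          _ ≤ _ := by
              have h4 : U (J + k + 1) * (U (J + k) * S (J + k)) ≤ U (J + k) * S (J + k) :=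
                mul_le_of_le_one_left (mul_nonneg (hU0 _) (hS _)) (hU1 _)
              linarith
      rw [Finset.sum_range_succ]
      have e1 : J + (k + 1) = J + k + 1 := by ring
      rw [e1]
      linarith
  have hbs : ∀ k, ∑ i ∈ Finset.range k, DEC.b m n C s (J + i) ≤ ∑' i, DEC.b m n C s i := by
    intro k
    have h1 : ∑ i ∈ Finset.range k, DEC.b m n C s (J + i) =
        ∑ i ∈ (Finset.range k).image (fun i => J + i), DEC.b m n C s i := by
      rw [Finset.sum_image fun x _ y _ h => by simpa using h]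
    rw [h1]
    exact hsum.sum_le_tsum _ fun i _ => DEC.b_nonneg hC i
  set M := 2 * (n : ℝ) ^ 2 + ∑' i, DEC.b m n C s i with hM
  have hT2 : ∀ j, J ≤ j → S (j + 1) ≤ M * a + DEC.b m n C s j := by
    intro j hj
    obtain ⟨k, rfl⟩ := Nat.exists_eq_add_of_le hj
    have h1 := hT k
    have h2 := mul_le_mul_of_nonneg_left (hbs k) ha0.le
    have h3 := hrec (J + k)
    have h4 := hDb (J + k) hj
    have h5 : M * a = 2 * n ^ 2 * a + a * ∑' i, DEC.b m n C s i := by rw [hM]; ring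
    linarith
  have hlim : Tendsto (fun j => M * a + DEC.b m n C s j) atTop (𝓝 (M * a + 0)) :=
    tendsto_const_nhds.add hsum.tendsto_atTop_zero
  rw [add_zero] at hlim
  refine le_of_tendsto_of_tendsto (hL.comp (tendsto_add_atTop_nat 1)) hlim ?_
  filter_upwards [eventually_ge_atTop J] with j hj
  exact hT2 j hj

end Pool.Agent.N46.FD
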