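import Pool.Agent.N46.FD.Stm

/-!
# Project FD, part ENE (helper862): the energy from the decay of the Fourier transform
-/

set_option autoImplicit false
set_option linter.all false

namespace Pool.Agent.N46.FD

open MeasureTheory Set Filter Topology

namespace ENE

/-- the truncated power -/
noncomputable def H (t a x : ℝ) : ℝ := if x ≤ a then x ^ (-t) else 0

theorem H_intOn (t a : ℝ) (ht : t < 1) (ha : 0 < a) : IntegrableOn (fun x => H t a |x|) (Ioi 0) := by
  have h1 : IntegrableOn (fun x : ℝ => x ^ (-t)) (Ioc 0 a) := by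
    have := (intervalIntegral.intervalIntegrable_rpow' (a := 0) (b := a) (r := -t) (by linarith))
    rwa [intervalIntegrable_iff_integrableOn_Ioc_of_le ha.le] at this
  have h2 : IntegrableOn (fun x => H t a |x|) (Ioc 0 a) := by
    refine h1.congr_fun (fun x hx => ?_) measurableSet_Ioc
    simp only [H, abs_of_pos hx.1, hx.2, if_true]
  have h3 : IntegrableOn (fun x => H t a |x|) (Ioi a) := by
    refine (integrableOn_zero (α := ℝ) (ε' := ℝ) (μ := volume) (s := Ioi a)).congr_fun (fun x hx => ?_)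
      measurableSet_Ioi
    have hx0 : 0 < x := ha.trans hx
    simp only [H, abs_of_pos hx0, not_le.mpr (Set.mem_Ioi.mp hx), if_false]
  have := h2.union h3
  rwa [Ioc_union_Ioi_eq_Ioi ha.le] at this

theorem H_int (t a : ℝ) (ht : t < 1) (ha : 0 < a) : Integrable (fun x => H t a |x|) := by
  have h1 := H_intOn t a ht ha
  have int_Iic : IntegrableOn (fun x ↦ H t a |x|) (Iic 0) := by
    rw [← Measure.map_neg_eq_self (volume : Measure ℝ)]
    let m : MeasurableEmbedding fun x : ℝ => -x := (Homeomorph.neg ℝ).measurableEmbedding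
    rw [m.integrableOn_map_iff]
    simp_rw [Function.comp_def, abs_neg, neg_preimage, neg_Iic, neg_zero]
    exact Iff.mpr integrableOn_Ici_iff_integrableOn_Ioi h1
  have := int_Iic.union h1
  rwa [Iic_union_Ioi, integrableOn_univ] at this

theorem H_integral (t a : ℝ) (ht : t < 1) (ha : 0 < a) :
    ∫ x, H t a |x| = 2 * (a ^ (1 - t) / (1 - t)) := by
  rw [integral_comp_abs]
  congr 1
  have h1 : ∫ x in Ioi (0 : ℝ), H t a x = ∫ x in Ioc 0 a, x ^ (-t) := by
    rw [← Ioc_union_Ioi_eq_Ioi ha.le, setIntegral_union (Ioc_disjoint_Ioi le_rfl) measurableSet_Ioi]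
    · have h2 : ∫ x in Ioi a, H t a x = 0 := by
        rw [setIntegral_congr_fun (g := fun _ => (0 : ℝ)) measurableSet_Ioi]
        · simp
        · intro x hx
          simp only [H, not_le.mpr (Set.mem_Ioi.mp hx), if_false]
      rw [h2, add_zero]
      refine setIntegral_congr_fun measurableSet_Ioc (fun x hx => ?_)
      simp only [H, hx.2, if_true]
    · have := (H_intOn t a ht ha).mono_set (Ioc_subset_Ioi_self : Ioc 0 a ⊆ Ioi 0)
      refine this.congr_fun (fun x hx => ?_) measurableSet_Ioc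
      simp only [abs_of_pos hx.1]
    · have := (H_intOn t a ht ha).mono_set (Ioi_subset_Ioi ha.le : Ioi a ⊆ Ioi 0)
      refine this.congr_fun (fun x hx => ?_) measurableSet_Ioi
      simp only [abs_of_pos (ha.trans (Set.mem_Ioi.mp hx))]
  rw [h1, ← intervalIntegral.integral_of_le ha.le, integral_rpow (Or.inl (by linarith)),
    Real.zero_rpow (by linarith)]
  have : -t + 1 = 1 - t := by ring
  rw [this, sub_zero]

theorem ee_cont : Continuous ee := by
  unfold ee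
  fun_prop

theorem ee_conj (h : S_UH) (y : ℝ) : ee (-y) = (starRingEnd ℂ) (ee y) := by
  unfold ee
  rw [← Complex.exp_conj]
  congr 1
  simp only [map_mul, Complex.conj_ofReal, Complex.conj_I]
  push_cast
  ring

variable (μ : Measure ℝ) [IsProbabilityMeasure μ]

/-- `∫∫ ee (ξ (x - y)) = |ft μ ξ|²` -/
theorem ft_sq (h : S_UH) (ξ : ℝ) :
    ∫ p : ℝ × ℝ, ee (ξ * (p.1 - p.2)) ∂(μ.prod μ) = ((‖ft μ ξ‖ ^ 2 : ℝ) : ℂ) := by
  have h1 : ∀ p : ℝ × ℝ, ee (ξ * (p.1 - p.2)) = ee (ξ * p.1) * (starRingEnd ℂ) (ee (ξ * p.2)) := by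
    intro p
    rw [← ee_conj h, ← h.ee_add]
    congr 1
    ring
  simp_rw [h1]
  rw [integral_prod_mul (μ := μ) (ν := μ) (fun x => ee (ξ * x))
    (fun y => (starRingEnd ℂ) (ee (ξ * y))), integral_conj]
  change ft μ ξ * (starRingEnd ℂ) (ft μ ξ) = _
  rw [Complex.mul_conj, Complex.normSq_eq_norm_sq]

theorem gauss (r u : ℝ) (hr : 0 < r) :
    (Real.exp (-(Real.pi * u ^ 2 / r ^ 2)) : ℂ) =
      r * ∫ ξ : ℝ, ee (ξ * u) * (Real.exp (-(Real.pi * r ^ 2) * ξ ^ 2) : ℂ) := by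
  have hb : 0 < ((Real.pi * r ^ 2 : ℝ) : ℂ).re := by
    rw [Complex.ofReal_re]
    positivity
  have h := fourierIntegral_gaussian hb ((-(2 * Real.pi * u) : ℝ) : ℂ)
  have h1 : ∫ ξ : ℝ, ee (ξ * u) * (Real.exp (-(Real.pi * r ^ 2) * ξ ^ 2) : ℂ) =
      ∫ x : ℝ, Complex.exp (Complex.I * ((-(2 * Real.pi * u) : ℝ) : ℂ) * x) *
        Complex.exp (-((Real.pi * r ^ 2 : ℝ) : ℂ) * (x : ℂ) ^ 2) := by
    congr 1
    ext x
    unfold ee
    congr 1
    · congr 1
      push_cast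
      ring
    · push_cast
      ring_nf
  rw [h1, h]
  have h2 : ((Real.pi : ℂ) / ((Real.pi * r ^ 2 : ℝ) : ℂ)) ^ (1 / 2 : ℂ) = ((1 / r : ℝ) : ℂ) := by
    have h3 : (Real.pi : ℂ) / ((Real.pi * r ^ 2 : ℝ) : ℂ) = (((1 / r) ^ 2 : ℝ) : ℂ) := by
      have hpi : (Real.pi : ℂ) ≠ 0 := by exact_mod_cast Real.pi_ne_zero
      have hr' : (r : ℂ) ≠ 0 := by exact_mod_cast hr.ne'
      push_cast
      field_simp
    rw [h3]
    have h4 : (1 / 2 : ℂ) = ((1 / 2 : ℝ) : ℂ) := by push_cast; rfl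
    rw [h4, ← Complex.ofReal_cpow (by positivity), ← Real.sqrt_eq_rpow, Real.sqrt_sq (by positivity)]
  rw [h2]
  have hr' : (r : ℂ) ≠ 0 := by exact_mod_cast hr.ne'
  rw [← mul_assoc, ← Complex.ofReal_mul, mul_one_div_cancel hr.ne', Complex.ofReal_one, one_mul,
    Complex.ofReal_exp]
  congr 1
  have hpi : (Real.pi : ℂ) ≠ 0 := by exact_mod_cast Real.pi_ne_zero
  push_cast
  field_simp
  ring

theorem swap (h : S_UH) (r : ℝ) (hr : 0 < r) :
    ∫ p : ℝ × ℝ, Real.exp (-(Real.pi * (p.1 - p.2) ^ 2 / r ^ 2)) ∂(μ.prod μ) =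
      r * ∫ ξ : ℝ, ‖ft μ ξ‖ ^ 2 * Real.exp (-(Real.pi * r ^ 2) * ξ ^ 2) := by
  apply Complex.ofReal_injective
  rw [← integral_complex_ofReal, Complex.ofReal_mul, ← integral_complex_ofReal]
  have h1 : ∀ p : ℝ × ℝ, ((Real.exp (-(Real.pi * (p.1 - p.2) ^ 2 / r ^ 2)) : ℝ) : ℂ) =
      r * ∫ ξ : ℝ, ee (ξ * (p.1 - p.2)) * (Real.exp (-(Real.pi * r ^ 2) * ξ ^ 2) : ℂ) :=
    fun p => gauss r (p.1 - p.2) hr
  have h2 : ∫ p : ℝ × ℝ, ((Real.exp (-(Real.pi * (p.1 - p.2) ^ 2 / r ^ 2)) : ℝ) : ℂ) ∂(μ.prod μ) =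
      r * ∫ p : ℝ × ℝ, (∫ ξ : ℝ, ee (ξ * (p.1 - p.2)) *
        (Real.exp (-(Real.pi * r ^ 2) * ξ ^ 2) : ℂ)) ∂(μ.prod μ) := by
    rw [← integral_const_mul]
    exact integral_congr_ae (Eventually.of_forall h1)
  rw [show (∫ p : ℝ × ℝ, ((Real.exp (-(Real.pi * (p.1 - p.2) ^ 2 / r ^ 2)) : ℝ) : ℂ)
    ∂(μ.prod μ)) = _ from h2]
  congr 1
  rw [integral_integral_swap]
  · congr 1
    ext ξ
    rw [integral_mul_const, ft_sq μ h]
    push_cast
    rfl
  · have hg : Integrable (fun ξ : ℝ => Real.exp (-(Real.pi * r ^ 2) * ξ ^ 2)) :=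
      integrable_exp_neg_mul_sq (by positivity)
    have hg2 : Integrable (fun q : (ℝ × ℝ) × ℝ => Real.exp (-(Real.pi * r ^ 2) * q.2 ^ 2))
        ((μ.prod μ).prod volume) := by
      have := (integrable_const (1 : ℝ) (μ := μ.prod μ)).mul_prod hg
      simpa using this
    refine hg2.mono' ?_ (Eventually.of_forall fun q => ?_)
    · apply Continuous.aestronglyMeasurable
      have := ee_cont
      simp only [Function.uncurry_def]
      fun_prop
    · simp only [Function.uncurry_def, norm_mul, h.ee_norm, one_mul, Complex.norm_real,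
        Real.norm_eq_abs, Real.abs_exp]
      exact le_rfl

theorem ft_le_one (h : S_UH) (ξ : ℝ) : ‖ft μ ξ‖ ≤ 1 := by
  unfold ft
  have := norm_integral_le_of_norm_le_const (μ := μ) (f := fun x => ee (ξ * x)) (C := 1)
    (Eventually.of_forall fun x => (h.ee_norm _).le)
  simpa using this

theorem t_ENE' : S_ENE := by
  intro h μ _ s t C ht0 hts hs hdec
  have ht1 : t < 1 := hts.trans_le hs
  set C1 : ℝ := max 1 (C ^ 2) with hC1
  have hC1' : 1 ≤ C1 := le_max_left _ _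
  refine ⟨Real.exp Real.pi * (C1 * (2 / (1 - t) + 1)), fun r hr hr1 => ?_⟩
  -- pointwise bound
  have hb : ∀ ξ : ℝ, ξ ≠ 0 → ‖ft μ ξ‖ ^ 2 ≤ C1 * |ξ| ^ (-t) := by
    intro ξ hξ
    have hξ' : 0 < |ξ| := abs_pos.mpr hξ
    rcases le_or_gt 1 |ξ| with h1 | h1
    · have h2 := hdec ξ hξ
      have h3 : ‖ft μ ξ‖ ^ 2 ≤ (C * |ξ| ^ (-s / 2)) ^ 2 := pow_le_pow_left₀ (norm_nonneg _) h2 2
      have h4 : (C * |ξ| ^ (-s / 2)) ^ 2 = C ^ 2 * |ξ| ^ (-s) := by
        rw [mul_pow, ← Real.rpow_natCast (|ξ| ^ (-s / 2)) 2, ← Real.rpow_mul hξ'.le]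
        congr 2
        push_cast
        ring
      have h5 : |ξ| ^ (-s) ≤ |ξ| ^ (-t) := Real.rpow_le_rpow_of_exponent_le h1 (by linarith)
      have h6 : C ^ 2 * |ξ| ^ (-s) ≤ C1 * |ξ| ^ (-t) :=
        mul_le_mul (le_max_right _ _) h5 (by positivity) (by positivity)
      linarith
    · have h2 : ‖ft μ ξ‖ ^ 2 ≤ 1 := by
        have := ft_le_one μ h ξ
        exact pow_le_one₀ (norm_nonneg _) this
      have h3 : 1 ≤ |ξ| ^ (-t) := Real.one_le_rpow_of_pos_of_le_one_of_nonpos hξ' h1.le (by linarith)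
      nlinarith
  have hG : (μ.prod μ).real {p : ℝ × ℝ | |p.1 - p.2| ≤ r} ≤ Real.exp Real.pi *
      ∫ p : ℝ × ℝ, Real.exp (-(Real.pi * (p.1 - p.2) ^ 2 / r ^ 2)) ∂(μ.prod μ) := by
    have hint : Integrable (fun p : ℝ × ℝ => Real.exp (-(Real.pi * (p.1 - p.2) ^ 2 / r ^ 2)))
        (μ.prod μ) := by
      refine (integrable_const (1 : ℝ)).mono' (by fun_prop) (Eventually.of_forall fun p => ?_)
      rw [Real.norm_eq_abs, Real.abs_exp, Real.exp_le_one_iff]
      have : 0 ≤ Real.pi * (p.1 - p.2) ^ 2 / r ^ 2 := by positivity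
      linarith
    have h1 := mul_meas_ge_le_integral_of_nonneg (μ := μ.prod μ)
      (Eventually.of_forall fun p : ℝ × ℝ =>
        (Real.exp_pos (-(Real.pi * (p.1 - p.2) ^ 2 / r ^ 2))).le) hint (Real.exp (-Real.pi))
    have h2 : (μ.prod μ).real {p : ℝ × ℝ | |p.1 - p.2| ≤ r} ≤ (μ.prod μ).real
        {p : ℝ × ℝ | Real.exp (-Real.pi) ≤ Real.exp (-(Real.pi * (p.1 - p.2) ^ 2 / r ^ 2))} := by
      refine measureReal_mono (fun p hp => ?_) (measure_ne_top _ _)
      simp only [mem_ofPred_eq] at hp ⊢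
      rw [Real.exp_le_exp, neg_le_neg_iff, div_le_iff₀ (by positivity)]
      have h3 : (p.1 - p.2) ^ 2 ≤ r ^ 2 := sq_le_sq' (by linarith [abs_le.mp hp]) (abs_le.mp hp).2
      nlinarith [Real.pi_pos]
    have h3 : Real.exp Real.pi * Real.exp (-Real.pi) = 1 := by
      rw [← Real.exp_add]
      simp
    calc _ ≤ _ := h2
      _ = Real.exp Real.pi * (Real.exp (-Real.pi) * (μ.prod μ).real
        {p : ℝ × ℝ | Real.exp (-Real.pi) ≤ Real.exp (-(Real.pi * (p.1 - p.2) ^ 2 / r ^ 2))}) := by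
          rw [← mul_assoc, h3, one_mul]
      _ ≤ _ := mul_le_mul_of_nonneg_left h1 (Real.exp_pos _).le
  rw [swap μ h r hr] at hG
  have hr' : 0 < 1 / r := by positivity
  have hI : ∫ ξ : ℝ, ‖ft μ ξ‖ ^ 2 * Real.exp (-(Real.pi * r ^ 2) * ξ ^ 2) ≤
      ∫ ξ : ℝ, (C1 * H t (1 / r) |ξ| + C1 * r ^ t * Real.exp (-(Real.pi * r ^ 2) * ξ ^ 2)) := by
    apply integral_mono_of_nonneg
    · exact Eventually.of_forall fun ξ => by positivity
    · exact ((H_int t (1 / r) ht1 hr').const_mul _).add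
        ((integrable_exp_neg_mul_sq (by positivity)).const_mul _)
    · have h0 : ∀ᵐ ξ : ℝ, ξ ≠ 0 := by
        rw [ae_iff]
        simp
      filter_upwards [h0] with ξ hξ
      have hξ' : 0 < |ξ| := abs_pos.mpr hξ
      have he : Real.exp (-(Real.pi * r ^ 2) * ξ ^ 2) ≤ 1 := by
        rw [Real.exp_le_one_iff]
        have : 0 ≤ Real.pi * r ^ 2 * ξ ^ 2 := by positivity
        linarith
      have he0 := Real.exp_pos (-(Real.pi * r ^ 2) * ξ ^ 2)
      have h2 := hb ξ hξ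
      have h3 : 0 ≤ |ξ| ^ (-t) := by positivity
      by_cases h4 : |ξ| ≤ 1 / r
      · have h5 : H t (1 / r) |ξ| = |ξ| ^ (-t) := by simp only [H, h4, if_true]
        rw [h5]
        have h6 : 0 ≤ C1 * r ^ t * Real.exp (-(Real.pi * r ^ 2) * ξ ^ 2) := by positivity
        have h7 : ‖ft μ ξ‖ ^ 2 * Real.exp (-(Real.pi * r ^ 2) * ξ ^ 2) ≤ ‖ft μ ξ‖ ^ 2 :=
          mul_le_of_le_one_right (by positivity) he
        linarith
      · have h5 : H t (1 / r) |ξ| = 0 := by simp only [H, h4, if_false]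
        rw [h5, mul_zero, zero_add]
        apply mul_le_mul_of_nonneg_right _ he0.le
        refine h2.trans (mul_le_mul_of_nonneg_left ?_ (by positivity))
        push Not at h4
        have h6 : |ξ| ^ (-t) ≤ (1 / r) ^ (-t) :=
          Real.rpow_le_rpow_of_nonpos hr' h4.le (by linarith)
        have h7 : (1 / r) ^ (-t) = r ^ t := by
          rw [one_div, Real.inv_rpow hr.le, Real.rpow_neg hr.le, inv_inv]
        linarith
  have hJ : ∫ ξ : ℝ, (C1 * H t (1 / r) |ξ| + C1 * r ^ t * Real.exp (-(Real.pi * r ^ 2) * ξ ^ 2)) =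
      C1 * (2 * ((1 / r) ^ (1 - t) / (1 - t))) + C1 * r ^ t * (1 / r) := by
    rw [integral_add ((H_int t (1 / r) ht1 hr').const_mul _)
      ((integrable_exp_neg_mul_sq (by positivity)).const_mul _), integral_const_mul,
      integral_const_mul, H_integral t (1 / r) ht1 hr', integral_gaussian]
    congr 2
    have : Real.pi / (Real.pi * r ^ 2) = (1 / r) ^ 2 := by
      have := Real.pi_pos
      field_simp
    rw [this, Real.sqrt_sq hr'.le]
  have hK : r * (C1 * (2 * ((1 / r) ^ (1 - t) / (1 - t))) + C1 * r ^ t * (1 / r)) =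
      C1 * (2 / (1 - t) + 1) * r ^ t := by
    have h1 : (1 / r) ^ (1 - t) = r ^ t * (1 / r) := by
      rw [one_div, Real.inv_rpow hr.le, Real.rpow_sub hr, Real.rpow_one]
      field_simp
    rw [h1]
    have : 1 - t ≠ 0 := by linarith
    field_simp
  calc _ ≤ _ := hG
    _ ≤ Real.exp Real.pi * (r * (C1 * (2 * ((1 / r) ^ (1 - t) / (1 - t))) +
        C1 * r ^ t * (1 / r))) := by
      rw [← hJ]
      exact mul_le_mul_of_nonneg_left (mul_le_mul_of_nonneg_left hI hr.le) (Real.exp_pos _).le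
    _ = _ := by
      rw [hK]
      ring

end ENE

theorem t_ENE : S_ENE := ENE.t_ENE'

end Pool.Agent.N46.FD
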