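import Mathlib
import Pool.Agent.N46.FD.Stm

/-!
# FD/HOE (helper225): Hoeffding's inequality and a union bound
-/

set_option autoImplicit false

namespace Pool.Agent.N46.FD.HOE

open MeasureTheory Set Filter Topology ProbabilityTheory Pool.Agent.N46.FD

/-- the uniform probability measure on `(0, 1/2]` -/
noncomputable def nu : Measure ℝ := (2 : ENNReal) • (volume.restrict (Ioc (0 : ℝ) (1 / 2)))

instance nu_prob : IsProbabilityMeasure nu := by
  constructor
  rw [nu, Measure.smul_apply, Measure.restrict_apply MeasurableSet.univ, univ_inter,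
    Real.volume_Ioc, smul_eq_mul, sub_zero]
  rw [show (2 : ENNReal) = ENNReal.ofReal 2 by norm_num, ← ENNReal.ofReal_mul (by norm_num)]
  norm_num

theorem ee_norm (y : ℝ) : ‖ee y‖ = 1 := Complex.norm_exp_ofReal_mul_I _

theorem ee_cont : Continuous ee := by
  unfold ee
  fun_prop

theorem int_ee (ξ : ℝ) : ∫ s, ee (ξ * s) ∂nu = uh ξ := by
  rw [nu, integral_smul_measure, uh, intervalIntegral.integral_of_le (by norm_num)]
  norm_num

theorem uh_norm (ξ : ℝ) : ‖uh ξ‖ ≤ 1 := by
  rw [← int_ee]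
  have h := norm_integral_le_of_norm_le_const (μ := nu) (f := fun s => ee (ξ * s)) (C := 1)
    (Eventually.of_forall fun s => (ee_norm _).le)
  simpa using h

/-- the product measure -/
noncomputable def PP (V : Type) [Fintype V] : Measure (V → ℝ) := Measure.pi fun _ : V => nu

instance PP_prob (V : Type) [Fintype V] : IsProbabilityMeasure (PP V) := by
  unfold PP
  infer_instance

/-- Hoeffding -/
theorem hoeff (V : Type) [Fintype V] [Nonempty V] (f : V → ℝ → ℝ) (hf : ∀ v, Continuous (f v))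
    (hb : ∀ v s, |f v s| ≤ 2) (h0 : ∀ v, ∫ s, f v s ∂nu = 0) (y : ℝ) (hy : 0 ≤ y) :
    (PP V).real {t | y * √(Fintype.card V : ℝ) / 2 ≤ ∑ v, f v (t v)} ≤
      Real.exp (-(y ^ 2 / 32)) := by
  have hind : iIndepFun (fun (v : V) (t : V → ℝ) => f v (t v)) (PP V) :=
    iIndepFun_pi (X := fun v (s : ℝ) => f v s) (fun v => (hf v).measurable.aemeasurable)
  have hsub : ∀ v ∈ (Finset.univ : Finset V),
      HasSubgaussianMGF (fun t : V → ℝ => f v (t v))
        ((‖(2 : ℝ) - -2‖₊ / 2) ^ 2) (PP V) := by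
    intro v _
    apply hasSubgaussianMGF_of_mem_Icc_of_integral_eq_zero
    · exact ((hf v).measurable.comp (measurable_pi_apply v)).aemeasurable
    · exact Eventually.of_forall fun t => abs_le.1 (hb v (t v))
    · have h2 : ∫ t, f v (t v) ∂(PP V) = ∫ s, f v s ∂nu := by
        unfold PP
        exact integral_comp_eval (μ := fun _ : V => nu) (f := fun s : ℝ => f v s)
          (hf v).aestronglyMeasurable
      rw [h2, h0]
  have hlam : 0 ≤ y * √(Fintype.card V : ℝ) / 2 := by positivity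
  have h := HasSubgaussianMGF.measure_sum_ge_le_of_iIndepFun hind hsub hlam
  refine h.trans (Real.exp_le_exp.2 ?_)
  have hV : (0 : ℝ) < Fintype.card V := by exact_mod_cast Fintype.card_pos
  have h4 : (((∑ _v : V, (‖(2 : ℝ) - -2‖₊ / 2) ^ 2 : NNReal)) : ℝ) = 4 * Fintype.card V := by
    rw [Finset.sum_const, Finset.card_univ, nsmul_eq_mul]
    push_cast
    norm_num
    ring
  rw [h4, div_pow, mul_pow, Real.sq_sqrt hV.le]
  apply le_of_eq
  field_simp
  ring

/-- the four real functions -/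
noncomputable def L (k : Fin 4) : ℂ →L[ℝ] ℝ :=
  ![Complex.reCLM, -Complex.reCLM, Complex.imCLM, -Complex.imCLM] k

theorem L_le (k : Fin 4) (z : ℂ) : |L k z| ≤ ‖z‖ := by
  fin_cases k <;> simp [L, Complex.abs_re_le_norm, Complex.abs_im_le_norm]

theorem L_big (z : ℂ) (a : ℝ) (h : 2 * a < ‖z‖) : ∃ k, a ≤ L k z := by
  by_contra hcon
  push Not at hcon
  have h0 := hcon 0
  have h1 := hcon 1
  have h2 := hcon 2
  have h3 := hcon 3
  simp [L] at h0 h1 h2 h3
  have h4 := Complex.norm_le_abs_re_add_abs_im z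
  have h5 : |z.re| < a := abs_lt.2 ⟨by linarith, h0⟩
  have h6 : |z.im| < a := abs_lt.2 ⟨by linarith, h2⟩
  linarith

theorem mean (k : Fin 4) (c : ℂ) (ξ : ℝ) :
    ∫ s, L k (c * (ee (ξ * s) - uh ξ)) ∂nu = 0 := by
  have hc : Continuous fun s : ℝ => ee (ξ * s) := ee_cont.comp (by fun_prop)
  have h1 : Integrable (fun s : ℝ => ee (ξ * s)) nu :=
    Integrable.of_bound hc.aestronglyMeasurable 1 (Eventually.of_forall fun s => (ee_norm _).le)
  have h2 : Integrable (fun s : ℝ => c * (ee (ξ * s) - uh ξ)) nu :=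
    (h1.sub (integrable_const _)).const_mul c
  rw [ContinuousLinearMap.integral_comp_comm (L k) h2, integral_const_mul,
    integral_sub h1 (integrable_const _), int_ee]
  simp

end Pool.Agent.N46.FD.HOE

namespace Pool.Agent.N46.FD

open MeasureTheory Set Filter Topology ProbabilityTheory

theorem t_HOE : S_HOE := by
  intro V ι _ _ _ c ξ y hc hy hlt
  classical
  by_contra hcon
  push Not at hcon
  set F : ι → Fin 4 → V → ℝ → ℝ := fun i k v s => HOE.L k (c i v * (ee (ξ i * s) - uh (ξ i)))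
    with hF
  set B : ι × Fin 4 → Set (V → ℝ) := fun q =>
    {t | y * √(Fintype.card V : ℝ) / 2 ≤ ∑ v, F q.1 q.2 v (t v)} with hB
  have hone : ∀ q, (HOE.PP V).real (B q) ≤ Real.exp (-(y ^ 2 / 32)) := by
    intro q
    refine HOE.hoeff V (F q.1 q.2) ?_ ?_ ?_ y hy
    · intro v
      have := HOE.ee_cont
      exact (HOE.L q.2).continuous.comp (by fun_prop)
    · intro v s
      refine (HOE.L_le _ _).trans ?_
      rw [norm_mul]
      have h1 : ‖ee (ξ q.1 * s) - uh (ξ q.1)‖ ≤ 2 := by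
        refine (norm_sub_le _ _).trans ?_
        rw [HOE.ee_norm]
        linarith [HOE.uh_norm (ξ q.1)]
      calc ‖c q.1 v‖ * ‖ee (ξ q.1 * s) - uh (ξ q.1)‖ ≤ 1 * 2 :=
            mul_le_mul (hc _ _) h1 (norm_nonneg _) zero_le_one
        _ = 2 := by norm_num
    · intro v
      exact HOE.mean _ _ _
  have hun : (HOE.PP V).real (⋃ q, B q) ≤ 4 * (Fintype.card ι : ℝ) *
      Real.exp (-(y ^ 2 / 32)) := by
    refine (measureReal_iUnion_fintype_le _).trans ?_
    refine (Finset.sum_le_sum fun q _ => hone q).trans ?_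
    rw [Finset.sum_const, Finset.card_univ, Fintype.card_prod, Fintype.card_fin, nsmul_eq_mul]
    push_cast
    linarith
  have hae : ∀ᵐ t ∂(HOE.PP V), t ∈ ⋃ q, B q := by
    have h1 : ∀ᵐ s ∂HOE.nu, s ∈ Ioc (0 : ℝ) (1 / 2) := by
      unfold HOE.nu
      exact Measure.ae_smul_measure (ae_restrict_mem measurableSet_Ioc) 2
    have h2 : ∀ᵐ t ∂(HOE.PP V), ∀ v, t v ∈ Ioc (0 : ℝ) (1 / 2) := by
      rw [ae_all_iff]
      intro v
      exact (measurePreserving_eval (fun _ : V => HOE.nu) v).quasiMeasurePreserving.ae h1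
    filter_upwards [h2] with t ht
    obtain ⟨i, hi⟩ := hcon t fun v => ⟨(ht v).1.le, (ht v).2⟩
    obtain ⟨k, hk⟩ := HOE.L_big (∑ v, c i v * (ee (ξ i * t v) - uh (ξ i)))
      (y * √(Fintype.card V : ℝ) / 2) (by linarith)
    rw [mem_iUnion]
    refine ⟨(i, k), ?_⟩
    show y * √(Fintype.card V : ℝ) / 2 ≤
      ∑ v, HOE.L k (c i v * (ee (ξ i * t v) - uh (ξ i)))
    rwa [map_sum] at hk
  have h1 : (HOE.PP V) (⋃ q, B q) = 1 := by
    have h3 : (⋃ q, B q) =ᵐ[HOE.PP V] (univ : Set (V → ℝ)) := eventuallyEq_univ.2 hae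
    rw [measure_congr h3, measure_univ]
  have h2 : (HOE.PP V).real (⋃ q, B q) = 1 := by
    rw [Measure.real, h1, ENNReal.toReal_one]
  linarith

end Pool.Agent.N46.FD
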