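import Pool.Agent.N46.FD.Stm

/-!
# Project FD (helper46), leaf LIM: the measure on the Cantor set
-/

set_option autoImplicit false

namespace Pool.Agent.N46.FD

open MeasureTheory Set Filter Topology

noncomputable section

namespace LIM

/-- the uniform distribution on `Fin m` -/
def un (m : ℕ) [NeZero m] : Measure (Fin m) := (PMF.uniformOfFintype (Fin m)).toMeasure

instance (m : ℕ) [NeZero m] : IsProbabilityMeasure (un m) :=
  PMF.toMeasure.isProbabilityMeasure _

lemma un_singleton (m : ℕ) [NeZero m] (c : Fin m) : un m {c} = (m : ENNReal)⁻¹ := by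
  unfold un
  rw [PMF.toMeasure_apply_singleton _ _ (measurableSet_singleton c)]
  simp

/-- the uniform distribution on the infinite words -/
def PP (m : ℕ) [NeZero m] : Measure (ℕ → Fin m) := Measure.infinitePi (fun _ : ℕ => un m)

instance (m : ℕ) [NeZero m] : IsProbabilityMeasure (PP m) := by
  unfold PP
  infer_instance

lemma ini_meas {m : ℕ} (j : ℕ) : Measurable (fun w : ℕ → Fin m => ini w j) := by
  unfold ini
  fun_prop

lemma PP_ini (m : ℕ) [NeZero m] (j : ℕ) (u : Fin j → Fin m) :
    PP m ((fun w : ℕ → Fin m => ini w j) ⁻¹' {u}) = ((m : ENNReal)⁻¹) ^ j := by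
  have e : (fun w : ℕ → Fin m => ini w j) ⁻¹' {u} =
      Set.pi (Finset.range j : Set ℕ)
        (fun i => if h : i < j then ({u ⟨i, h⟩} : Set (Fin m)) else univ) := by
    ext w
    simp only [mem_preimage, mem_singleton_iff, Set.mem_pi, Finset.coe_range, mem_Iio]
    constructor
    · intro h i hi
      rw [dif_pos hi, mem_singleton_iff, ← h]
      rfl
    · intro h
      funext l
      have := h l l.2
      rw [dif_pos l.2, mem_singleton_iff] at this
      exact this
  rw [e]
  unfold PP
  rw [Measure.infinitePi_pi]
  · have : ∀ i ∈ Finset.range j, (un m) (if h : i < j then ({u ⟨i, h⟩} : Set (Fin m)) else univ)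
        = (m : ENNReal)⁻¹ := by
      intro i hi
      rw [dif_pos (Finset.mem_range.mp hi), un_singleton]
    rw [Finset.prod_congr rfl this]
    simp
  · intro i _
    exact MeasurableSet.of_discrete

lemma int_ini (m : ℕ) [NeZero m] (j : ℕ) (f : (Fin j → Fin m) → ℂ) :
    ∫ w, f (ini w j) ∂(PP m) = (1 / (m : ℂ) ^ j) * ∑ u, f u := by
  have hm : AEMeasurable (fun w : ℕ → Fin m => ini w j) (PP m) := (ini_meas j).aemeasurable
  have h1 : ∫ w, f (ini w j) ∂(PP m) = ∫ u, f u ∂((PP m).map (fun w => ini w j)) := by
    rw [integral_map hm]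
    exact (measurable_of_finite f).aestronglyMeasurable
  rw [h1]
  haveI : IsProbabilityMeasure ((PP m).map (fun w => ini w j)) :=
    Measure.isProbabilityMeasure_map hm
  rw [integral_fintype (Integrable.of_finite)]
  rw [Finset.mul_sum]
  refine Finset.sum_congr rfl fun u _ => ?_
  have h2 : ((PP m).map (fun w => ini w j)).real {u} = ((m : ℝ)⁻¹) ^ j := by
    rw [measureReal_def, Measure.map_apply (ini_meas j) (measurableSet_singleton u), PP_ini]
    simp
  rw [h2, Complex.real_smul]
  push_cast
  rw [one_div, inv_pow]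

lemma ee_cont : Continuous ee := by
  unfold ee
  fun_prop

end LIM

open LIM in
theorem t_LIM : S_LIM := by
  intro hUH hTOP m n x t hm hn hx ht
  haveI : NeZero m := ⟨by omega⟩
  have hc : Continuous (pt n x t) := hTOP.cont m n x t hn hx ht
  have hpm : Measurable (pt n x t) := hc.measurable
  refine ⟨(PP m).map (pt n x t), Measure.isProbabilityMeasure_map hpm.aemeasurable, ?_, ?_⟩
  · rw [Measure.map_apply hpm (isCompact_range hc).measurableSet]
    have : pt n x t ⁻¹' range (pt n x t) = univ := by
      ext w
      simp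
    rw [this]
    exact measure_univ
  · intro ξ
    have hft : ft ((PP m).map (pt n x t)) ξ = ∫ w, ee (ξ * pt n x t w) ∂(PP m) := by
      unfold ft
      rw [integral_map hpm.aemeasurable]
      exact (ee_cont.comp (continuous_const.mul continuous_id)).aestronglyMeasurable
    have hSS : ∀ j, SS n x t j ξ = ∫ w, ee (ξ * ps n x t j (ini w j)) ∂(PP m) := by
      intro j
      rw [int_ini m j (fun u => ee (ξ * ps n x t j u))]
      rfl
    have hint1 : ∀ j, Integrable (fun w => ee (ξ * ps n x t j (ini w j))) (PP m) := by
      intro j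
      have hmeas : Measurable (fun w : ℕ → Fin m => ee (ξ * ps n x t j (ini w j))) :=
        (measurable_of_finite (fun u : Fin j → Fin m => ee (ξ * ps n x t j u))).comp (ini_meas j)
      refine Integrable.of_bound hmeas.aestronglyMeasurable 1 ?_
      exact Eventually.of_forall fun w => (hUH.ee_norm _).le
    have hint2 : Integrable (fun w => ee (ξ * pt n x t w)) (PP m) := by
      have hmeas : Measurable (fun w : ℕ → Fin m => ee (ξ * pt n x t w)) :=
        (ee_cont.measurable.comp (hpm.const_mul ξ))
      refine Integrable.of_bound hmeas.aestronglyMeasurable 1 ?_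
      exact Eventually.of_forall fun w => (hUH.ee_norm _).le
    have hbd : ∀ j, ‖SS n x t j ξ - ft ((PP m).map (pt n x t)) ξ‖
        ≤ 7 * |ξ| * (1 / (n : ℝ)) ^ j := by
      intro j
      rw [hSS j, hft, ← integral_sub (hint1 j) hint2]
      have h1 : ∀ᵐ w ∂(PP m), ‖ee (ξ * ps n x t j (ini w j)) - ee (ξ * pt n x t w)‖
          ≤ 7 * |ξ| * (1 / (n : ℝ)) ^ j := by
        refine Eventually.of_forall fun w => ?_
        refine (hUH.ee_lip _ _).trans ?_
        have h2 := hTOP.near m n x t hn hx ht w j
        rw [← mul_sub, abs_mul, ← mul_assoc]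
        apply mul_le_mul_of_nonneg_left _ (by positivity)
        rw [abs_le]
        constructor
        · linarith [h2.2]
        · have : 0 ≤ (1 / (n : ℝ)) ^ j := by positivity
          linarith [h2.1]
      have h3 := norm_integral_le_of_norm_le_const h1
      simpa using h3
    rw [tendsto_iff_norm_sub_tendsto_zero]
    refine squeeze_zero (fun j => norm_nonneg _) hbd ?_
    have hn' : (4 : ℝ) ≤ n := by exact_mod_cast hn
    have h4 : Tendsto (fun j : ℕ => (1 / (n : ℝ)) ^ j) atTop (𝓝 0) :=
      tendsto_pow_atTop_nhds_zero_of_lt_one (by positivity)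
        (by rw [div_lt_one (by linarith)]; linarith)
    simpa using h4.const_mul (7 * |ξ|)

end

end Pool.Agent.N46.FD
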