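import Pool.Agent.N46.FD.Stm

/-!
Project FD, leaf MAS: mass distribution (helper99).
-/

set_option autoImplicit false

namespace Pool.Agent.N46.FD

open MeasureTheory Set Filter Topology

namespace MAS

theorem meas_strip (r : ℝ) : MeasurableSet {p : ℝ × ℝ | |p.1 - p.2| ≤ r} :=
  (isClosed_le (by fun_prop) continuous_const).measurableSet

/-- the main step: a set of positive measure on which the measure satisfies a Frostman bound -/
theorem exists_good (μ : Measure ℝ) [IsProbabilityMeasure μ] (t t1 C' : ℝ) (h2 : t1 < t)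
    (h : ∀ r : ℝ, 0 < r → r ≤ 1 → (μ.prod μ).real {p : ℝ × ℝ | |p.1 - p.2| ≤ r} ≤ C' * r ^ t) :
    ∃ (G : Set ℝ) (M : ℕ), MeasurableSet G ∧ 0 < μ G ∧ ∀ x ∈ G, ∀ k : ℕ,
      μ {y | |x - y| ≤ (1 / 2 : ℝ) ^ k} ≤ (M : ENNReal) * ENNReal.ofReal ((((2 : ℝ) ^ t1) ^ k)⁻¹) := by
  classical
  obtain ⟨W, hW⟩ : ∃ W : ℕ → ℝ → ENNReal, W = fun k x => μ {y | |x - y| ≤ (1 / 2 : ℝ) ^ k} :=
    ⟨_, rfl⟩
  have hWm : ∀ k, Measurable (W k) := by
    intro k
    rw [hW]
    exact measurable_measure_prodMk_left (meas_strip ((1 / 2 : ℝ) ^ k))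
  have hWi : ∀ k, ∫⁻ x, W k x ∂μ ≤ ENNReal.ofReal (C' * ((1 / 2 : ℝ) ^ k) ^ t) := by
    intro k
    have e1 : ∫⁻ x, W k x ∂μ = (μ.prod μ) {p : ℝ × ℝ | |p.1 - p.2| ≤ (1 / 2 : ℝ) ^ k} := by
      rw [Measure.prod_apply (meas_strip _), hW]
      rfl
    rw [e1, ← ENNReal.ofReal_toReal (measure_ne_top (μ.prod μ) _)]
    exact ENNReal.ofReal_le_ofReal
      (h _ (by positivity) (pow_le_one₀ (by norm_num) (by norm_num)))
  have hC' : 0 ≤ C' := by
    have h3 := h 1 one_pos le_rfl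
    rw [Real.one_rpow, mul_one] at h3
    exact measureReal_nonneg.trans h3
  obtain ⟨b, hb⟩ : ∃ b : ℝ, b = (2 : ℝ) ^ t1 := ⟨_, rfl⟩
  have hb0 : 0 < b := by rw [hb]; positivity
  obtain ⟨F, hF⟩ : ∃ F : ℝ → ENNReal, F = fun x => ∑' k, ENNReal.ofReal (b ^ k) * W k x :=
    ⟨_, rfl⟩
  have hFm : Measurable F := by
    rw [hF]
    exact Measurable.tsum fun k => (hWm k).const_mul _
  have hFi : ∫⁻ x, F x ∂μ ≠ ⊤ := by
    rw [hF, lintegral_tsum (fun k => ((hWm k).const_mul _).aemeasurable)]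
    obtain ⟨q, hq⟩ : ∃ q : ℝ, q = b * (1 / 2 : ℝ) ^ t := ⟨_, rfl⟩
    have hq0 : 0 ≤ q := by rw [hq]; positivity
    have hq1 : q < 1 := by
      have e1 : q = (2 : ℝ) ^ (t1 - t) := by
        rw [hq, hb, one_div, Real.inv_rpow (by norm_num), Real.rpow_sub (by norm_num)]
        rfl
      rw [e1]
      exact Real.rpow_lt_one_of_one_lt_of_neg (by norm_num) (by linarith)
    have e2 : ∀ k, ∫⁻ x, ENNReal.ofReal (b ^ k) * W k x ∂μ ≤ ENNReal.ofReal (C' * q ^ k) := by
      intro k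
      rw [lintegral_const_mul _ (hWm k)]
      calc ENNReal.ofReal (b ^ k) * ∫⁻ x, W k x ∂μ
          ≤ ENNReal.ofReal (b ^ k) * ENNReal.ofReal (C' * ((1 / 2 : ℝ) ^ k) ^ t) := by
            gcongr
            exact hWi k
        _ = ENNReal.ofReal (C' * q ^ k) := by
            rw [← ENNReal.ofReal_mul (by positivity)]
            congr 1
            rw [hq, mul_pow, ← Real.rpow_natCast (1 / 2 : ℝ) k, ← Real.rpow_mul (by norm_num),
              mul_comm (k : ℝ) t, Real.rpow_mul (by norm_num), Real.rpow_natCast]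
            ring
    refine ne_top_of_le_ne_top ?_ (ENNReal.tsum_le_tsum e2)
    rw [← ENNReal.ofReal_tsum_of_nonneg (fun k => by positivity)
      ((summable_geometric_of_lt_one hq0 hq1).mul_left C')]
    exact ENNReal.ofReal_ne_top
  have hae : ∀ᵐ x ∂μ, F x < ⊤ := ae_lt_top hFm hFi
  have hex : ∃ M : ℕ, 0 < μ {x | F x ≤ M} := by
    by_contra hno
    push Not at hno
    have h3 : μ (⋃ M : ℕ, {x | F x ≤ M}) = 0 := by
      rw [measure_iUnion_null_iff]
      intro M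
      exact le_antisymm (hno M) bot_le
    have h4 : ∀ᵐ x ∂μ, x ∉ ⋃ M : ℕ, {x | F x ≤ M} := measure_eq_zero_iff_ae_notMem.1 h3
    obtain ⟨x, hx1, hx2⟩ := (hae.and h4).exists
    apply hx2
    obtain ⟨M, hM⟩ := ENNReal.exists_nat_gt hx1.ne
    exact mem_iUnion.2 ⟨M, hM.le⟩
  obtain ⟨M, hM⟩ := hex
  refine ⟨{x | F x ≤ M}, M, measurableSet_le hFm measurable_const, hM, fun x hx k => ?_⟩
  have h5 : ENNReal.ofReal (b ^ k) * W k x ≤ M := by
    have h7 : F x ≤ M := hx
    rw [hF] at h7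
    exact (ENNReal.le_tsum (f := fun k => ENNReal.ofReal (b ^ k) * W k x) k).trans h7
  have h6 : W k x = μ {y | |x - y| ≤ (1 / 2 : ℝ) ^ k} := by rw [hW]
  rw [← h6, ← hb, ENNReal.ofReal_inv_of_pos (by positivity), ← div_eq_mul_inv,
    ENNReal.le_div_iff_mul_le (Or.inl (by
      rw [ne_eq, ENNReal.ofReal_eq_zero, not_le]; positivity)) (Or.inl ENNReal.ofReal_ne_top),
    mul_comm]
  exact h5

theorem core (μ : Measure ℝ) [IsProbabilityMeasure μ] (t t1 C' : ℝ) (h1 : 0 < t1) (h2 : t1 < t)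
    (h : ∀ r : ℝ, 0 < r → r ≤ 1 → (μ.prod μ).real {p : ℝ × ℝ | |p.1 - p.2| ≤ r} ≤ C' * r ^ t)
    (E : Set ℝ) (hE : MeasurableSet E) (hμE : μ E = 1) : ENNReal.ofReal t1 ≤ dimH E := by
  obtain ⟨G, M, hG, hG0, hGM⟩ := exists_good μ t t1 C' h2 h
  obtain ⟨b, hb⟩ : ∃ b : ℝ, b = (2 : ℝ) ^ t1 := ⟨_, rfl⟩
  have hb1 : 1 < b := by rw [hb]; exact Real.one_lt_rpow (by norm_num) h1
  have hb0 : 0 < b := by linarith
  rw [← hb] at hGM
  -- the bound for sets of small diameter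
  have key : ∀ U : Set ℝ, Metric.ediam U ≤ 1 →
      μ (U ∩ G) ≤ ((M : ENNReal) * ENNReal.ofReal b + 1) * Metric.ediam U ^ t1 := by
    intro U hU
    rcases (U ∩ G).eq_empty_or_nonempty with he | ⟨x, hxU, hxG⟩
    · rw [he, measure_empty]
      exact bot_le
    have hfin : Metric.ediam U ≠ ⊤ := ne_top_of_le_ne_top ENNReal.one_ne_top hU
    obtain ⟨d, hd⟩ : ∃ d : ℝ, d = (Metric.ediam U).toReal := ⟨_, rfl⟩
    have hdU : Metric.ediam U = ENNReal.ofReal d := by rw [hd, ENNReal.ofReal_toReal hfin]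
    have hd0 : 0 ≤ d := by rw [hd]; exact ENNReal.toReal_nonneg
    have hd1 : d ≤ 1 := by
      rw [hd]
      exact ENNReal.toReal_le_of_le_ofReal zero_le_one (by rwa [ENNReal.ofReal_one])
    have hsub : ∀ r : ℝ, d ≤ r → U ∩ G ⊆ {y | |x - y| ≤ r} := by
      intro r hr y hy
      have h3 : edist x y ≤ Metric.ediam U := Metric.edist_le_ediam_of_mem hxU hy.1
      rw [hdU, edist_dist, ENNReal.ofReal_le_ofReal_iff hd0, Real.dist_eq] at h3
      exact h3.trans hr
    rcases hd0.eq_or_lt with hz | hpos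
    · -- diameter zero
      have h3 : μ (U ∩ G) = 0 := by
        have h4 : ∀ k : ℕ, μ (U ∩ G) ≤ (M : ENNReal) * ENNReal.ofReal ((b ^ k)⁻¹) := by
          intro k
          refine (measure_mono (hsub _ ?_)).trans (hGM x hxG k)
          rw [← hz]
          positivity
        have h5 : Tendsto (fun k : ℕ => (M : ENNReal) * ENNReal.ofReal ((b ^ k)⁻¹)) atTop (𝓝 0) := by
          have h6 : Tendsto (fun k : ℕ => ENNReal.ofReal ((b ^ k)⁻¹)) atTop (𝓝 0) := by
            rw [← ENNReal.ofReal_zero]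
            exact ENNReal.tendsto_ofReal (tendsto_inv_atTop_zero.comp
              (tendsto_pow_atTop_atTop_of_one_lt hb1))
          have h7 := ENNReal.Tendsto.const_mul h6 (Or.inr (ENNReal.natCast_ne_top M))
          rwa [mul_zero] at h7
        exact le_antisymm (ge_of_tendsto' h5 h4) bot_le
      rw [h3]
      exact bot_le
    · obtain ⟨k, hk1, hk2⟩ := exists_nat_pow_near_of_lt_one hpos hd1
        (show (0 : ℝ) < 1 / 2 by norm_num) (by norm_num)
      have h3 : μ (U ∩ G) ≤ (M : ENNReal) * ENNReal.ofReal ((b ^ k)⁻¹) :=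
        (measure_mono (hsub _ hk2)).trans (hGM x hxG k)
      have h4 : (b ^ k)⁻¹ ≤ b * d ^ t1 := by
        have h5 : ((1 / 2 : ℝ) ^ (k + 1)) ^ t1 ≤ d ^ t1 :=
          Real.rpow_le_rpow (by positivity) hk1.le h1.le
        have h6 : ((1 / 2 : ℝ) ^ (k + 1)) ^ t1 = (b ^ (k + 1))⁻¹ := by
          rw [hb, one_div, ← Real.rpow_natCast, ← Real.rpow_mul (by norm_num),
            mul_comm, Real.rpow_mul (by norm_num), Real.rpow_natCast, Real.inv_rpow (by norm_num),
            inv_pow]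
        rw [h6] at h5
        calc (b ^ k)⁻¹ = b * (b ^ (k + 1))⁻¹ := by
              rw [pow_succ]
              field_simp
          _ ≤ b * d ^ t1 := mul_le_mul_of_nonneg_left h5 hb0.le
      calc μ (U ∩ G) ≤ (M : ENNReal) * ENNReal.ofReal ((b ^ k)⁻¹) := h3
        _ ≤ (M : ENNReal) * ENNReal.ofReal (b * d ^ t1) := by gcongr
        _ = (M : ENNReal) * ENNReal.ofReal b * Metric.ediam U ^ t1 := by
            rw [ENNReal.ofReal_mul hb0.le, hdU, ENNReal.ofReal_rpow_of_nonneg hd0 h1.le, mul_assoc]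
        _ ≤ ((M : ENNReal) * ENNReal.ofReal b + 1) * Metric.ediam U ^ t1 := by
            gcongr
            exact le_self_add
  obtain ⟨C, hC⟩ : ∃ C : ENNReal, C = (M : ENNReal) * ENNReal.ofReal b + 1 := ⟨_, rfl⟩
  rw [← hC] at key
  have hC0 : C ≠ 0 := by rw [hC]; exact (lt_of_lt_of_le one_pos le_add_self).ne'
  have hCt : C ≠ ⊤ := by
    rw [hC]
    exact ENNReal.add_ne_top.2 ⟨ENNReal.mul_ne_top (ENNReal.natCast_ne_top M)
      ENNReal.ofReal_ne_top, ENNReal.one_ne_top⟩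
  have hle : C⁻¹ • μ.restrict G ≤ Measure.hausdorffMeasure t1 := by
    refine Measure.le_hausdorffMeasure t1 _ 1 one_pos fun U hU => ?_
    rw [Measure.smul_apply, smul_eq_mul, Measure.restrict_apply' hG]
    calc C⁻¹ * μ (U ∩ G) ≤ C⁻¹ * (C * Metric.ediam U ^ t1) := by
          gcongr
          exact key U hU
      _ = Metric.ediam U ^ t1 := by
          rw [← mul_assoc, ENNReal.inv_mul_cancel hC0 hCt, one_mul]
  have hEG : 0 < μ (E ∩ G) := by
    have h3 : μ (E ∩ G) = μ G := by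
      have h4 : μ Eᶜ = 0 := by
        rw [prob_compl_eq_zero_iff hE]
        exact hμE
      refine le_antisymm (measure_mono inter_subset_right) ?_
      calc μ G ≤ μ (E ∩ G ∪ Eᶜ) := by
            refine measure_mono fun x hx => ?_
            by_cases hxE : x ∈ E
            · exact Or.inl ⟨hxE, hx⟩
            · exact Or.inr hxE
        _ ≤ μ (E ∩ G) + μ Eᶜ := measure_union_le _ _
        _ = μ (E ∩ G) := by rw [h4, add_zero]
    rw [h3]
    exact hG0
  have hH : Measure.hausdorffMeasure t1 E ≠ 0 := by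
    have h3 := Measure.le_iff'.1 hle E
    rw [Measure.smul_apply, smul_eq_mul, Measure.restrict_apply' hG] at h3
    have h4 : 0 < C⁻¹ * μ (E ∩ G) := ENNReal.mul_pos (ENNReal.inv_ne_zero.2 hCt) hEG.ne'
    exact (lt_of_lt_of_le h4 h3).ne'
  have hcoe : ((Real.toNNReal t1 : NNReal) : ℝ) = t1 := Real.coe_toNNReal _ h1.le
  have := le_dimH_of_hausdorffMeasure_ne_zero (s := E) (d := Real.toNNReal t1)
    (by rw [hcoe]; exact hH)
  exact this

end MAS

/-- MAS: mass distribution -/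
theorem t_MAS : S_MAS := by
  intro μ _ t C' ht h E hE hμE
  by_contra hlt
  rw [not_le] at hlt
  have hfin : dimH E ≠ ⊤ := ne_top_of_lt hlt
  obtain ⟨a, ha⟩ : ∃ a : ℝ, a = (dimH E).toReal := ⟨_, rfl⟩
  have haE : dimH E = ENNReal.ofReal a := by rw [ha, ENNReal.ofReal_toReal hfin]
  have ha0 : 0 ≤ a := by rw [ha]; exact ENNReal.toReal_nonneg
  rw [haE, ENNReal.ofReal_lt_ofReal_iff ht] at hlt
  have h1 := MAS.core μ t ((a + t) / 2) C' (by linarith) (by linarith) h E hE hμE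
  rw [haE, ENNReal.ofReal_le_ofReal_iff ha0] at h1
  linarith

end Pool.Agent.N46.FD
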