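import Mathlib
import Pool.Agent.N46.FD.Stm

/-!
# Project FD, leaf PAR: the choice of the scales
-/

set_option autoImplicit false

namespace Pool.Agent.N46.FD

namespace PAR

theorem pow_le {M : ℕ → ℕ} (h1 : ∀ n, 1 ≤ n → 1 ≤ M n ∧ M n ≤ n)
    (hm : ∀ n m, 1 ≤ n → 1 ≤ m → M (n * m) ≤ M n * M m) {b : ℕ} (hb : 1 ≤ b) (i : ℕ) :
    M (b ^ i) ≤ M b ^ i := by
  induction i with
  | zero => simpa using (h1 1 le_rfl).2
  | succ i ih =>
    rw [pow_succ, pow_succ]
    exact (hm _ _ (Nat.one_le_pow _ _ hb) hb).trans (Nat.mul_le_mul_right _ ih)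

theorem log_pow_le {M : ℕ → ℕ} (h1 : ∀ n, 1 ≤ n → 1 ≤ M n ∧ M n ≤ n)
    (hm : ∀ n m, 1 ≤ n → 1 ≤ m → M (n * m) ≤ M n * M m) {b : ℕ} (hb : 1 ≤ b) (i : ℕ) :
    Real.log (M (b ^ i)) ≤ i * Real.log (M b) := by
  have h2 : (0 : ℝ) < M (b ^ i) := by
    exact_mod_cast (h1 _ (Nat.one_le_pow _ _ hb)).1
  have h3 : ((M (b ^ i) : ℕ) : ℝ) ≤ (M b : ℝ) ^ i := by
    exact_mod_cast pow_le h1 hm hb i
  have h4 := Real.log_le_log h2 h3
  rwa [Real.log_pow] at h4

end PAR

open PAR in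
theorem t_PAR : S_PAR := by
  intro M A σ δ h1 hm hA hδ hδσ hlow hup
  -- the exponent is at most one
  have hσ0 : 0 < σ := hδ.trans hδσ
  have hσ1 : σ ≤ 1 := by
    have h2 := hlow 2 le_rfl
    have h3 : Real.log (M 2) ≤ Real.log (2 : ℕ) := by
      apply Real.log_le_log
      · exact_mod_cast (h1 2 (by norm_num)).1
      · exact_mod_cast (h1 2 (by norm_num)).2
    have h4 : 0 < Real.log ((2 : ℕ) : ℝ) := Real.log_pos (by norm_num)
    by_contra hc
    push Not at hc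
    have h5 : 1 * Real.log ((2 : ℕ) : ℝ) < σ * Real.log ((2 : ℕ) : ℝ) :=
      mul_lt_mul_of_pos_right hc h4
    linarith
  set τ : ℝ := δ / 3 with hτ
  have hτ0 : 0 < τ := by rw [hτ]; linarith
  have hτ1 : τ ≤ 1 := by rw [hτ]; linarith
  set δ' : ℝ := τ * σ / 2 with hδ'
  have hδ'0 : 0 < δ' := by rw [hδ']; positivity
  obtain ⟨b, hb2, hbM⟩ := hup (σ + δ') (by linarith)
  have hb1 : 1 ≤ b := by omega
  set L : ℝ := Real.log (b : ℝ) with hL
  have hL0 : 0 < L := Real.log_pos (by exact_mod_cast hb2)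
  have hlA : 0 ≤ Real.log (A : ℝ) := Real.log_nonneg (by exact_mod_cast hA)
  obtain ⟨J, hJ⟩ := exists_nat_gt (2 + Real.log A / (L * τ * σ / 2) +
    (Real.log A + L) / (2 * δ / 3 * L))
  have hp1 : 0 ≤ Real.log A / (L * τ * σ / 2) := by positivity
  have hp2 : 0 ≤ (Real.log A + L) / (2 * δ / 3 * L) := by positivity
  have hJ2' : (2 : ℝ) < J := by linarith
  have hJ2 : 2 ≤ J := by
    have : 2 < J := by exact_mod_cast hJ2'
    omega
  have hJA : Real.log A ≤ J * (L * τ * σ / 2) := by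
    rw [← div_le_iff₀ (by positivity)]
    linarith
  have hJB : Real.log A + L < J * (2 * δ / 3 * L) := by
    rw [← div_lt_iff₀ (by positivity)]
    linarith
  set T : ℕ := ⌈τ * J⌉₊ with hT
  have hT1 : τ * J ≤ T := Nat.le_ceil _
  have hT2 : (T : ℝ) < τ * J + 1 := Nat.ceil_lt_add_one (by positivity)
  have hTJ : T ≤ J := by
    rw [hT, Nat.ceil_le]
    have : τ * (J : ℝ) ≤ 1 * J := mul_le_mul_of_nonneg_right hτ1 (by positivity)
    linarith
  have hJT : ((J - T : ℕ) : ℝ) = J - T := by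
    rw [Nat.cast_sub hTJ]
  have hmul : b ^ (J - T) * b ^ T = b ^ J := by
    rw [← pow_add]; congr 1; omega
  have hlowJ : σ * (J * L) ≤ Real.log (M (b ^ J)) := by
    have h2 : 2 ≤ b ^ J := le_trans hb2 (Nat.le_self_pow (by omega) b)
    have h3 := hlow (b ^ J) h2
    rwa [Nat.cast_pow, Real.log_pow] at h3
  have hupJ : Real.log (M (b ^ (J - T))) ≤ (J - T) * ((σ + δ') * L) := by
    have h2 := log_pow_le h1 hm hb1 (J - T)
    rw [hJT] at h2
    refine h2.trans (mul_le_mul_of_nonneg_left hbM ?_)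
    rw [← hJT]
    positivity
  have hposM : ∀ i : ℕ, (0 : ℝ) < M (b ^ i) := fun i => by
    exact_mod_cast (h1 _ (Nat.one_le_pow _ _ hb1)).1
  refine ⟨b ^ (J - T), b ^ T, Nat.one_le_pow _ _ hb1, Nat.one_le_pow _ _ hb1, ?_, ?_, ?_⟩
  · rw [hmul]
    calc 4 = 2 ^ 2 := by norm_num
      _ ≤ b ^ 2 := Nat.pow_le_pow_left hb2 2
      _ ≤ b ^ J := Nat.pow_le_pow_right hb1 hJ2
  · rw [hmul]
    have hA0 : (0 : ℝ) < A := by exact_mod_cast hA
    have h2 : Real.log ((A : ℝ) * M (b ^ (J - T))) ≤ Real.log (M (b ^ J)) := by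
      rw [Real.log_mul hA0.ne' (hposM _).ne']
      have h3 : Real.log A + (J - T) * ((σ + δ') * L) ≤ σ * (J * L) := by
        have h4 : 0 ≤ (T - τ * J) * ((σ + δ') * L) :=
          mul_nonneg (by linarith) (by positivity)
        have h5 : (J : ℝ) * (L * τ * σ / 2) = J * δ' * L := by rw [hδ']; ring
        have h6 : 0 ≤ τ * J * δ' * L := by positivity
        have h7 : τ * J * σ * L = 2 * (J * δ' * L) := by rw [hδ']; ring
        nlinarith
      linarith
    have h3 := (Real.log_le_log_iff (by have := hposM (J - T); positivity) (hposM J)).1 h2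
    exact_mod_cast h3
  · intro m hmm
    rw [hmul] at hmm ⊢
    have hm0 : 1 ≤ m := by
      by_contra hc
      have : m = 0 := by omega
      subst this
      have := (h1 (b ^ J) (Nat.one_le_pow _ _ hb1)).1
      omega
    have hA0 : (0 : ℝ) < A := by exact_mod_cast hA
    have hm0' : (0 : ℝ) < m := by exact_mod_cast hm0
    have hq0 : (0 : ℝ) < (b : ℝ) ^ T := by
      have : (0 : ℝ) < b := by exact_mod_cast hb1
      positivity
    have h2 : (M (b ^ J) : ℝ) ≤ A * (b : ℝ) ^ T * m := by exact_mod_cast hmm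
    have h3 := Real.log_le_log (hposM J) h2
    rw [Real.log_mul (by positivity) hm0'.ne', Real.log_mul hA0.ne' hq0.ne', Real.log_pow] at h3
    rw [Nat.cast_pow, Real.log_pow]
    have h4 : (T : ℝ) * L ≤ (τ * J + 1) * L := mul_le_mul_of_nonneg_right hT2.le hL0.le
    have h5 : (J : ℝ) * (2 * δ / 3 * L) = δ * (J * L) - τ * J * L := by rw [hτ]; ring
    have h6 : (σ - δ) * (J * L) = σ * (J * L) - δ * (J * L) := by ring
    rw [← hL] at h3 ⊢
    rw [h6]
    linarith

end Pool.Agent.N46.FD
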