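import Mathlib
import Pool.Agent.N46.FD.Stm

/-!
# FD/REC: the recursion for the exponential sums
-/

set_option autoImplicit false

namespace Pool.Agent.N46.FD

namespace REC

open Finset

variable {m : ℕ}

lemma seg_snoc {j : ℕ} (u : Fin j → Fin m) (c : Fin m) (i : Fin j) :
    seg (Fin.snoc (α := fun _ => Fin m) u c : Fin (j + 1) → Fin m) (Fin.castSucc i) = seg u i := by
  funext l
  have hl : (l : ℕ) < j := l.2.trans i.2
  show (Fin.snoc (α := fun _ => Fin m) u c : Fin (j + 1) → Fin m) ⟨l, _⟩ = u ⟨l, _⟩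
  rw [Fin.snoc, dif_pos hl]
  rfl

lemma seg_snoc_last {j : ℕ} (u : Fin j → Fin m) (c : Fin m) :
    seg (Fin.snoc (α := fun _ => Fin m) u c : Fin (j + 1) → Fin m) (Fin.last j) = u := by
  funext l
  have hl : (l : ℕ) < j := l.2
  show (Fin.snoc (α := fun _ => Fin m) u c : Fin (j + 1) → Fin m) ⟨l, _⟩ = u l
  rw [Fin.snoc, dif_pos hl]
  rfl

lemma ps_snoc (n : ℕ) (x : Fin m → ℝ) (t : ∀ j : ℕ, (Fin j → Fin m) → ℝ) {j : ℕ}
    (u : Fin j → Fin m) (c : Fin m) :
    ps n x t (j + 1) (Fin.snoc (α := fun _ => Fin m) u c) =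
      ps n x t j u + (1 / (n : ℝ)) ^ j * (t j u + x c) := by
  unfold ps
  rw [Fin.sum_univ_castSucc]
  congr 1
  · refine Finset.sum_congr rfl fun i _ => ?_
    rw [Fin.snoc_castSucc]
    congr 2
    exact congrArg (t i) (seg_snoc u c i)
  · rw [Fin.snoc_last]
    congr 2
    exact congrArg (t j) (seg_snoc_last u c)

lemma sum_snoc {j : ℕ} (f : (Fin (j + 1) → Fin m) → ℂ) :
    ∑ u, f u = ∑ u : Fin j → Fin m, ∑ c : Fin m, f (Fin.snoc (α := fun _ => Fin m) u c) := by
  rw [← (Fin.snocEquiv (fun _ => Fin m)).sum_comp f, Fintype.sum_prod_type_right]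
  rfl

end REC

theorem t_REC (h : S_UH) (h2 : S_TOP) : S_REC where
  zero := by
    intro m n x t ξ
    unfold SS
    have h0 : ∀ u : Fin 0 → Fin m, ps n x t 0 u = 0 := fun u => by simp [ps]
    simp only [h0, mul_zero, Finset.sum_const, Finset.card_univ, Fintype.card_fun, Fintype.card_fin,
      pow_zero, one_smul, div_one, one_mul]
    exact h.ee_norm 0
  two := by
    intro m n x t hm j ξ
    unfold DD
    have hm0 : (0 : ℝ) < (m : ℝ) ^ j := by positivity
    rw [norm_mul]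
    have h1 : ‖∑ u : Fin j → Fin m, ee (ξ * ps n x t j u) *
        (ee (ξ * (1 / (n : ℝ)) ^ j * t j u) - uh (ξ * (1 / (n : ℝ)) ^ j))‖ ≤ (m : ℝ) ^ j * 2 := by
      refine (norm_sum_le _ _).trans ?_
      have h3 : ∀ u ∈ (Finset.univ : Finset (Fin j → Fin m)), ‖ee (ξ * ps n x t j u) *
          (ee (ξ * (1 / (n : ℝ)) ^ j * t j u) - uh (ξ * (1 / (n : ℝ)) ^ j))‖ ≤ 2 := by
        intro u _
        rw [norm_mul, h.ee_norm, one_mul]
        refine (norm_sub_le _ _).trans ?_
        rw [h.ee_norm]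
        linarith [h.one (ξ * (1 / (n : ℝ)) ^ j)]
      refine (Finset.sum_le_sum h3).trans (le_of_eq ?_)
      rw [Finset.sum_const, Finset.card_univ, Fintype.card_fun, Fintype.card_fin, Fintype.card_fin,
        nsmul_eq_mul]
      push_cast
      ring
    have h4 : ‖(1 / (m : ℂ) ^ j)‖ = 1 / (m : ℝ) ^ j := by
      rw [norm_div, norm_pow, norm_one, Complex.norm_natCast]
    rw [h4]
    calc 1 / (m : ℝ) ^ j * _ ≤ 1 / (m : ℝ) ^ j * ((m : ℝ) ^ j * 2) := by gcongr
      _ = 2 := by field_simp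
  succ := by
    intro m n x t hm j ξ
    have hmc : (m : ℂ) ≠ 0 := by
      have : m ≠ 0 := by omega
      exact_mod_cast this
    have key : SS n x t (j + 1) ξ =
        (uh (ξ * (1 / (n : ℝ)) ^ j) * SS n x t j ξ + DD n x t j ξ) *
          ((1 / (m : ℂ)) * ∑ c : Fin m, ee (ξ * (1 / (n : ℝ)) ^ j * x c)) := by
      have e1 : uh (ξ * (1 / (n : ℝ)) ^ j) * SS n x t j ξ + DD n x t j ξ =
          (1 / (m : ℂ) ^ j) * ∑ u : Fin j → Fin m, ee (ξ * ps n x t j u) *
            ee (ξ * (1 / (n : ℝ)) ^ j * t j u) := by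
        unfold SS DD
        rw [mul_left_comm, ← mul_add, Finset.mul_sum, ← Finset.sum_add_distrib]
        congr 1
        refine Finset.sum_congr rfl fun u _ => ?_
        ring
      rw [e1]
      unfold SS
      rw [REC.sum_snoc, pow_succ]
      have e2 : ∀ (u : Fin j → Fin m) (c : Fin m),
          ee (ξ * ps n x t (j + 1) (Fin.snoc (α := fun _ => Fin m) u c)) =
            ee (ξ * ps n x t j u) * ee (ξ * (1 / (n : ℝ)) ^ j * t j u) *
              ee (ξ * (1 / (n : ℝ)) ^ j * x c) := by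
        intro u c
        rw [REC.ps_snoc, ← h.ee_add, ← h.ee_add]
        congr 1
        ring
      simp only [e2]
      simp only [← Finset.mul_sum]
      rw [← Finset.sum_mul]
      field_simp
    have h1 : ‖(1 / (m : ℂ)) * ∑ c : Fin m, ee (ξ * (1 / (n : ℝ)) ^ j * x c)‖ ≤ 1 := by
      rw [norm_mul, norm_div, norm_one, Complex.norm_natCast]
      have h3 : ‖∑ c : Fin m, ee (ξ * (1 / (n : ℝ)) ^ j * x c)‖ ≤ m := by
        refine (norm_sum_le _ _).trans ?_
        simp only [h.ee_norm, Finset.sum_const, Finset.card_univ, Fintype.card_fin, nsmul_eq_mul,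
          mul_one]
        exact le_rfl
      have hm0 : (0 : ℝ) < m := by exact_mod_cast hm
      calc 1 / (m : ℝ) * _ ≤ 1 / (m : ℝ) * m := by gcongr
        _ = 1 := by field_simp
    rw [key, norm_mul]
    have h5 : ‖uh (ξ * (1 / (n : ℝ)) ^ j) * SS n x t j ξ + DD n x t j ξ‖ ≤
        ‖uh (ξ * (1 / (n : ℝ)) ^ j)‖ * ‖SS n x t j ξ‖ + ‖DD n x t j ξ‖ := by
      refine (norm_add_le _ _).trans ?_
      rw [norm_mul]
    calc _ ≤ ‖uh (ξ * (1 / (n : ℝ)) ^ j) * SS n x t j ξ + DD n x t j ξ‖ * 1 := by gcongr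
      _ ≤ _ := by rw [mul_one]; exact h5

end Pool.Agent.N46.FD
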