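import Mathlib
import Pool.Agent.N46.FD.Stm

set_option autoImplicit false

/-!
# FD/SEL: the selection of a finite set
-/

namespace Pool.Agent.N46.FD

namespace SEL

/-- one point in each cell which is hit -/
structure CD (n : ℕ) (E : Set ℝ) (C : Finset ℕ) (p : ℕ → ℝ) : Prop where
  lt : ∀ c ∈ C, c < n
  mem : ∀ c ∈ C, p c ∈ E
  lo : ∀ c ∈ C, (c : ℝ) ≤ n * p c
  hi : ∀ c ∈ C, n * p c < c + 1

theorem finset_cells (n : ℕ) (E : Set ℝ) :
    {c : ℕ | c < n ∧ ∃ x ∈ E, (c : ℝ) ≤ n * x ∧ n * x < c + 1}.Finite :=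
  (Set.finite_Iio n).subset fun _ hc => hc.1

theorem exists_CD (n : ℕ) (E : Set ℝ) : ∃ (C : Finset ℕ) (p : ℕ → ℝ), CD n E C p ∧
    C.card = cnt n E := by
  classical
  have h := finset_cells n E
  have hp : ∀ c : ℕ, ∃ x : ℝ, (c < n ∧ ∃ x ∈ E, (c : ℝ) ≤ n * x ∧ n * x < c + 1) →
      x ∈ E ∧ (c : ℝ) ≤ n * x ∧ n * x < c + 1 := by
    intro c
    by_cases hc : c < n ∧ ∃ x ∈ E, (c : ℝ) ≤ n * x ∧ n * x < c + 1
    · obtain ⟨x, hx1, hx2⟩ := hc.2
      exact ⟨x, fun _ => ⟨hx1, hx2⟩⟩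
    · exact ⟨0, fun h => absurd h hc⟩
  choose p hp using hp
  refine ⟨h.toFinset, p, ⟨?_, ?_, ?_, ?_⟩, ?_⟩
  · intro c hc
    exact ((Set.Finite.mem_toFinset h).1 hc).1
  · intro c hc
    exact (hp c ((Set.Finite.mem_toFinset h).1 hc)).1
  · intro c hc
    exact (hp c ((Set.Finite.mem_toFinset h).1 hc)).2.1
  · intro c hc
    exact (hp c ((Set.Finite.mem_toFinset h).1 hc)).2.2
  · rw [cnt, Set.ncard_eq_toFinset_card _ h]

section
variable {n' q : ℕ} {E : Set ℝ} {C : Finset ℕ} {p : ℕ → ℝ}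

theorem CD.mono (h : CD (n' * q) E C p) (hn : 1 ≤ n') (hq : 1 ≤ q) {c d : ℕ} (hc : c ∈ C)
    (hd : d ∈ C) (hcd : c < d) : p c < p d := by
  have h1 := h.hi c hc
  have h2 := h.lo d hd
  have h3 : ((c : ℝ) + 1) ≤ d := by exact_mod_cast hcd
  have h4 : (0 : ℝ) < ((n' * q : ℕ) : ℝ) := by
    have : 0 < n' * q := Nat.mul_pos hn hq
    exact_mod_cast this
  have h5 : ((n' * q : ℕ) : ℝ) * p c < ((n' * q : ℕ) : ℝ) * p d := by linarith
  exact lt_of_mul_lt_mul_left h5 h4.le

theorem CD.lt_of (h : CD (n' * q) E C p) (hn : 1 ≤ n') (hq : 1 ≤ q) {c d : ℕ} (hc : c ∈ C)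
    (hd : d ∈ C) (hcd : p c < p d) : c < d := by
  rcases lt_trichotomy c d with h1 | h1 | h1
  · exact h1
  · rw [h1] at hcd; exact absurd hcd (lt_irrefl _)
  · exact absurd (h.mono hn hq hd hc h1) (not_lt.2 hcd.le)

theorem CD.cell (h : CD (n' * q) E C p) (hq : 1 ≤ q) {c : ℕ} (hc : c ∈ C) :
    ((c / q : ℕ) : ℝ) ≤ n' * p c ∧ n' * p c < ((c / q : ℕ) : ℝ) + 1 := by
  have h1 := h.lo c hc
  have h2 := h.hi c hc
  have hq0 : (0 : ℝ) < q := by exact_mod_cast hq
  have h3 : ((c / q : ℕ) : ℝ) * q ≤ c := by exact_mod_cast Nat.div_mul_le_self c q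
  have h4 : (c : ℝ) + 1 ≤ (((c / q : ℕ) : ℝ) + 1) * q := by
    have h5 : c + 1 ≤ (c / q + 1) * q := by
      have := Nat.lt_mul_div_succ c hq
      rw [mul_comm] at this
      exact this
    exact_mod_cast h5
  push_cast at h1 h2
  constructor
  · have : ((c / q : ℕ) : ℝ) * q ≤ (n' * p c) * q := by linarith
    exact le_of_mul_le_mul_right this hq0
  · have : (n' * p c) * q < (((c / q : ℕ) : ℝ) + 1) * q := by linarith
    exact lt_of_mul_lt_mul_right this hq0.le

/-- a set of indices whose points have distance at least `1/n'` is small -/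
theorem CD.card_le (hS : S_SUB) {k : ℕ} {ε : ℝ} (hE : Av k ε E) (h : CD (n' * q) E C p)
    (hn : 1 ≤ n') (hq : 1 ≤ q) (R : Finset ℕ) (hR : R ⊆ C)
    (hR2 : ∀ c ∈ R, ∀ d ∈ R, c < d → 1 / (n' : ℝ) ≤ p d - p c) : R.card ≤ MM k ε n' := by
  classical
  refine le_trans ?_ (hS.le k ε n' E hE)
  have hn0 : (0 : ℝ) < n' := by exact_mod_cast hn
  have hinj : Set.InjOn (fun c : ℕ => c / q) (R : Set ℕ) := by
    have key : ∀ c ∈ R, ∀ d ∈ R, c < d → c / q ≠ d / q := by
      intro c hc d hd hcd he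
      have h1 := (h.cell hq (hR hc)).1
      have h2 := (h.cell hq (hR hd)).2
      have h3 := hR2 c hc d hd hcd
      rw [← he] at h2
      rw [div_le_iff₀ hn0] at h3
      linarith
    intro c hc d hd he
    rcases lt_trichotomy c d with h1 | h1 | h1
    · exact absurd he (key c hc d hd h1)
    · exact h1
    · exact absurd he.symm (key d hd c hc h1)
  rw [← Finset.card_image_of_injOn hinj, cnt]
  rw [← Set.ncard_coe_finset]
  refine Set.ncard_le_ncard ?_ (finset_cells n' E)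
  intro j hj
  rw [Finset.coe_image] at hj
  obtain ⟨c, hc, rfl⟩ := hj
  refine ⟨?_, p c, h.mem c (hR hc), (h.cell hq (hR hc)).1, (h.cell hq (hR hc)).2⟩
  have h1 := h.lt c (hR hc)
  exact Nat.div_lt_of_lt_mul (by rw [mul_comm q n']; exact h1)

/-- points near a given one -/
theorem CD.near (h : CD (n' * q) E C p) (hn : 1 ≤ n') (hq : 1 ≤ q) (D : Finset ℕ) (hD : D ⊆ C)
    (Q : Finset ℕ) (hQ : Q ⊆ C)
    (hQ2 : ∀ c ∈ Q, ∃ e ∈ D, |p c - p e| < 4 / ((n' : ℝ) * q)) : Q.card ≤ 9 * D.card := by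
  classical
  have h0 : (0 : ℝ) < (n' : ℝ) * q := by
    have : 0 < n' * q := Nat.mul_pos hn hq
    exact_mod_cast this
  have h1 : Q ⊆ D.biUnion fun e => Finset.Icc (e - 4) (e + 4) := by
    intro c hc
    obtain ⟨e, he, h2⟩ := hQ2 c hc
    rw [Finset.mem_biUnion]
    refine ⟨e, he, ?_⟩
    rw [lt_div_iff₀ h0, ← abs_of_pos h0, ← abs_mul] at h2
    rw [abs_lt] at h2
    have a1 := h.lo c (hQ hc)
    have a2 := h.hi c (hQ hc)
    have b1 := h.lo e (hD he)
    have b2 := h.hi e (hD he)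
    push_cast at a1 a2 b1 b2
    have c1 : (c : ℝ) < e + 5 := by nlinarith
    have c2 : (e : ℝ) < c + 5 := by nlinarith
    have d1 : c < e + 5 := by exact_mod_cast c1
    have d2 : e < c + 5 := by exact_mod_cast c2
    rw [Finset.mem_Icc]
    omega
  refine (Finset.card_le_card h1).trans ?_
  refine Finset.card_biUnion_le.trans ?_
  refine (Finset.sum_le_card_nsmul D _ 9 fun e _ => ?_).trans ?_
  · rw [Nat.card_Icc]; omega
  · rw [smul_eq_mul, mul_comm]

end

/-- the finite set of indices which avoids strongly -/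
theorem step1 (hS : S_SUB) (k : ℕ) (ε : ℝ) (hk : 3 ≤ k) (he : 0 < ε) (he1 : ε < 1) (n' q : ℕ)
    (hn : 1 ≤ n') (hq : 1 ≤ q) (hA : 36 * MM k ε n' ≤ MM k ε (n' * q)) :
    ∃ (E : Set ℝ) (C C1 : Finset ℕ) (p : ℕ → ℝ), CD (n' * q) E C p ∧ C1 ⊆ C ∧
      MM k ε (n' * q) ≤ 2 * C1.card ∧
      ∀ a l : ℝ, 1 / (2 * ε * n') ≤ l → ∃ i : ℕ, i < k ∧ ∀ c ∈ C1,
        ε * l + 4 / ((n' : ℝ) * q) ≤ |p c - (a + i * l)| := by
  classical
  obtain ⟨E, hE, hE2⟩ := hS.att k ε hk he he1 (n' * q)
  obtain ⟨C, p, h, hC⟩ := exists_CD (n' * q) E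
  have hn0 : (0 : ℝ) < n' := by exact_mod_cast hn
  have hq0 : (0 : ℝ) < q := by exact_mod_cast hq
  set R : Finset ℕ := C.filter fun e => ∀ d ∈ C, d < e → p d ≤ p e - 1 / (n' : ℝ) with hRdef
  set L : Finset ℕ := C.filter fun e => ∀ d ∈ C, e < d → p e + 1 / (n' : ℝ) ≤ p d with hLdef
  have hRc : R.card ≤ MM k ε n' := by
    apply h.card_le hS hE hn hq R (Finset.filter_subset _ _)
    intro c hc d hd hcd
    have h1 := (Finset.mem_filter.1 hd).2 c (Finset.mem_filter.1 hc).1 hcd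
    linarith
  have hLc : L.card ≤ MM k ε n' := by
    apply h.card_le hS hE hn hq L (Finset.filter_subset _ _)
    intro c hc d hd hcd
    have h1 := (Finset.mem_filter.1 hc).2 d (Finset.mem_filter.1 hd).1 hcd
    linarith
  set C1 : Finset ℕ := C.filter fun c => ∀ e ∈ R ∪ L, 4 / ((n' : ℝ) * q) ≤ |p c - p e| with hC1def
  have hRL : R ∪ L ⊆ C := Finset.union_subset (Finset.filter_subset _ _) (Finset.filter_subset _ _)
  have hrem : (C \ C1).card ≤ 9 * (R ∪ L).card := by
    apply h.near hn hq (R ∪ L) hRL _ Finset.sdiff_subset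
    intro c hc
    rw [Finset.mem_sdiff] at hc
    by_contra hcon
    push Not at hcon
    exact hc.2 (Finset.mem_filter.2 ⟨hc.1, hcon⟩)
  have hcard : C.card = (C \ C1).card + C1.card :=
    (Finset.card_sdiff_add_card_eq_card (Finset.filter_subset _ _)).symm
  have hRLc := Finset.card_union_le R L
  refine ⟨E, C, C1, p, h, Finset.filter_subset _ _, ?_, ?_⟩
  · rw [← hE2, ← hC] at hA ⊢
    omega
  · intro a l hl
    have hl0 : 0 < l := lt_of_lt_of_le (by positivity) hl
    have hl1 : 1 / (n' : ℝ) ≤ 2 * (ε * l) := by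
      rw [div_le_iff₀ (by positivity)] at hl
      rw [div_le_iff₀ hn0]
      nlinarith
    obtain ⟨i, hi, hi2⟩ := hE a l hl0
    refine ⟨i, hi, fun c hc => ?_⟩
    set P : ℝ := a + i * l with hP
    have hcC := (Finset.mem_filter.1 hc).1
    have hcf := (Finset.mem_filter.1 hc).2
    have hx := hi2 (p c) (h.mem c hcC)
    rcases le_total P (p c) with hPc | hPc
    · rw [abs_of_nonneg (by linarith)] at hx
      rw [abs_of_nonneg (by linarith)]
      -- the least index with `p e ≥ P + ε l`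
      have hne : (C.filter fun d => P + ε * l ≤ p d).Nonempty :=
        ⟨c, Finset.mem_filter.2 ⟨hcC, by linarith⟩⟩
      obtain ⟨e, he', hemin⟩ := Finset.exists_min_image _ (fun d : ℕ => d) hne
      rw [Finset.mem_filter] at he'
      have heR : e ∈ R := by
        rw [hRdef, Finset.mem_filter]
        refine ⟨he'.1, fun d hd hde => ?_⟩
        have h1 : ¬ P + ε * l ≤ p d := by
          intro h2
          have := hemin d (Finset.mem_filter.2 ⟨hd, h2⟩)
          omega
        have h2 := hi2 (p d) (h.mem d hd)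
        have h3 : p d ≤ P - ε * l := by
          rcases le_abs.1 h2 with h4 | h4
          · exfalso; apply h1; linarith
          · linarith
        linarith
      have h5 := hcf e (Finset.mem_union_left _ heR)
      have h6 : p e ≤ p c := by
        have h7 : e ≤ c := hemin c (Finset.mem_filter.2 ⟨hcC, by linarith⟩)
        rcases h7.lt_or_eq with h8 | h8
        · exact (h.mono hn hq he'.1 hcC h8).le
        · rw [h8]
      rw [abs_of_nonneg (by linarith)] at h5
      linarith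
    · rw [abs_of_nonpos (by linarith)] at hx
      rw [abs_of_nonpos (by linarith)]
      have hne : (C.filter fun d => p d ≤ P - ε * l).Nonempty :=
        ⟨c, Finset.mem_filter.2 ⟨hcC, by linarith⟩⟩
      obtain ⟨e, he', hemax⟩ := Finset.exists_max_image _ (fun d : ℕ => d) hne
      rw [Finset.mem_filter] at he'
      have heL : e ∈ L := by
        rw [hLdef, Finset.mem_filter]
        refine ⟨he'.1, fun d hd hde => ?_⟩
        have h1 : ¬ p d ≤ P - ε * l := by
          intro h2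
          have := hemax d (Finset.mem_filter.2 ⟨hd, h2⟩)
          omega
        have h2 := hi2 (p d) (h.mem d hd)
        have h3 : P + ε * l ≤ p d := by
          rcases le_abs.1 h2 with h4 | h4
          · linarith
          · exfalso; apply h1; linarith
        linarith
      have h5 := hcf e (Finset.mem_union_right _ heL)
      have h6 : p c ≤ p e := by
        have h7 : c ≤ e := hemax c (Finset.mem_filter.2 ⟨hcC, by linarith⟩)
        rcases h7.lt_or_eq with h8 | h8
        · exact (h.mono hn hq hcC he'.1 h8).le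
        · rw [h8]
      rw [abs_of_nonpos (by linarith)] at h5
      linarith

/-- thinning -/
theorem step2 (J : Finset ℕ) (L0 : ℕ) (hL : 1 ≤ L0) :
    ∃ J' ⊆ J, J.card ≤ L0 * J'.card ∧ ∀ i ∈ J', ∀ j ∈ J', i < j → i + L0 ≤ j := by
  classical
  have h1 : ∃ r ∈ Finset.range L0, J.card ≤ L0 * (J.filter fun j => j % L0 = r).card := by
    by_contra hcon
    push Not at hcon
    have h2 : J.card = ∑ r ∈ Finset.range L0, (J.filter fun j => j % L0 = r).card :=
      Finset.card_eq_sum_card_fiberwise fun j _ =>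
        Finset.mem_coe.2 (Finset.mem_range.2 (Nat.mod_lt j hL))
    have h3 : L0 * J.card < L0 * J.card := by
      calc L0 * J.card = ∑ r ∈ Finset.range L0, L0 * (J.filter fun j => j % L0 = r).card := by
            rw [← Finset.mul_sum, ← h2]
        _ < ∑ _r ∈ Finset.range L0, J.card :=
            Finset.sum_lt_sum_of_nonempty ⟨0, Finset.mem_range.2 hL⟩ hcon
        _ = L0 * J.card := by simp
    exact lt_irrefl _ h3
  obtain ⟨r, -, hr⟩ := h1
  refine ⟨_, Finset.filter_subset _ _, hr, ?_⟩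
  intro i hi j hj hij
  have h2 := (Finset.mem_filter.1 hi).2
  have h3 := (Finset.mem_filter.1 hj).2
  have h4 : i ≡ j [MOD L0] := by rw [Nat.ModEq, h2, h3]
  have h5 : L0 ∣ j - i := (Nat.modEq_iff_dvd' hij.le).1 h4
  have h6 := Nat.le_of_dvd (by omega) h5
  omega

end SEL

open SEL in
theorem t_SEL : S_SEL := by
  classical
  intro hS k ε hk he he1
  obtain ⟨L0, hL0⟩ := exists_nat_ge (((k : ℝ) + 1) / (2 * ε) + 9)
  have hL1 : 1 ≤ L0 := by
    have h1 : (0 : ℝ) ≤ ((k : ℝ) + 1) / (2 * ε) := by positivity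
    have h2 : (1 : ℝ) ≤ L0 := by linarith
    exact_mod_cast h2
  refine ⟨36 + 2 * L0, by omega, fun n' q hn hq hA => ?_⟩
  have hA1 : 36 * MM k ε n' ≤ MM k ε (n' * q) :=
    le_trans (Nat.mul_le_mul_right _ (by omega)) hA
  obtain ⟨E, C, C1, p, h, hC1, hcard, hav⟩ := step1 hS k ε hk he he1 n' q hn hq hA1
  have hn0 : (0 : ℝ) < n' := by exact_mod_cast hn
  have hq0 : (0 : ℝ) < q := by exact_mod_cast hq
  -- cells
  have hJ : C1.card ≤ q * (C1.image fun c => c / q).card := by
    apply Finset.card_le_mul_card_image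
    intro j _
    have : (C1.filter fun c => c / q = j) ⊆ Finset.Ico (q * j) (q * j + q) := by
      intro c hc
      rw [Finset.mem_filter] at hc
      rw [Finset.mem_Ico, ← hc.2]
      have h1 := Nat.div_add_mod c q
      have h2 := Nat.mod_lt c hq
      omega
    refine (Finset.card_le_card this).trans ?_
    simp
  obtain ⟨J', hJ'1, hJ'2, hJ'3⟩ := step2 (C1.image fun c => c / q) L0 hL1
  have hch : ∀ j : ℕ, ∃ c, j ∈ J' → c ∈ C1 ∧ c / q = j := by
    intro j
    by_cases hj : j ∈ J'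
    · obtain ⟨c, hc, hcj⟩ := Finset.mem_image.1 (hJ'1 hj)
      exact ⟨c, fun _ => ⟨hc, hcj⟩⟩
    · exact ⟨0, fun h => absurd h hj⟩
  choose f hf using hch
  have hsep : ∀ i ∈ J', ∀ j ∈ J', i < j →
      (((k : ℝ) + 1) / (2 * ε) + 8) / n' ≤ p (f j) - p (f i) := by
    intro i hi j hj hij
    have h1 := (h.cell hq (hC1 (hf i hi).1)).2
    have h2 := (h.cell hq (hC1 (hf j hj).1)).1
    rw [(hf i hi).2] at h1
    rw [(hf j hj).2] at h2
    have h3 : (i : ℝ) + L0 ≤ j := by exact_mod_cast hJ'3 i hi j hj hij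
    rw [div_le_iff₀ hn0]
    nlinarith
  have hpos : (0 : ℝ) < (((k : ℝ) + 1) / (2 * ε) + 8) / n' := by positivity
  have hinj : Set.InjOn (fun j => p (f j)) (J' : Set ℕ) := by
    intro i hi j hj hij
    rcases lt_trichotomy i j with h1 | h1 | h1
    · have := hsep i hi j hj h1
      simp only at hij
      linarith
    · exact h1
    · have := hsep j hj i hi h1
      simp only at hij
      linarith
  refine ⟨J'.image fun j => p (f j), ?_, ?_, ?_, ?_⟩
  · intro x hx
    obtain ⟨j, hj, rfl⟩ := Finset.mem_image.1 hx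
    have hc := hC1 (hf j hj).1
    have h1 := h.lo _ hc
    have h2 := h.hi _ hc
    have h3 : ((f j : ℕ) : ℝ) + 1 ≤ ((n' * q : ℕ) : ℝ) := by exact_mod_cast h.lt _ hc
    have h4 : (0 : ℝ) < ((n' * q : ℕ) : ℝ) := by
      have : 0 < n' * q := Nat.mul_pos hn hq
      exact_mod_cast this
    have h5 : (0 : ℝ) ≤ (f j : ℕ) := Nat.cast_nonneg _
    constructor
    · by_contra hneg
      push Not at hneg
      have := mul_neg_of_pos_of_neg h4 hneg
      linarith
    · by_contra hge
      push Not at hge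
      nlinarith
  · rw [Finset.card_image_of_injOn hinj]
    calc MM k ε (n' * q) ≤ 2 * C1.card := hcard
      _ ≤ 2 * (q * (L0 * J'.card)) :=
          Nat.mul_le_mul_left _ (hJ.trans (Nat.mul_le_mul_left _ hJ'2))
      _ = (2 * L0) * q * J'.card := by ring
      _ ≤ (36 + 2 * L0) * q * J'.card :=
          Nat.mul_le_mul_right _ (Nat.mul_le_mul_right _ (by omega))
  · intro x hx y hy hxy
    obtain ⟨i, hi, rfl⟩ := Finset.mem_image.1 hx
    obtain ⟨j, hj, rfl⟩ := Finset.mem_image.1 hy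
    have hij : i ≠ j := by rintro rfl; exact hxy rfl
    rcases lt_or_gt_of_ne hij with h1 | h1
    · have h2 := hsep i hi j hj h1
      rw [abs_sub_comm]
      exact h2.trans (le_abs_self _)
    · have h2 := hsep j hj i hi h1
      exact h2.trans (le_abs_self _)
  · intro a l hl
    obtain ⟨i, hi, hi2⟩ := hav a l hl
    refine ⟨i, hi, fun x hx => ?_⟩
    obtain ⟨j, hj, rfl⟩ := Finset.mem_image.1 hx
    exact hi2 _ (hf j hj).1

end Pool.Agent.N46.FD
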