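import Mathlib
import Pool.Agent.N46.FD.Stm

/-!
# Project FD (helper46), part SUB (helper572): the maximal number of cells, submultiplicativity
-/

set_option autoImplicit false

namespace Pool.Agent.N46.FD

open MeasureTheory Set Filter Topology

namespace SUB

open Classical in
/-- the cells which meet `E` -/
noncomputable def H (n : ℕ) (E : Set ℝ) : Finset ℕ :=
  (Finset.range n).filter fun c => ∃ x ∈ E, (c : ℝ) ≤ n * x ∧ n * x < c + 1

theorem mem_H (n : ℕ) (E : Set ℝ) (c : ℕ) :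
    c ∈ H n E ↔ c < n ∧ ∃ x ∈ E, (c : ℝ) ≤ n * x ∧ n * x < c + 1 := by
  simp only [H, Finset.mem_filter, Finset.mem_range]

theorem cnt_eq (n : ℕ) (E : Set ℝ) : cnt n E = (H n E).card := by
  unfold cnt
  rw [← Set.ncard_coe_finset]
  congr 1
  ext c
  rw [Finset.mem_coe, mem_H, Set.mem_setOf_eq]

theorem cnt_le (n : ℕ) (E : Set ℝ) : cnt n E ≤ n := by
  rw [cnt_eq]
  refine (Finset.card_le_card (t := Finset.range n) fun c hc => ?_).trans
    (Finset.card_range n).le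
  rw [Finset.mem_range]
  exact ((mem_H n E c).1 hc).1

theorem bdd (k : ℕ) (ε : ℝ) (n : ℕ) : BddAbove {m : ℕ | ∃ E : Set ℝ, Av k ε E ∧ cnt n E = m} := by
  refine ⟨n, ?_⟩
  rintro m ⟨E, _, rfl⟩
  exact cnt_le n E

theorem le (k : ℕ) (ε : ℝ) (n : ℕ) (E : Set ℝ) (h : Av k ε E) : cnt n E ≤ MM k ε n :=
  le_csSup (bdd k ε n) ⟨E, h, rfl⟩

theorem av_empty {k : ℕ} (ε : ℝ) (hk : 3 ≤ k) : Av k ε ∅ :=
  fun _ _ _ => ⟨0, by omega, fun _ hx => absurd hx (Set.notMem_empty _)⟩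

theorem att {k : ℕ} (ε : ℝ) (hk : 3 ≤ k) (n : ℕ) : ∃ E : Set ℝ, Av k ε E ∧ cnt n E = MM k ε n :=
  Nat.sSup_mem (s := {m : ℕ | ∃ E : Set ℝ, Av k ε E ∧ cnt n E = m})
    ⟨_, ∅, av_empty ε hk, rfl⟩ (bdd k ε n)

theorem av_single {k : ℕ} {ε : ℝ} (hk : 3 ≤ k) (hε : ε < 1) : Av k ε {0} := by
  intro a l hl
  by_contra hcon
  push Not at hcon
  obtain ⟨x, hx, h0⟩ := hcon 0 (by omega)
  obtain ⟨x', hx', h2⟩ := hcon 2 (by omega)
  rw [Set.mem_singleton_iff] at hx hx'
  rw [hx, abs_lt] at h0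
  rw [hx', abs_lt] at h2
  push_cast at h0 h2
  nlinarith [h0.1, h0.2, h2.1, h2.2]

theorem av_sub {k : ℕ} {ε : ℝ} {E : Set ℝ} (hE : Av k ε E) {n : ℕ} (hn : 1 ≤ n) (c : ℕ) :
    Av k ε {y : ℝ | ((c : ℝ) + y) / n ∈ E} := by
  intro a l hl
  have hn0 : (0 : ℝ) < n := by exact_mod_cast hn
  obtain ⟨i, hi, h⟩ := hE (((c : ℝ) + a) / n) (l / n) (div_pos hl hn0)
  refine ⟨i, hi, fun y hy => ?_⟩
  have h1 := h _ hy
  have e : ((c : ℝ) + y) / n - (((c : ℝ) + a) / n + i * (l / n)) = (y - (a + i * l)) / n := by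
    field_simp
    ring
  rw [e, abs_div, abs_of_pos hn0, ← mul_div_assoc, div_le_div_iff_of_pos_right hn0] at h1
  exact h1

theorem mul {k : ℕ} {ε : ℝ} (hk : 3 ≤ k) {n m : ℕ} (hn : 1 ≤ n) (hm : 1 ≤ m) :
    MM k ε (n * m) ≤ MM k ε n * MM k ε m := by
  obtain ⟨E, hE, hc⟩ := att ε hk (n * m)
  rw [← hc, cnt_eq]
  have hn0 : (0 : ℝ) < n := by exact_mod_cast hn
  have hm0 : (0 : ℝ) < m := by exact_mod_cast hm
  have h1 : (H (n * m) E).card ≤
      ((H n E).sigma fun c => H m {y : ℝ | ((c : ℝ) + y) / n ∈ E}).card := by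
    refine Finset.card_le_card_of_injOn (fun e => ⟨e / m, e % m⟩) ?_ ?_
    · intro e he
      rw [Finset.mem_coe, mem_H] at he
      obtain ⟨he1, x, hx, he2, he3⟩ := he
      rw [Finset.mem_coe, Finset.mem_sigma]
      have hdiv : e = (e / m) * m + e % m := (Nat.div_add_mod' e m).symm
      have hmod : e % m < m := Nat.mod_lt _ (by omega)
      have hR : (e : ℝ) = ((e / m : ℕ) : ℝ) * m + ((e % m : ℕ) : ℝ) := by exact_mod_cast hdiv
      have hmodR : ((e % m : ℕ) : ℝ) + 1 ≤ m := by exact_mod_cast hmod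
      have hmod0 : (0 : ℝ) ≤ ((e % m : ℕ) : ℝ) := Nat.cast_nonneg _
      push_cast at he2 he3
      rw [hR] at he2 he3
      have hnm : (n : ℝ) * m * x = (n * x) * m := by ring
      rw [hnm] at he2 he3
      refine ⟨?_, ?_⟩
      · simp only [mem_H]
        refine ⟨Nat.div_lt_of_lt_mul (by rwa [mul_comm] at he1), x, hx, ?_, ?_⟩
        · exact le_of_mul_le_mul_right (by linarith) hm0
        · exact lt_of_mul_lt_mul_right (by linarith) hm0.le
      · simp only [mem_H]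
        refine ⟨hmod, n * x - ((e / m : ℕ) : ℝ), ?_, ?_, ?_⟩
        · have : (((e / m : ℕ) : ℝ) + (n * x - ((e / m : ℕ) : ℝ))) / n = x := by
            field_simp
            ring
          rw [Set.mem_setOf_eq, this]
          exact hx
        · linarith
        · linarith
    · intro e _ e' _ h
      simp only [Sigma.mk.injEq, heq_eq_eq] at h
      rw [← Nat.div_add_mod' e m, ← Nat.div_add_mod' e' m, h.1, h.2]
  refine h1.trans ?_
  rw [Finset.card_sigma]
  calc ∑ c ∈ H n E, (H m {y : ℝ | ((c : ℝ) + y) / n ∈ E}).card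
      ≤ ∑ _c ∈ H n E, MM k ε m := by
        refine Finset.sum_le_sum fun c _ => ?_
        rw [← cnt_eq]
        exact le k ε m _ (av_sub hE hn c)
    _ = (H n E).card * MM k ε m := by rw [Finset.sum_const, smul_eq_mul]
    _ ≤ MM k ε n * MM k ε m := by
        refine Nat.mul_le_mul_right _ ?_
        rw [← cnt_eq]
        exact le k ε n E hE

end SUB

open SUB in
/-- SUB -/
theorem t_SUB : S_SUB where
  bd k ε hk hε hε1 n hn := by
    constructor
    · refine le_trans ?_ (SUB.le k ε n {0} (av_single hk hε1))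
      rw [cnt_eq]
      refine Finset.card_pos.2 ⟨0, ?_⟩
      rw [mem_H]
      refine ⟨by omega, 0, rfl, ?_, ?_⟩
      · simp
      · simp
    · obtain ⟨E, _, h⟩ := SUB.att ε hk n
      rw [← h]
      exact cnt_le n E
  le := SUB.le
  att k ε hk _ _ n := SUB.att ε hk n
  mul k ε hk _ _ n m hn hm := SUB.mul hk hn hm

end Pool.Agent.N46.FD
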