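import Pool.Agent.N46.FD.Stm

/-!
# FD/TOP: the points of the Cantor set
-/

set_option autoImplicit false

namespace Pool.Agent.N46.FD

open Set Filter Topology

namespace TOP

variable {m n : ℕ} {x : Fin m → ℝ} {t : ∀ j : ℕ, (Fin j → Fin m) → ℝ}

/-- the terms of the series -/
noncomputable def tm (n : ℕ) (x : Fin m → ℝ) (t : ∀ j : ℕ, (Fin j → Fin m) → ℝ) (w : ℕ → Fin m)
    (i : ℕ) : ℝ := (1 / (n : ℝ)) ^ i * (t i (ini w i) + x (w i))

theorem r_pos (hn : 4 ≤ n) : 0 < 1 / (n : ℝ) := by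
  have : (4 : ℝ) ≤ n := by exact_mod_cast hn
  positivity

theorem r_le (hn : 4 ≤ n) : 1 / (n : ℝ) ≤ 1 / 4 := by
  have : (4 : ℝ) ≤ n := by exact_mod_cast hn
  exact one_div_le_one_div_of_le (by norm_num) this

theorem tm_nonneg (hn : 4 ≤ n) (hx : Xb x) (ht : Tb t) (w : ℕ → Fin m) (i : ℕ) :
    0 ≤ tm n x t w i :=
  mul_nonneg (pow_nonneg (r_pos hn).le _) (add_nonneg (ht i _).1 (hx _).1)

theorem tm_le (hn : 4 ≤ n) (hx : Xb x) (ht : Tb t) (w : ℕ → Fin m) (i : ℕ) :
    tm n x t w i ≤ (1 / (n : ℝ)) ^ i * (3 / 4) := by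
  refine mul_le_mul_of_nonneg_left ?_ (pow_nonneg (r_pos hn).le _)
  have h1 := (ht i (ini w i)).2
  have h2 := (hx (w i)).2
  linarith

theorem summ (hn : 4 ≤ n) : Summable fun i : ℕ => (1 / (n : ℝ)) ^ i * (3 / 4) := by
  have h := r_le hn
  exact (summable_geometric_of_lt_one (r_pos hn).le (by linarith)).mul_right _

theorem tm_summ (hn : 4 ≤ n) (hx : Xb x) (ht : Tb t) (w : ℕ → Fin m) :
    Summable (tm n x t w) :=
  Summable.of_nonneg_of_le (tm_nonneg hn hx ht w) (tm_le hn hx ht w) (summ hn)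

theorem ps_eq (w : ℕ → Fin m) (j : ℕ) :
    ps n x t j (ini w j) = ∑ i ∈ Finset.range j, tm n x t w i := by
  rw [← Fin.sum_univ_eq_sum_range (tm n x t w) j]
  rfl

theorem succ' (w : ℕ → Fin m) (j : ℕ) :
    ps n x t (j + 1) (ini w (j + 1)) =
      ps n x t j (ini w j) + (1 / (n : ℝ)) ^ j * (t j (ini w j) + x (w j)) := by
  rw [ps_eq, ps_eq, Finset.sum_range_succ]
  rfl

theorem cont' (hn : 4 ≤ n) (hx : Xb x) (ht : Tb t) : Continuous (pt n x t) := by
  have h : Continuous fun w : ℕ → Fin m => ∑' i, tm n x t w i := by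
    refine continuous_tsum (fun i => ?_) (summ hn) (fun i w => ?_)
    · unfold tm
      refine continuous_const.mul (Continuous.add ?_ ?_)
      · have h1 : Continuous fun w : ℕ → Fin m => ini w i :=
          continuous_pi fun l => continuous_apply (l : ℕ)
        exact (continuous_of_discreteTopology (f := t i)).comp h1
      · exact (continuous_of_discreteTopology (f := x)).comp (continuous_apply i)
    · rw [Real.norm_of_nonneg (tm_nonneg hn hx ht w i)]
      exact tm_le hn hx ht w i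
  exact h

theorem near' (hn : 4 ≤ n) (hx : Xb x) (ht : Tb t) (w : ℕ → Fin m) (j : ℕ) :
    ps n x t j (ini w j) ≤ pt n x t w ∧ pt n x t w ≤ ps n x t j (ini w j) + (1 / (n : ℝ)) ^ j := by
  have h0 := r_pos hn
  have h1 := r_le hn
  have hpt : pt n x t w = ∑' i, tm n x t w i := rfl
  have hs := (tm_summ hn hx ht w)
  have hsplit := hs.sum_add_tsum_nat_add j
  rw [ps_eq, hpt, ← hsplit]
  have ht0 : 0 ≤ ∑' i, tm n x t w (i + j) := tsum_nonneg fun i => tm_nonneg hn hx ht w _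
  have ht1 : ∑' i, tm n x t w (i + j) ≤ (1 / (n : ℝ)) ^ j := by
    have h2 : ∑' i, tm n x t w (i + j) ≤ ∑' i : ℕ, (1 / (n : ℝ)) ^ i * ((1 / (n : ℝ)) ^ j * (3 / 4)) := by
      refine Summable.tsum_le_tsum (fun i => ?_) ((summable_nat_add_iff j).2 hs) ?_
      · refine (tm_le hn hx ht w (i + j)).trans (le_of_eq ?_)
        rw [pow_add, mul_assoc]
      · exact (summable_geometric_of_lt_one h0.le (by linarith)).mul_right _
    refine h2.trans ?_
    rw [tsum_mul_right, tsum_geometric_of_lt_one h0.le (by linarith)]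
    have h3 : (0 : ℝ) ≤ (1 / (n : ℝ)) ^ j := pow_nonneg h0.le _
    have h4 : (1 - 1 / (n : ℝ))⁻¹ ≤ 4 / 3 := by
      have h5 : (4 / 3 : ℝ)⁻¹ ≤ 1 - 1 / (n : ℝ) := by
        have : (4 / 3 : ℝ)⁻¹ = 3 / 4 := by norm_num
        rw [this]
        linarith
      exact inv_le_of_inv_le₀ (by norm_num) h5
    nlinarith
  constructor <;> linarith

theorem bd' (hn : 4 ≤ n) (hx : Xb x) (ht : Tb t) (j : ℕ) (u : Fin j → Fin m) :
    0 ≤ ps n x t j u ∧ ps n x t j u ≤ 1 := by
  have h0 := r_pos hn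
  have h1 := r_le hn
  constructor
  · exact Finset.sum_nonneg fun i _ =>
      mul_nonneg (pow_nonneg h0.le _) (add_nonneg (ht _ _).1 (hx _).1)
  · have h2 : ps n x t j u ≤ ∑ i : Fin j, (1 / (n : ℝ)) ^ (i : ℕ) * (3 / 4) := by
      refine Finset.sum_le_sum fun i _ => mul_le_mul_of_nonneg_left ?_ (pow_nonneg h0.le _)
      have h3 := (ht i (seg u i)).2
      have h4 := (hx (u i)).2
      linarith
    refine h2.trans ?_
    rw [Fin.sum_univ_eq_sum_range (fun i => (1 / (n : ℝ)) ^ i * (3 / 4)) j]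
    have h5 : ∀ j : ℕ, ∑ i ∈ Finset.range j, (1 / (n : ℝ)) ^ i * (3 / 4) ≤ 1 - (1 / (n : ℝ)) ^ j := by
      intro j
      induction j with
      | zero => simp
      | succ j ih =>
        rw [Finset.sum_range_succ, pow_succ]
        have h6 : (0 : ℝ) ≤ (1 / (n : ℝ)) ^ j := pow_nonneg h0.le _
        nlinarith
    have h7 := h5 j
    have h8 : (0 : ℝ) ≤ (1 / (n : ℝ)) ^ j := pow_nonneg h0.le _
    linarith

end TOP

theorem t_TOP : S_TOP where
  cont := fun _ _ _ _ hn hx ht => TOP.cont' hn hx ht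
  succ := fun _ _ _ _ w j => TOP.succ' w j
  near := fun _ _ _ _ hn hx ht w j => TOP.near' hn hx ht w j
  bd := fun _ _ _ _ hn hx ht j u => TOP.bd' hn hx ht j u

end Pool.Agent.N46.FD
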