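import Pool.Agent.N46.FD.Stm

/-!
# FD/UH: elementary bounds for `ee` and `uh`
-/

set_option autoImplicit false

namespace Pool.Agent.N46.FD

open MeasureTheory Set Filter Topology

namespace UH

theorem ee_norm (y : ℝ) : ‖ee y‖ = 1 := Complex.norm_exp_ofReal_mul_I _

theorem ee_add (y z : ℝ) : ee (y + z) = ee y * ee z := by
  unfold ee
  rw [← Complex.exp_add]
  congr 1
  push_cast
  ring

theorem ee_zero : ee 0 = 1 := by
  unfold ee
  simp

theorem pi_le : 2 * Real.pi ≤ 7 := by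
  have := Real.pi_lt_d2
  linarith

theorem ee_lip (y z : ℝ) : ‖ee y - ee z‖ ≤ 7 * |y - z| := by
  have h1 : ee y - ee z = ee z * (ee (y - z) - 1) := by
    rw [mul_sub, ← ee_add]
    congr 1
    · congr 1
      ring
    · rw [mul_one]
  rw [h1, norm_mul, ee_norm, one_mul]
  have h2 : ee (y - z) = Complex.exp (Complex.I * ((-(2 * Real.pi * (y - z)) : ℝ) : ℂ)) := by
    unfold ee
    rw [mul_comm]
  rw [h2]
  refine (Real.norm_exp_I_mul_ofReal_sub_one_le).trans ?_
  rw [norm_neg, norm_mul, Real.norm_of_nonneg (by positivity)]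
  exact mul_le_mul_of_nonneg_right pi_le (abs_nonneg _)

theorem ee_cont (ξ : ℝ) : Continuous fun t : ℝ => ee (ξ * t) := by
  unfold ee
  fun_prop

theorem one (ξ : ℝ) : ‖uh ξ‖ ≤ 1 := by
  unfold uh
  have h := intervalIntegral.norm_integral_le_of_norm_le_const (a := 0) (b := 1 / 2)
    (f := fun t : ℝ => ee (ξ * t)) (C := 1) (fun x _ => (ee_norm _).le)
  rw [norm_mul]
  have h2 : |(1 / 2 : ℝ) - 0| = 1 / 2 := by norm_num
  rw [h2] at h
  have h3 : ‖(2 : ℂ)‖ = 2 := by simp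
  rw [h3]
  linarith

theorem inv (ξ : ℝ) (hξ : ξ ≠ 0) : ‖uh ξ‖ ≤ 1 / |ξ| := by
  unfold uh
  have hpi := Real.pi_gt_three
  have hξ' : 0 < |ξ| := abs_pos.2 hξ
  set c : ℂ := ((-(2 * Real.pi * ξ) : ℝ) : ℂ) * Complex.I with hc
  have hcn : ‖c‖ = 2 * Real.pi * |ξ| := by
    rw [hc, norm_mul, Complex.norm_I, mul_one, Complex.norm_real, norm_neg, norm_mul,
      Real.norm_of_nonneg (by positivity), Real.norm_eq_abs]
  have hc0 : c ≠ 0 := by
    rw [← norm_pos_iff, hcn]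
    positivity
  have h1 : ∀ t : ℝ, ee (ξ * t) = Complex.exp (c * t) := by
    intro t
    unfold ee
    congr 1
    rw [hc]
    push_cast
    ring
  have h2 : ∫ t in (0 : ℝ)..(1 / 2), ee (ξ * t) = (Complex.exp (c * (1 / 2 : ℝ)) -
      Complex.exp (c * (0 : ℝ))) / c := by
    rw [← integral_exp_mul_complex hc0]
    exact intervalIntegral.integral_congr fun t _ => h1 t
  rw [h2, norm_mul, norm_div, hcn, ← h1, ← h1]
  have h3 : ‖ee (ξ * (1 / 2)) - ee (ξ * 0)‖ ≤ 2 := by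
    refine (norm_sub_le _ _).trans ?_
    rw [ee_norm, ee_norm]
    norm_num
  have h4 : ‖(2 : ℂ)‖ = 2 := by simp
  rw [h4]
  rw [← mul_div_assoc, div_le_div_iff₀ (by positivity) hξ']
  nlinarith

theorem lip (ξ η : ℝ) : ‖uh ξ - uh η‖ ≤ 7 * |ξ - η| := by
  unfold uh
  rw [← mul_sub, ← intervalIntegral.integral_sub ((ee_cont ξ).intervalIntegrable _ _)
    ((ee_cont η).intervalIntegrable _ _)]
  have h := intervalIntegral.norm_integral_le_of_norm_le_const (a := 0) (b := 1 / 2)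
    (f := fun t : ℝ => ee (ξ * t) - ee (η * t)) (C := 7 * |ξ - η|) (fun t ht => by
      rw [Set.uIoc_of_le (by norm_num)] at ht
      refine (ee_lip _ _).trans ?_
      rw [← sub_mul, abs_mul]
      have h1 : |t| ≤ 1 := by
        rw [abs_of_pos ht.1]
        linarith [ht.2]
      have h2 := abs_nonneg (ξ - η)
      nlinarith)
  rw [norm_mul]
  have h2 : |(1 / 2 : ℝ) - 0| = 1 / 2 := by norm_num
  rw [h2] at h
  have h3 : ‖(2 : ℂ)‖ = 2 := by simp
  rw [h3]
  linarith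

end UH

theorem t_UH : S_UH :=
  ⟨UH.ee_norm, UH.ee_add, UH.ee_lip, UH.one, UH.inv, UH.lip⟩

end Pool.Agent.N46.FD
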